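import Pool.Agent.H2.PD.StmChk

set_option autoImplicit false

/-!
Soundness of the contribution of one edge.
-/

namespace Pool.Agent.H2.PD

theorem evx_l16 (x : ℕ) : Nat.land x 65535 = x % 65536 := by
  have h := Nat.and_two_pow_sub_one_eq_mod x 16
  norm_num at h
  exact h

theorem evx_l22 (x : ℕ) : Nat.land x 4194303 = x % 4194304 := by
  have h := Nat.and_two_pow_sub_one_eq_mod x 22
  norm_num at h
  exact h

theorem evx_l8 (x : ℕ) : Nat.land x 255 = x % 256 := by
  have h := Nat.and_two_pow_sub_one_eq_mod x 8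
  norm_num at h
  exact h

theorem evx_s (x n : ℕ) : Nat.shiftRight x n = x / 2 ^ n := Nat.shiftRight_eq_div_pow x n

theorem evx_dot (H i : ℕ) : ((dot H (gE i) : ℕ) : ℤ) =
    ((H % 65536 : ℕ) : ℤ) * (px i + 1048576) + ((H / 65536 : ℕ) : ℤ) * (py i + 1048576) := by
  unfold dot px py
  rw [evx_l16, evx_l22, evx_s, evx_s]
  simp only [Nat.add_eq, Nat.mul_eq]
  norm_num

theorem evx_sS (H : ℕ) : ((sS H : ℕ) : ℤ) =
    1048576 * (((H % 65536 : ℕ) : ℤ) + ((H / 65536 : ℕ) : ℤ)) := by
  unfold sS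
  rw [evx_l16, evx_s]
  simp only [Nat.add_eq, Nat.mul_eq]
  norm_num

/-- the value of `fin` -/
theorem evx_fin (k A B : ℕ) : (2 : ℝ) ^ 60 +
    (if 0 ≤ (A : ℤ) - B then (k : ℝ) * (((A : ℤ) - B : ℤ) : ℝ) else (65536 : ℝ) *
      (((A : ℤ) - B : ℤ) : ℝ)) ≤ (fin k A B : ℝ) := by
  unfold fin
  by_cases h : B ≤ A
  · rw [Nat.ble_eq_true_of_le h, cnd_true, if_pos (by omega)]
    simp only [Nat.add_eq, Nat.mul_eq, Nat.sub_eq]
    push_cast [Nat.cast_sub h]
    norm_num
  · have hb : Nat.ble B A = false := by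
      rw [Bool.eq_false_iff]
      intro h'
      exact h (Nat.le_of_ble_eq_true h')
    rw [hb, cnd_false, if_neg (by omega)]
    simp only [Nat.mul_eq, Nat.sub_eq]
    have h1 : ((1152921504606846976 : ℕ) : ℝ) - ((65536 * (B - A) : ℕ) : ℝ) ≤
        ((1152921504606846976 - 65536 * (B - A) : ℕ) : ℝ) := by
      have h2 : 1152921504606846976 ≤ (1152921504606846976 - 65536 * (B - A)) +
          65536 * (B - A) := by omega
      have h3 : ((1152921504606846976 : ℕ) : ℝ) ≤
          ((1152921504606846976 - 65536 * (B - A) : ℕ) : ℝ) + ((65536 * (B - A) : ℕ) : ℝ) := by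
        exact_mod_cast h2
      linarith
    refine le_trans (le_of_eq ?_) h1
    push_cast [Nat.cast_sub (not_le.1 h).le]
    ring

theorem evx_abs (x y : ℝ) : |x| ≤ N x y ∧ |y| ≤ N x y := by
  have hx : 0 ≤ |x| ^ (5 / 2 : ℝ) := Real.rpow_nonneg (abs_nonneg x) _
  have hy : 0 ≤ |y| ^ (5 / 2 : ℝ) := Real.rpow_nonneg (abs_nonneg y) _
  have e : ∀ z : ℝ, |z| = (|z| ^ (5 / 2 : ℝ)) ^ (2 / 5 : ℝ) := by
    intro z
    rw [← Real.rpow_mul (abs_nonneg z)]
    norm_num
  unfold N
  constructor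
  · nth_rewrite 1 [e x]
    exact Real.rpow_le_rpow hx (by linarith) (by norm_num)
  · nth_rewrite 1 [e y]
    exact Real.rpow_le_rpow hy (by linarith) (by norm_num)

theorem ev_ok : S_ev := by
  intro hsec hnle hT c H T hc hH hTl x y hn1 hn2 hS
  obtain ⟨hxa, hya⟩ := evx_abs x y
  have hH0 : H % 65536 < 65536 := Nat.mod_lt _ (by norm_num)
  have hT0 : T % 65536 < 65536 := Nat.mod_lt _ (by norm_num)
  have hH1 : H / 65536 < 65536 := by
    have : (2 : ℕ) ^ 32 = 65536 * 65536 := by norm_num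
    omega
  have hT1 : T / 65536 < 65536 := by
    have : (2 : ℕ) ^ 32 = 65536 * 65536 := by norm_num
    omega
  unfold ev
  by_cases hHT : H = T
  · have hb : Nat.beq H T = true := by rw [hHT]; exact Nat.beq_refl T
    rw [hb, cnd_true, hHT]
    norm_num
  · have hb : Nat.beq H T = false := by
      rw [Bool.eq_false_iff]
      intro h
      exact hHT (Nat.eq_of_beq_eq_true h)
    rw [hb, cnd_false, frc_eq, evx_l8, evx_s]
    have h28 : (2 : ℕ) ^ 8 = 256 := by norm_num
    rw [h28]
    set w : ℕ := c / 256 with hw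
    set a : ℕ := c % 256 with ha
    have hw256 : w < 256 := by omega
    have ha256 : a < 256 := Nat.mod_lt _ (by norm_num)
    unfold ev1
    rw [frc_eq]
    by_cases hk : gK w = 0
    · have hb2 : Nat.beq (gK w) 0 = true := by rw [hk]; rfl
      rw [hb2, cnd_true]
      have h1 : |x| ≤ 2 := by linarith
      have h2 : |y| ≤ 2 := by linarith
      have h3 : (((H % 65536 : ℕ) : ℝ) - ((T % 65536 : ℕ) : ℝ)) * x ≤ 65536 * 2 := by
        have e1 : |(((H % 65536 : ℕ) : ℝ) - ((T % 65536 : ℕ) : ℝ))| ≤ 65536 := by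
          rw [abs_le]
          have e2 : ((H % 65536 : ℕ) : ℝ) ≤ 65536 := by exact_mod_cast hH0.le
          have e3 : ((T % 65536 : ℕ) : ℝ) ≤ 65536 := by exact_mod_cast hT0.le
          have e4 : (0 : ℝ) ≤ ((H % 65536 : ℕ) : ℝ) := Nat.cast_nonneg _
          have e5 : (0 : ℝ) ≤ ((T % 65536 : ℕ) : ℝ) := Nat.cast_nonneg _
          constructor <;> linarith
        refine (le_abs_self _).trans ?_
        rw [abs_mul]
        exact mul_le_mul e1 h1 (abs_nonneg _) (by norm_num)
      have h4 : (((H / 65536 : ℕ) : ℝ) - ((T / 65536 : ℕ) : ℝ)) * y ≤ 65536 * 2 := by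
        have e1 : |(((H / 65536 : ℕ) : ℝ) - ((T / 65536 : ℕ) : ℝ))| ≤ 65536 := by
          rw [abs_le]
          have e2 : ((H / 65536 : ℕ) : ℝ) ≤ 65536 := by exact_mod_cast hH1.le
          have e3 : ((T / 65536 : ℕ) : ℝ) ≤ 65536 := by exact_mod_cast hT1.le
          have e4 : (0 : ℝ) ≤ ((H / 65536 : ℕ) : ℝ) := Nat.cast_nonneg _
          have e5 : (0 : ℝ) ≤ ((T / 65536 : ℕ) : ℝ) := Nat.cast_nonneg _
          constructor <;> linarith
        refine (le_abs_self _).trans ?_
        rw [abs_mul]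
        exact mul_le_mul e1 h2 (abs_nonneg _) (by norm_num)
      have h5 : (((4611686018427387904 : ℕ) : ℕ) : ℝ) = 4611686018427387904 := by norm_num
      rw [h5]
      have h6 : (2 : ℝ) ^ 60 = 1152921504606846976 := by norm_num
      have h7 : (2 : ℝ) ^ 36 = 68719476736 := by norm_num
      rw [h6, h7]
      linarith
    · have hb2 : Nat.beq (gK w) 0 = false := by
        rw [Bool.eq_false_iff]
        intro h
        exact hk (Nat.eq_of_beq_eq_true h)
      rw [hb2, cnd_false, evx_l8]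
      simp only [Nat.add_eq]
      have hw128 : w < 128 := by
        by_contra hcon
        exact hk (hT.gK1 w (by omega) hw256)
      have hw0 : w ≠ 0 := by
        intro h
        rw [h] at hk
        exact hk hT.gK0
      set j : ℕ := (a + w) % 256 with hj
      have hj256 : j < 256 := Nat.mod_lt _ (by norm_num)
      obtain ⟨hdet, u, v, C, hC, huv, hP, hQ⟩ := hT.sec a ha256 w hw128 hk
      have hSin : 0 ≤ (px a : ℝ) * y - (py a : ℝ) * x ∧
          0 ≤ x * (py j : ℝ) - y * (px j : ℝ) := by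
        rcases hS with h | h
        · exact absurd h hw0
        · exact h
      obtain ⟨hna1, hna2⟩ := hT.nle a ha256
      obtain ⟨hnj1, hnj2⟩ := hT.nle j hj256
      have hNa := hnle (px a) (py a) 1048576 hna1 hna2
      have hNj := hnle (px j) (py j) 1048576 hnj1 hnj2
      unfold ev2
      simp only [frc_eq]
      unfold ev3
      simp only [frc_eq, Nat.add_eq]
      set A1 : ℕ := dot H (gE a) + sS T with hA1
      set B1 : ℕ := dot T (gE a) + sS H with hB1
      set A2 : ℕ := dot H (gE j) + sS T with hA2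
      set B2 : ℕ := dot T (gE j) + sS H with hB2
      set z1 : ℤ := ((H % 65536 : ℕ) : ℤ) - ((T % 65536 : ℕ) : ℤ) with hz1
      set z2 : ℤ := ((H / 65536 : ℕ) : ℤ) - ((T / 65536 : ℕ) : ℤ) with hz2
      have hM1 : (A1 : ℤ) - B1 = z1 * px a + z2 * py a := by
        rw [hA1, hB1]
        push_cast only [Nat.cast_add]
        rw [evx_dot, evx_dot, evx_sS, evx_sS, hz1, hz2]
        ring
      have hM2 : (A2 : ℤ) - B2 = z1 * px j + z2 * py j := by
        rw [hA2, hB2]
        push_cast only [Nat.cast_add]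
        rw [evx_dot, evx_dot, evx_sS, evx_sS, hz1, hz2]
        ring
      have key : ∀ A B : ℕ, z1 * px a + z2 * py a ≤ (A : ℤ) - B →
          z1 * px j + z2 * py j ≤ (A : ℤ) - B →
          (2 : ℝ) ^ 60 + 2 ^ 36 * ((((H % 65536 : ℕ) : ℝ) - ((T % 65536 : ℕ) : ℝ)) * x +
            (((H / 65536 : ℕ) : ℝ) - ((T / 65536 : ℕ) : ℝ)) * y) ≤ (fin (gK w) A B : ℝ) := by
        intro A B h1 h2
        have h3 := hsec (px a) (py a) (px j) (py j) u v z1 z2 ((A : ℤ) - B) 1048576 (gK w) 65536 C
          (by norm_num) hC (by norm_num) hNa hNj hdet huv hP hQ h1 h2 x y hSin.1 hSin.2 hn1 hn2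
        have h4 := evx_fin (gK w) A B
        refine le_trans ?_ h4
        have h5 : ((65536 : ℕ) : ℝ) * ((1048576 : ℕ) : ℝ) = 2 ^ 36 := by norm_num
        rw [h5] at h3
        have h6 : (z1 : ℝ) = ((H % 65536 : ℕ) : ℝ) - ((T % 65536 : ℕ) : ℝ) := by
          rw [hz1, Int.cast_sub, Int.cast_natCast, Int.cast_natCast]
        have h7 : (z2 : ℝ) = ((H / 65536 : ℕ) : ℝ) - ((T / 65536 : ℕ) : ℝ) := by
          rw [hz2, Int.cast_sub, Int.cast_natCast, Int.cast_natCast]
        rw [h6, h7] at h3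
        have h8 : ((65536 : ℕ) : ℝ) = 65536 := by norm_num
        rw [h8] at h3
        linarith
      by_cases hcmp : A2 + B1 ≤ A1 + B2
      · rw [Nat.ble_eq_true_of_le hcmp, cnd_true]
        apply key
        · omega
        · omega
      · have hb3 : Nat.ble (A2 + B1) (A1 + B2) = false := by
          rw [Bool.eq_false_iff]
          intro h
          exact hcmp (Nat.le_of_ble_eq_true h)
        rw [hb3, cnd_false]
        apply key
        · omega
        · omega

end Pool.Agent.H2.PD
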