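import Pool.Agent.H2.PD.StmChk

set_option autoImplicit false

/-!
Soundness of the leaves of the checker.
-/

namespace Pool.Agent.H2.PD

theorem leafx_sc (s e : ℕ) : sc s e < 65536 := by
  have h : sc s e ≤ 65535 := Nat.and_le_right
  omega

theorem leafx_sl (q v : ℕ) : sl q v < 2 ^ 32 := by
  have h : sl q v ≤ 4294967295 := Nat.and_le_right
  have : (2 : ℕ) ^ 32 = 4294967296 := by norm_num
  omega

theorem lleaf_ok : S_lleaf := by
  intro hev X Y hG s v w hv hw hS hl hv12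
  have hM0 : (2147516416 : ℕ) % 65536 = 32768 := by norm_num
  have hM1 : (2147516416 : ℕ) / 65536 = 32768 := by norm_num
  have hM : (2147516416 : ℕ) < 2 ^ 32 := by norm_num
  have hE : ∀ e < 18, ∀ H T : ℕ, H < 2 ^ 32 → T < 2 ^ 32 →
      (2 : ℝ) ^ 60 + 2 ^ 36 * ((((H % 65536 : ℕ) : ℝ) - ((T % 65536 : ℕ) : ℝ)) * X e +
        (((H / 65536 : ℕ) : ℝ) - ((T / 65536 : ℕ) : ℝ)) * Y e) ≤ (ev (sc s e) H T : ℝ) := by
    intro e he H T hH hT
    obtain ⟨h1, h2⟩ := hG.nm e he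
    exact hev (sc s e) H T (leafx_sc s e) hH hT (X e) (Y e) h1 h2 (hS e he)
  unfold lleaf at hl
  rcases Nat.lt_or_ge v 9 with h9 | h9
  · have hb : Nat.ble v 8 = true := Nat.ble_eq_true_of_le (by omega)
    rw [hb, cnd_true] at hl
    have hl := Nat.le_of_ble_eq_true hl
    have hidx : cnd (Nat.beq v 0) 8 (Nat.sub v 1) = (v + 8) % 9 := by
      interval_cases v <;> rfl
    rw [hidx] at hl
    have e1 := hE v (by omega) 2147516416 w hM hw
    have e2 := hE ((v + 8) % 9) (by omega) w 2147516416 hw hM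
    have e3 := hE (v + 9) (by omega) w 2147516416 hw hM
    have hcx := hG.cx v h9
    have hcy := hG.cy v h9
    rw [hM0, hM1] at e1 e2 e3
    have hl' : (ev (sc s v) 2147516416 w : ℝ) + ((ev (sc s ((v + 8) % 9)) w 2147516416 : ℝ) +
        (ev (sc s (v + 9)) w 2147516416 : ℝ)) + 1 ≤ 3458764513820540928 := by
      exact_mod_cast hl
    generalize (ev (sc s v) 2147516416 w : ℝ) = E1 at *
    generalize (ev (sc s ((v + 8) % 9)) w 2147516416 : ℝ) = E2 at *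
    generalize (ev (sc s (v + 9)) w 2147516416 : ℝ) = E3 at *
    generalize ((w % 65536 : ℕ) : ℝ) = a at *
    generalize ((w / 65536 : ℕ) : ℝ) = b at *
    rw [hcx, hcy] at e1
    push_cast at e1 e2 e3
    nlinarith
  · have hb : Nat.ble v 8 = false := by
      rw [Bool.eq_false_iff]
      intro h
      have := Nat.le_of_ble_eq_true h
      omega
    rw [hb, cnd_false] at hl
    have hl := Nat.le_of_ble_eq_true hl
    obtain ⟨j, rfl⟩ : ∃ j, v = 9 + j := ⟨v - 9, by omega⟩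
    have e1 := hE (9 + j) (by omega) 2147516416 w hM hw
    have e2 := hE (9 + j + 3) (by omega) 2147516416 w hM hw
    have e3 := hE (9 + j + 6) (by omega) 2147516416 w hM hw
    have hhx := hG.hx j (by omega)
    have hhy := hG.hy j (by omega)
    rw [hM0, hM1] at e1 e2 e3
    rw [show 12 + j = 9 + j + 3 by ring, show 15 + j = 9 + j + 6 by ring] at hhx hhy
    have hl' : (ev (sc s (9 + j)) 2147516416 w : ℝ) + ((ev (sc s (9 + j + 3)) 2147516416 w : ℝ) +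
        (ev (sc s (9 + j + 6)) 2147516416 w : ℝ)) + 1 ≤ 3458764513820540928 := by
      exact_mod_cast hl
    generalize (ev (sc s (9 + j)) 2147516416 w : ℝ) = E1 at *
    generalize (ev (sc s (9 + j + 3)) 2147516416 w : ℝ) = E2 at *
    generalize (ev (sc s (9 + j + 6)) 2147516416 w : ℝ) = E3 at *
    generalize ((w % 65536 : ℕ) : ℝ) = a at *
    generalize ((w / 65536 : ℕ) : ℝ) = b at *
    generalize X (9 + j + 3) = X2 at *
    generalize X (9 + j + 6) = X3 at *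
    generalize Y (9 + j + 3) = Y2 at *
    generalize Y (9 + j + 6) = Y3 at *
    have hX3 : X3 = -(X (9 + j)) - X2 := by linarith
    have hY3 : Y3 = -(Y (9 + j)) - Y2 := by linarith
    rw [hX3, hY3] at e3
    push_cast at e1 e2 e3
    nlinarith

theorem leaf_ok : S_leaf := by
  intro hev X Y hG s q hS hl
  have hE : ∀ e < 18, ∀ u v : ℕ,
      (2 : ℝ) ^ 60 + 2 ^ 36 * ((((sl q u % 65536 : ℕ) : ℝ) - ((sl q v % 65536 : ℕ) : ℝ)) * X e +
        (((sl q u / 65536 : ℕ) : ℝ) - ((sl q v / 65536 : ℕ) : ℝ)) * Y e) ≤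
        (ev (sc s e) (sl q u) (sl q v) : ℝ) := by
    intro e he u v
    obtain ⟨h1, h2⟩ := hG.nm e he
    exact hev (sc s e) (sl q u) (sl q v) (leafx_sc s e) (leafx_sl q u) (leafx_sl q v) (X e) (Y e)
      h1 h2 (hS e he)
  unfold leaf at hl
  have hl := Nat.le_of_ble_eq_true hl
  have e0 := hE 0 (by norm_num) 1 0
  have e1 := hE 1 (by norm_num) 2 1
  have e2 := hE 2 (by norm_num) 3 2
  have e3 := hE 3 (by norm_num) 4 3
  have e4 := hE 4 (by norm_num) 5 4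
  have e5 := hE 5 (by norm_num) 6 5
  have e6 := hE 6 (by norm_num) 7 6
  have e7 := hE 7 (by norm_num) 8 7
  have e8 := hE 8 (by norm_num) 0 8
  have e9 := hE 9 (by norm_num) 0 9
  have e10 := hE 10 (by norm_num) 1 10
  have e11 := hE 11 (by norm_num) 2 11
  have e12 := hE 12 (by norm_num) 3 9
  have e13 := hE 13 (by norm_num) 4 10
  have e14 := hE 14 (by norm_num) 5 11
  have e15 := hE 15 (by norm_num) 6 9
  have e16 := hE 16 (by norm_num) 7 10
  have e17 := hE 17 (by norm_num) 8 11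
  have hl' : (ev (sc s 0) (sl q 1) (sl q 0) : ℝ) + (ev (sc s 1) (sl q 2) (sl q 1) : ℝ) +
      (ev (sc s 2) (sl q 3) (sl q 2) : ℝ) + (ev (sc s 3) (sl q 4) (sl q 3) : ℝ) +
      (ev (sc s 4) (sl q 5) (sl q 4) : ℝ) + (ev (sc s 5) (sl q 6) (sl q 5) : ℝ) +
      (ev (sc s 6) (sl q 7) (sl q 6) : ℝ) + (ev (sc s 7) (sl q 8) (sl q 7) : ℝ) +
      (ev (sc s 8) (sl q 0) (sl q 8) : ℝ) + (ev (sc s 9) (sl q 0) (sl q 9) : ℝ) +
      (ev (sc s 10) (sl q 1) (sl q 10) : ℝ) + (ev (sc s 11) (sl q 2) (sl q 11) : ℝ) +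
      (ev (sc s 12) (sl q 3) (sl q 9) : ℝ) + (ev (sc s 13) (sl q 4) (sl q 10) : ℝ) +
      (ev (sc s 14) (sl q 5) (sl q 11) : ℝ) + (ev (sc s 15) (sl q 6) (sl q 9) : ℝ) +
      (ev (sc s 16) (sl q 7) (sl q 10) : ℝ) + (ev (sc s 17) (sl q 8) (sl q 11) : ℝ) + 1 ≤
      20752587082923245568 := by
    have h2 : ((Nat.succ (Nat.add (Nat.add
    (Nat.add (Nat.add (Nat.add (ev (sc s 0) (sl q 1) (sl q 0)) (ev (sc s 1) (sl q 2) (sl q 1)))
      (Nat.add (ev (sc s 2) (sl q 3) (sl q 2)) (ev (sc s 3) (sl q 4) (sl q 3))))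
      (Nat.add (Nat.add (ev (sc s 4) (sl q 5) (sl q 4)) (ev (sc s 5) (sl q 6) (sl q 5)))
      (Nat.add (ev (sc s 6) (sl q 7) (sl q 6)) (ev (sc s 7) (sl q 8) (sl q 7)))))
    (Nat.add (Nat.add (Nat.add (ev (sc s 8) (sl q 0) (sl q 8)) (ev (sc s 9) (sl q 0) (sl q 9)))
      (Nat.add (ev (sc s 10) (sl q 1) (sl q 10)) (ev (sc s 11) (sl q 2) (sl q 11))))
      (Nat.add (Nat.add (ev (sc s 12) (sl q 3) (sl q 9)) (ev (sc s 13) (sl q 4) (sl q 10)))
      (Nat.add (ev (sc s 14) (sl q 5) (sl q 11)) (ev (sc s 15) (sl q 6) (sl q 9))))))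
    (Nat.add (ev (sc s 16) (sl q 7) (sl q 10)) (ev (sc s 17) (sl q 8) (sl q 11)))) : ℕ) : ℝ) ≤
      ((20752587082923245568 : ℕ) : ℝ) := by exact_mod_cast hl
    simp only [Nat.succ_eq_add_one, Nat.add_eq] at h2
    push_cast at h2
    linarith
  have hx : ∀ α : ℕ → ℝ, (α 1 - α 0) * X 0 + (α 2 - α 1) * X 1 + (α 3 - α 2) * X 2 +
      (α 4 - α 3) * X 3 + (α 5 - α 4) * X 4 + (α 6 - α 5) * X 5 + (α 7 - α 6) * X 6 +
      (α 8 - α 7) * X 7 + (α 0 - α 8) * X 8 + (α 0 - α 9) * X 9 + (α 1 - α 10) * X 10 +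
      (α 2 - α 11) * X 11 + (α 3 - α 9) * X 12 + (α 4 - α 10) * X 13 + (α 5 - α 11) * X 14 +
      (α 6 - α 9) * X 15 + (α 7 - α 10) * X 16 + (α 8 - α 11) * X 17 = 0 := by
    intro α
    have c0 := hG.cx 0 (by norm_num)
    have c1 := hG.cx 1 (by norm_num)
    have c2 := hG.cx 2 (by norm_num)
    have c3 := hG.cx 3 (by norm_num)
    have c4 := hG.cx 4 (by norm_num)
    have c5 := hG.cx 5 (by norm_num)
    have c6 := hG.cx 6 (by norm_num)
    have c7 := hG.cx 7 (by norm_num)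
    have c8 := hG.cx 8 (by norm_num)
    have d0 := hG.hx 0 (by norm_num)
    have d1 := hG.hx 1 (by norm_num)
    have d2 := hG.hx 2 (by norm_num)
    norm_num at c0 c1 c2 c3 c4 c5 c6 c7 c8 d0 d1 d2
    linear_combination (-(α 0)) * c0 - α 1 * c1 - α 2 * c2 - α 3 * c3 - α 4 * c4 - α 5 * c5 -
      α 6 * c6 - α 7 * c7 - α 8 * c8 - α 9 * d0 - α 10 * d1 - α 11 * d2
  have hy : ∀ α : ℕ → ℝ, (α 1 - α 0) * Y 0 + (α 2 - α 1) * Y 1 + (α 3 - α 2) * Y 2 +
      (α 4 - α 3) * Y 3 + (α 5 - α 4) * Y 4 + (α 6 - α 5) * Y 5 + (α 7 - α 6) * Y 6 +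
      (α 8 - α 7) * Y 7 + (α 0 - α 8) * Y 8 + (α 0 - α 9) * Y 9 + (α 1 - α 10) * Y 10 +
      (α 2 - α 11) * Y 11 + (α 3 - α 9) * Y 12 + (α 4 - α 10) * Y 13 + (α 5 - α 11) * Y 14 +
      (α 6 - α 9) * Y 15 + (α 7 - α 10) * Y 16 + (α 8 - α 11) * Y 17 = 0 := by
    intro α
    have c0 := hG.cy 0 (by norm_num)
    have c1 := hG.cy 1 (by norm_num)
    have c2 := hG.cy 2 (by norm_num)
    have c3 := hG.cy 3 (by norm_num)
    have c4 := hG.cy 4 (by norm_num)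
    have c5 := hG.cy 5 (by norm_num)
    have c6 := hG.cy 6 (by norm_num)
    have c7 := hG.cy 7 (by norm_num)
    have c8 := hG.cy 8 (by norm_num)
    have d0 := hG.hy 0 (by norm_num)
    have d1 := hG.hy 1 (by norm_num)
    have d2 := hG.hy 2 (by norm_num)
    norm_num at c0 c1 c2 c3 c4 c5 c6 c7 c8 d0 d1 d2
    linear_combination (-(α 0)) * c0 - α 1 * c1 - α 2 * c2 - α 3 * c3 - α 4 * c4 - α 5 * c5 -
      α 6 * c6 - α 7 * c7 - α 8 * c8 - α 9 * d0 - α 10 * d1 - α 11 * d2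
  have hx' := hx (fun v => ((sl q v % 65536 : ℕ) : ℝ))
  have hy' := hy (fun v => ((sl q v / 65536 : ℕ) : ℝ))
  linarith

end Pool.Agent.H2.PD
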