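import Pool.Agent.H2.PD.Stm

namespace Pool.Agent.H878.PD

open Pool.Agent.H2.PD

theorem tri : S_tri := by
  refine ⟨?_, ?_, ?_, ?_⟩
  · intro x y x' y'
    have h := Real.Lp_add_le (Finset.univ : Finset (Fin 2)) ![x, y] ![x', y']
      (p := (5 / 2 : ℝ)) (by norm_num)
    simp only [Fin.sum_univ_two, Matrix.cons_val_zero, Matrix.cons_val_one] at h
    have e : (1 / (5 / 2 : ℝ)) = 2 / 5 := by norm_num
    rw [e] at h
    exact h
  · intro c x y
    unfold N
    rw [abs_mul, abs_mul, Real.mul_rpow (abs_nonneg _) (abs_nonneg _),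
      Real.mul_rpow (abs_nonneg _) (abs_nonneg _), ← mul_add,
      Real.mul_rpow (Real.rpow_nonneg (abs_nonneg _) _)
        (add_nonneg (Real.rpow_nonneg (abs_nonneg _) _) (Real.rpow_nonneg (abs_nonneg _) _)),
      ← Real.rpow_mul (abs_nonneg c)]
    have e : (5 / 2 * (2 / 5) : ℝ) = 1 := by norm_num
    rw [e, Real.rpow_one]
  · intro x y
    exact Real.rpow_nonneg
      (add_nonneg (Real.rpow_nonneg (abs_nonneg _) _) (Real.rpow_nonneg (abs_nonneg _) _)) _
  · unfold N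
    rw [abs_zero, Real.zero_rpow (by norm_num), add_zero, Real.zero_rpow (by norm_num)]

theorem sec (h1 : S_hold) (h2 : S_tri) : S_sec := by
  intro a1 a2 b1 b2 u v z1 z2 M S K D C hS hC hD hNa hNb hdet huv hP hQ hzP hzQ x y hb ha hN1 hN2
  have hdet' : (0 : ℝ) < a1 * b2 - a2 * b1 := by exact_mod_cast hdet
  set dt : ℝ := a1 * b2 - a2 * b1 with hdt
  set α : ℝ := (x * b2 - y * b1) / dt with hα
  set β : ℝ := (a1 * y - a2 * x) / dt with hβ
  have hα0 : 0 ≤ α := div_nonneg ha hdet'.le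
  have hβ0 : 0 ≤ β := div_nonneg hb hdet'.le
  have hx : x = α * a1 + β * b1 := by
    rw [hα, hβ]; field_simp; rw [hdt]; ring
  have hy : y = α * a2 + β * b2 := by
    rw [hα, hβ]; field_simp; rw [hdt]; ring
  have hS' : (0 : ℝ) < S := by exact_mod_cast hS
  have hC' : (0 : ℝ) < C := by exact_mod_cast hC
  have hD' : (0 : ℝ) < D := by exact_mod_cast hD
  have hK' : (0 : ℝ) ≤ K := Nat.cast_nonneg K
  -- `1 ≤ (α + β) S`
  have hsum : 1 ≤ (α + β) * S := by
    have e1 : N x y ≤ N (α * a1) (α * a2) + N (β * b1) (β * b2) := by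
      have := h2.1 (α * a1) (α * a2) (β * b1) (β * b2)
      rwa [← hx, ← hy] at this
    rw [h2.2.1, h2.2.1, abs_of_nonneg hα0, abs_of_nonneg hβ0] at e1
    have e2 : α * N a1 a2 ≤ α * S := mul_le_mul_of_nonneg_left hNa hα0
    have e3 : β * N b1 b2 ≤ β * S := mul_le_mul_of_nonneg_left hNb hβ0
    linarith
  have hh := h1 u v C huv x y
  have hP' : (13161 : ℝ) * (S * C * D) ≤ 10000 * (K * ((u : ℝ) ^ 3 * a1 + (v : ℝ) ^ 3 * a2)) := by
    exact_mod_cast hP
  have hQ' : (13161 : ℝ) * (S * C * D) ≤ 10000 * (K * ((u : ℝ) ^ 3 * b1 + (v : ℝ) ^ 3 * b2)) := by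
    exact_mod_cast hQ
  have hzP' : (z1 : ℝ) * a1 + z2 * a2 ≤ M := by exact_mod_cast hzP
  have hzQ' : (z1 : ℝ) * b1 + z2 * b2 ≤ M := by exact_mod_cast hzQ
  -- `(α + β) D S ≤ K`
  have hK : (α + β) * (D * S) ≤ K := by
    have e1 : (u : ℝ) ^ 3 * x + (v : ℝ) ^ 3 * y ≤ C * (13161 / 10000) :=
      hh.trans (mul_le_mul_of_nonneg_left hN2 hC'.le)
    have e2 : (K : ℝ) * ((u : ℝ) ^ 3 * x + (v : ℝ) ^ 3 * y) ≤ K * (C * (13161 / 10000)) :=
      mul_le_mul_of_nonneg_left e1 hK'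
    have e3 := mul_le_mul_of_nonneg_left hP' hα0
    have e4 := mul_le_mul_of_nonneg_left hQ' hβ0
    have e5 : 10000 * ((K : ℝ) * ((u : ℝ) ^ 3 * x + (v : ℝ) ^ 3 * y)) =
        α * (10000 * (K * ((u : ℝ) ^ 3 * a1 + (v : ℝ) ^ 3 * a2))) +
          β * (10000 * (K * ((u : ℝ) ^ 3 * b1 + (v : ℝ) ^ 3 * b2))) := by
      rw [hx, hy]; ring
    have e6 : 13161 * C * ((α + β) * (D * S)) ≤ 13161 * C * K := by
      have : 13161 * C * ((α + β) * (D * S)) =
        α * (13161 * (S * C * D)) + β * (13161 * (S * C * D)) := by ring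
      rw [this]
      nlinarith [e2, e3, e4, e5]
    exact le_of_mul_le_mul_left e6 (by positivity)
  have hz : (z1 : ℝ) * x + z2 * y ≤ (α + β) * M := by
    have e1 := mul_le_mul_of_nonneg_left hzP' hα0
    have e2 := mul_le_mul_of_nonneg_left hzQ' hβ0
    have : (z1 : ℝ) * x + z2 * y = α * (z1 * a1 + z2 * a2) + β * (z1 * b1 + z2 * b2) := by
      rw [hx, hy]; ring
    rw [this]; linarith
  have hz2 : (D : ℝ) * S * (z1 * x + z2 * y) ≤ D * S * ((α + β) * M) :=
    mul_le_mul_of_nonneg_left hz (by positivity)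
  split_ifs with hM
  · have hM' : (0 : ℝ) ≤ M := by exact_mod_cast hM
    have := mul_le_mul_of_nonneg_right hK hM'
    nlinarith [this, hz2]
  · have hM' : (M : ℝ) ≤ 0 := by
      have : M < 0 := not_le.1 hM
      exact_mod_cast this.le
    have e1 : ((α + β) * S) * M ≤ 1 * M := mul_le_mul_of_nonpos_right hsum hM'
    have e2 := mul_le_mul_of_nonneg_left e1 hD'.le
    nlinarith [e2, hz2]

end Pool.Agent.H878.PD
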