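import Pool.Agent.H283.HT.Stm

/-!
# Project HT, task ARC3: three good arcs
-/

set_option autoImplicit false

namespace Pool.Agent.H878.HTARC3

open Pool.Agent.H283.HT

theorem good_mono {K : Set P3} {q : ℝ → P2} {a b a' b' : ℝ} (h : Good K q a b) (ha : a ≤ a')
    (hb : b' ≤ b) : Good K q a' b' := by
  obtain ⟨d, hd⟩ := h
  exact ⟨d, fun θ h1 h2 => hd θ (ha.trans h1) (h2.trans hb)⟩

theorem dt_neg_left (u v : P2) : dt (-u) v = - dt u v := by
  simp only [dt, Prod.fst_neg, Prod.snd_neg]
  ring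

theorem dt_neg_right (u v : P2) : dt u (-v) = - dt u v := by
  simp only [dt, Prod.fst_neg, Prod.snd_neg]
  ring

theorem dt_comb (u v w : P2) (α γ : ℝ) : dt u (α • v + γ • w) = α * dt u v + γ * dt u w := by
  simp only [dt, Prod.fst_add, Prod.snd_add, Prod.smul_fst, Prod.smul_snd, smul_eq_mul]
  ring

theorem hb_neg {Q : Set P2} {q : ℝ → P2} (hQ : Disc Q) (hq : Par Q q) {c a' : ℝ}
    (h : HB Q q c (a' + Real.pi)) :
    ∃ μ : P2, μ ≠ 0 ∧ (∀ p ∈ Q, dt μ p ≤ dt μ (q a')) ∧ dt μ (q c) = dt μ (q a') := by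
  obtain ⟨ν, hν, h1, h2⟩ := h
  rw [hq.anti, dt_neg_right] at h1 h2
  refine ⟨-ν, neg_ne_zero.2 hν, fun p hp => ?_, ?_⟩
  · have := h1 (-p) (hQ.sym p hp)
    rw [dt_neg_right] at this
    rw [dt_neg_left, dt_neg_left]
    exact this
  · rw [dt_neg_left, dt_neg_left, h2]
    ring

theorem ARC3_done (hDI : S_DI) (hPOS : S_POS) (hFACE : S_FACE) (hOPEN : S_OPEN) (hFIB : S_FIB)
    (hCERT : S_CERT) (hH1 : S_H1) (hH2 : S_H2) (hZ : S_Z) (hSUP : S_SUP) (hFAR : S_FAR) :
    S_ARC3 := by
  intro K q hK hQ hq hlow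
  have hpi := Real.pi_pos
  obtain ⟨-, -, -, hDI4⟩ := hDI (Sh K) hQ
  obtain ⟨hp1, -, -, -, -, -⟩ := hPOS (Sh K) q hQ hq
  have hface := hFACE (Sh K) q hQ hq
  -- positivity of the maximum
  have hmax : ∀ (ν : P2) (t : ℝ), ν ≠ 0 → (∀ p ∈ Sh K, dt ν p ≤ dt ν (q t)) →
      0 < dt ν (q t) := by
    intro ν t hν h
    obtain ⟨x, hx, hx2⟩ := hDI4 ν hν
    exact hx2.trans_le (h x hx)
  obtain ⟨a, hfar⟩ := hFAR (Sh K) q hQ hq
  rcases hSUP K q hK hQ hq hlow a (a + Real.pi) (by linarith) with hg | ⟨b, hab, hb, hg, hng⟩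
  · obtain ⟨ε, hε, hgε⟩ := hOPEN K q hK hq (a + Real.pi) (a + Real.pi) le_rfl
      (hFIB K q hK hQ hq hlow (a + Real.pi))
    have ht1 : a ≤ max a (a + Real.pi - ε / 2) := le_max_left _ _
    have ht2 : a + Real.pi - ε / 2 ≤ max a (a + Real.pi - ε / 2) := le_max_right _ _
    have ht3 : max a (a + Real.pi - ε / 2) < a + Real.pi := max_lt (by linarith) (by linarith)
    refine ⟨a, max a (a + Real.pi - ε / 2), max a (a + Real.pi - ε / 2), ht1, le_rfl, ht3.le,
      hg _ ht1 ht3, hFIB K q hK hQ hq hlow _, good_mono hgε (by linarith) (by linarith)⟩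
  · obtain ⟨k, θ, x, n, hcert⟩ := hCERT K q hK hq a b hab.le hng
    by_cases hNH : NH n
    · -- case 2a
      refine hZ K q hK hQ hq hlow a b k θ x n hab hb hg hcert hNH
        ⟨(a + Real.pi - b) / 2, by linarith, fun a' c h1 h2 h3 h4 hHB => ?_⟩
      obtain ⟨μ, hμ, hμ1, hμ2⟩ := hb_neg hQ hq hHB
      obtain ⟨-, α, γ, hα, hγ, hαγ, hcomb⟩ := hface a' a c μ h2 (by linarith) (by linarith) hμ
        hμ1 hμ2
      have he := hfar α γ (q a') (q c) hα hγ hαγ (hq.mem a') (hq.mem c) hcomb
      have hd := hp1 a' c (by linarith) (by linarith)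
      rw [he] at hd
      simp only [det] at hd
      nlinarith
    · -- case 2b
      obtain ⟨ν, hν, hν1, hν2⟩ := hH2 K q hK hQ hq a b k θ x n hab.le hb hcert hNH
      have hM : 0 < dt ν (q b) := hmax ν b hν hν1
      have hν3 : dt ν (q (a + Real.pi)) = dt ν (q b) := by
        rw [hq.anti, dt_neg_right, hν2]
        ring
      rcases hSUP K q hK hQ hq hlow b (a + Real.pi) hb with hg2 | ⟨b₂, hbb, hb₂, hg2, hng2⟩
      · -- case 2b1
        obtain ⟨ε, hε, hgε⟩ := hOPEN K q hK hq (a + Real.pi) (a + Real.pi) le_rfl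
          (hFIB K q hK hQ hq hlow (a + Real.pi))
        have ht1 : b ≤ max b (a + Real.pi - ε / 2) := le_max_left _ _
        have ht2 : a + Real.pi - ε / 2 ≤ max b (a + Real.pi - ε / 2) := le_max_right _ _
        have ht3 : max b (a + Real.pi - ε / 2) < a + Real.pi := max_lt hb (by linarith)
        set t := max b (a + Real.pi - ε / 2)
        obtain ⟨ε', hε', hgε'⟩ := hOPEN K q hK hq b t ht1 (hg2 t ht1 ht3)
        have hs1 : a ≤ max a (b - ε' / 2) := le_max_left _ _
        have hs2 : b - ε' / 2 ≤ max a (b - ε' / 2) := le_max_right _ _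
        have hs3 : max a (b - ε' / 2) < b := max_lt hab (by linarith)
        refine ⟨a, max a (b - ε' / 2), t, hs1, by linarith, ht3.le, hg _ hs1 hs3,
          good_mono hgε' (by linarith) (by linarith), good_mono hgε (by linarith) (by linarith)⟩
      · -- case 2b2
        obtain ⟨k', θ', x', n', hcert'⟩ := hCERT K q hK hq b b₂ hbb.le hng2
        obtain ⟨hf1, α, γ, hα, hγ, hαγ, hcomb⟩ := hface b b₂ (a + Real.pi) ν hbb hb₂
          (by linarith) hν hν1 hν3
        have hNH' : NH n' := by
          by_contra hc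
          obtain ⟨μ, hμ, hμ1, hμ2⟩ := hH2 K q hK hQ hq b b₂ k' θ' x' n' hbb.le (by linarith)
            hcert' hc
          have hm : 0 < dt μ (q b₂) := hmax μ b₂ hμ hμ1
          have h1 : dt μ (q b₂) = α * dt μ (q b) + γ * dt μ (q (a + Real.pi)) := by
            conv_lhs => rw [hcomb]
            exact dt_comb _ _ _ _ _
          rw [hμ2] at h1
          have h2 : γ * dt μ (q (a + Real.pi)) ≤ γ * dt μ (q b₂) :=
            mul_le_mul_of_nonneg_left (hμ1 _ (hq.mem _)) hγ.le
          have h3 : γ = 1 - α := by linarith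
          have h4 : 0 < α * dt μ (q b₂) := mul_pos hα hm
          rw [h3] at h2 h1
          nlinarith
        refine hZ K q hK hQ hq hlow b b₂ k' θ' x' n' hbb (by linarith) hg2 hcert' hNH'
          ⟨min (b - a) (a + Real.pi - b₂), lt_min (by linarith) (by linarith),
            fun b' c h1 h2 h3 h4 hHB => ?_⟩
        have h5 : min (b - a) (a + Real.pi - b₂) ≤ b - a := min_le_left _ _
        have h6 : min (b - a) (a + Real.pi - b₂) ≤ a + Real.pi - b₂ := min_le_right _ _
        have h7 : a < b' := by linarith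
        have h8 : c < a + Real.pi := by linarith
        obtain ⟨μ, hμ, hμ1, hμ2⟩ := hb_neg hQ hq hHB
        have hm : 0 < dt μ (q b') := hmax μ b' hμ hμ1
        have hfb := (hface b' b c μ h2 (by linarith) (by linarith) hμ hμ1 hμ2).1
        have hfb₂ := (hface b' b₂ c μ (by linarith) h3 (by linarith) hμ hμ1 hμ2).1
        have hdet := hp1 b b₂ hbb (by linarith)
        -- coordinates of `q b'` in the basis `q b, q b₂`
        have hco : ∀ u : P2, det (q b) (q b₂) * dt u (q b') =
            det (q b') (q b₂) * dt u (q b) + det (q b) (q b') * dt u (q b₂) := by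
          intro u
          simp only [det, dt]
          ring
        have hcν := hco ν
        have hcμ := hco μ
        rw [hf1] at hcν
        rw [hfb, hfb₂] at hcμ
        have h9 : det (q b) (q b₂) = det (q b') (q b₂) + det (q b) (q b') := by
          have : (det (q b) (q b₂) - (det (q b') (q b₂) + det (q b) (q b'))) * dt μ (q b') = 0 := by
            linarith
          rcases mul_eq_zero.1 this with h | h
          · linarith
          · exact absurd h hm.ne'
        have h10 : dt ν (q b') = dt ν (q b) := by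
          have : det (q b) (q b₂) * (dt ν (q b') - dt ν (q b)) = 0 := by
            rw [mul_sub, hcν, h9]
            ring
          rcases mul_eq_zero.1 this with h | h
          · exact absurd h hdet.ne'
          · linarith
        have hHB' : HB (Sh K) q a b' := by
          refine ⟨ν, hν, ?_, ?_⟩
          · rw [h10]; exact hν1
          · rw [h10]; exact hν2
        exact hH1 K q hK hQ hq a b' h7.le hHB' (hg b' h7.le h2)

end Pool.Agent.H878.HTARC3
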