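import Pool.Agent.H283.HT.Stm

/-!
# Project HT, task Q: two disjoint arcs of a half circle cannot both have non-horizontal certificates
-/

set_option autoImplicit false

namespace Pool.Agent.H878.HTQ

open Pool.Agent.H283.HT

theorem split3 {k : ℕ} (τ g : Fin k → ℝ) :
    ∑ i, g i = ∑ i with 0 < τ i, g i + ∑ i with τ i < 0, g i + ∑ i with τ i = 0, g i := by
  rw [Finset.sum_filter, Finset.sum_filter, Finset.sum_filter, ← Finset.sum_add_distrib,
    ← Finset.sum_add_distrib]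
  refine Finset.sum_congr rfl fun i _ => ?_
  rcases lt_trichotomy (τ i) 0 with h | h | h
  · simp [h, h.not_gt, h.ne]
  · simp [h]
  · simp [h, h.not_gt, h.ne']

theorem massPos {k : ℕ} (τ : Fin k → ℝ) (hτ : ∑ i, τ i = 0) (hne : ∃ i, τ i ≠ 0) :
    (0 < ∑ i with 0 < τ i, τ i) ∧ ∑ i with τ i < 0, (-τ i) = ∑ i with 0 < τ i, τ i ∧
      (Finset.univ.filter fun i => τ i < 0).Nonempty := by
  have h0 : ∑ i with τ i = 0, τ i = 0 :=
    Finset.sum_eq_zero fun i hi => (Finset.mem_filter.1 hi).2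
  have hs := split3 τ τ
  rw [hτ, h0, add_zero] at hs
  have hU0 : 0 ≤ ∑ i with 0 < τ i, τ i :=
    Finset.sum_nonneg fun i hi => (Finset.mem_filter.1 hi).2.le
  have hneg : ∑ i with τ i < 0, (-τ i) = ∑ i with 0 < τ i, τ i := by
    rw [Finset.sum_neg_distrib]
    linarith
  have hpos : 0 < ∑ i with 0 < τ i, τ i := by
    obtain ⟨i, hi⟩ := hne
    rcases lt_or_gt_of_ne hi with h | h
    · rw [← hneg]
      apply Finset.sum_pos
      · intro j hj
        have := (Finset.mem_filter.1 hj).2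
        linarith
      · exact ⟨i, Finset.mem_filter.2 ⟨Finset.mem_univ _, h⟩⟩
    · apply Finset.sum_pos
      · intro j hj
        exact (Finset.mem_filter.1 hj).2
      · exact ⟨i, Finset.mem_filter.2 ⟨Finset.mem_univ _, h⟩⟩
  refine ⟨hpos, hneg, ?_⟩
  by_contra hc
  rw [Finset.not_nonempty_iff_eq_empty] at hc
  rw [hc, Finset.sum_empty] at hneg
  linarith

theorem dbl {ι κ : Type*} (S : Finset ι) (T : Finset κ) (τ E : ι → ℝ) (τ' E' : κ → ℝ) :
    ∑ i ∈ S, ∑ j ∈ T, (τ' j * E i + τ i * E' j) =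
      (∑ j ∈ T, τ' j) * (∑ i ∈ S, E i) + (∑ i ∈ S, τ i) * (∑ j ∈ T, E' j) := by
  rw [Finset.sum_mul_sum, Finset.sum_mul_sum, Finset.sum_comm (s := T), ← Finset.sum_add_distrib]
  refine Finset.sum_congr rfl fun i _ => ?_
  rw [← Finset.sum_add_distrib]

theorem finite_sums {k k' : ℕ} (τ E : Fin k → ℝ) (τ' E' : Fin k' → ℝ)
    (hτ : ∑ i, τ i = 0) (hE : ∑ i, E i = 0) (hne : ∃ i, τ i ≠ 0)
    (hτ' : ∑ i, τ' i = 0) (hE' : ∑ i, E' i = 0) (hne' : ∃ i, τ' i ≠ 0)
    (hH : ∀ i, τ i = 0 → 0 ≤ E i) (hH' : ∀ j, τ' j = 0 → 0 ≤ E' j)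
    (hUU : ∀ i j, 0 < τ i → 0 < τ' j → 0 ≤ τ' j * E i + τ i * E' j)
    (hDD : ∀ i j, τ i < 0 → τ' j < 0 → 0 < -τ' j * E i + -τ i * E' j) : False := by
  obtain ⟨hA, hA2, hD⟩ := massPos τ hτ hne
  obtain ⟨hA', hA2', hD'⟩ := massPos τ' hτ' hne'
  have hs := split3 τ E
  have hs' := split3 τ' E'
  have h0 : 0 ≤ ∑ i with τ i = 0, E i :=
    Finset.sum_nonneg fun i hi => hH i (Finset.mem_filter.1 hi).2
  have h0' : 0 ≤ ∑ i with τ' i = 0, E' i :=
    Finset.sum_nonneg fun i hi => hH' i (Finset.mem_filter.1 hi).2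
  have hU : 0 ≤ ∑ i with 0 < τ i, ∑ j with 0 < τ' j, (τ' j * E i + τ i * E' j) :=
    Finset.sum_nonneg fun i hi => Finset.sum_nonneg fun j hj =>
      hUU i j (Finset.mem_filter.1 hi).2 (Finset.mem_filter.1 hj).2
  have hDs : 0 < ∑ i with τ i < 0, ∑ j with τ' j < 0, (-τ' j * E i + -τ i * E' j) :=
    Finset.sum_pos (fun i hi => Finset.sum_pos (fun j hj =>
      hDD i j (Finset.mem_filter.1 hi).2 (Finset.mem_filter.1 hj).2) hD') hD
  rw [dbl] at hU
  rw [dbl (τ := fun i => -τ i) (τ' := fun j => -τ' j)] at hDs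
  rw [hA2, hA2'] at hDs
  set A := ∑ i with 0 < τ i, τ i
  set A' := ∑ i with 0 < τ' i, τ' i
  set EU := ∑ i with 0 < τ i, E i
  set ED := ∑ i with τ i < 0, E i
  set EH := ∑ i with τ i = 0, E i
  set EU' := ∑ i with 0 < τ' i, E' i
  set ED' := ∑ i with τ' i < 0, E' i
  set EH' := ∑ i with τ' i = 0, E' i
  have h1 : 0 ≤ A' * EH := mul_nonneg hA'.le h0
  have h2 : 0 ≤ A * EH' := mul_nonneg hA.le h0'
  have h3 : EU + ED + EH = 0 := by rw [← hs, hE]
  have h4 : EU' + ED' + EH' = 0 := by rw [← hs', hE']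
  nlinarith

theorem Q_done (hPOS : S_POS) (hSTRICT : S_STRICT) (hL1 : S_L1) (hL2 : S_L2) : S_Q := by
  intro K q hK hQ hq hlow a b c d k k' θ x n θ' x' n' hab hbc hcd hda hC hNH hC' hNH'
  obtain ⟨hp1, -, -, -, hp5, -⟩ := hPOS (Sh K) q hQ hq
  have hP : 0 < det (q a) (q b) := hp1 a b hab (by linarith)
  have hP' : 0 < det (q c) (q d) := hp1 c d hcd (by linarith)
  have hpi := Real.pi_pos
  -- sums
  have hsum1 : ∀ {m : ℕ} (f : Fin m → P3) (w : P2), ∑ i, f i = 0 → ∑ i, dt (f i).1 w = 0 := by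
    intro m f w hf
    have h1 : ∑ i, dt (f i).1 w = (∑ i, f i).1.1 * w.1 + (∑ i, f i).1.2 * w.2 := by
      simp only [dt, Prod.fst_sum, Prod.snd_sum, Finset.sum_mul, Finset.sum_add_distrib]
    rw [h1, hf]
    simp
  have hsum2 : ∀ {m : ℕ} (f : Fin m → P3), ∑ i, f i = 0 → ∑ i, (f i).2 = 0 := by
    intro m f hf
    have h1 : ∑ i, (f i).2 = (∑ i, f i).2 := by
      simp only [Prod.snd_sum]
    rw [h1, hf]
    simp
  -- horizontal normals
  have hhor : ∀ (y m : P3) (t : ℝ), y ∈ K → y.1 = q t → m ∈ NK K y → m.2 = 0 →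
      ∀ p ∈ Sh K, dt m.1 p ≤ dt m.1 (q t) := by
    intro y m t hy hyt hm hm2 p hp
    obtain ⟨z, hz, rfl⟩ := hp
    have h1 := hm z hz
    simp only [ip, hm2, zero_mul, add_zero, hyt] at h1
    exact h1
  -- normals pointing down
  have hdown : ∀ (y m : P3) (t : ℝ), y ∈ K → y.1 = q t → m ∈ NK K y → m.2 < 0 →
      0 < dt m.1 (q t) := by
    intro y m t hy hyt hm hm2
    have h1 := hm _ hK.bot
    have hz : -1 < y.2 := hlow y hy (by rw [hyt]; exact hp5 t)
    simp only [ip, hyt, dt] at h1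
    simp only [dt]
    simp at h1
    nlinarith
  refine finite_sums (fun i => (n i).2) (fun i => dt (n i).1 (q a + q b) * det (q c) (q d))
    (fun j => (n' j).2) (fun j => dt (n' j).1 (q c + q d) * det (q a) (q b))
    (hsum2 n hC.sum) ?_ hNH (hsum2 n' hC'.sum) ?_ hNH' ?_ ?_ ?_ ?_
  · rw [← Finset.sum_mul, hsum1 n _ hC.sum, zero_mul]
  · rw [← Finset.sum_mul, hsum1 n' _ hC'.sum, zero_mul]
  · intro i hi
    exact mul_nonneg (hL2 (Sh K) q hQ hq a b (θ i) (n i).1 hab (by linarith) (hC.left i)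
      (hC.right i) (hhor (x i) (n i) (θ i) (hC.mem i) (hC.above i) (hC.normal i) hi)).1 hP'.le
  · intro j hj
    exact mul_nonneg (hL2 (Sh K) q hQ hq c d (θ' j) (n' j).1 hcd (by linarith) (hC'.left j)
      (hC'.right j) (hhor (x' j) (n' j) (θ' j) (hC'.mem j) (hC'.above j) (hC'.normal j) hj)).1
      hP.le
  · intro i j hi hj
    have hl := hC.left i
    have hr := hC.right i
    have hl' := hC'.left j
    have hr' := hC'.right j
    have h := (hL1 K q hK hQ hq a b c d (θ i) (θ' j) (x i) (x' j) (n i) (n' j) hab hbc.le hcd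
      hda.le hl hr hl' hr' (by linarith) (by linarith) (hC.mem i) (hC.above i) (hC.normal i)
      (hC'.mem j) (hC'.above j) (hC'.normal j) (mul_pos hi hj)).1
    rw [abs_of_pos hi, abs_of_pos hj] at h
    linarith
  · intro i j hi hj
    have hl := hC.left i
    have hr := hC.right i
    have hl' := hC'.left j
    have hr' := hC'.right j
    have h := (hL1 K q hK hQ hq a b c d (θ i) (θ' j) (x i) (x' j) (n i) (n' j) hab hbc.le hcd
      hda.le hl hr hl' hr' (by linarith) (by linarith) (hC.mem i) (hC.above i) (hC.normal i)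
      (hC'.mem j) (hC'.above j) (hC'.normal j) (mul_pos_of_neg_of_neg hi hj)).2
    rw [abs_of_neg hi, abs_of_neg hj] at h
    have h2 := h (by
      rcases hSTRICT (Sh K) q hQ hq a b c d (θ i) (θ' j) hab hbc hcd hda hl hr hl' hr' with
        h3 | h3
      · exact Or.inl ⟨hdown (x i) (n i) (θ i) (hC.mem i) (hC.above i) (hC.normal i) hi, h3⟩
      · exact Or.inr ⟨hdown (x' j) (n' j) (θ' j) (hC'.mem j) (hC'.above j) (hC'.normal j) hj,
          h3⟩)
    linarith

end Pool.Agent.H878.HTQ
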