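import Mathlib
import Pool.Agent.H819.DR.DeRham
import Pool.Agent.H819.LG.Fin

/-!
# Closed two-forms with integrable coefficients are cohomologous to smooth forms
(statement of helper819_DR_Main.lean, derived from `weak_deRham` of `H819/DR/DeRham.lean`)
-/

set_option autoImplicit false

open Set Filter Topology MeasureTheory Metric
open scoped Manifold ContDiff ENNReal NNReal

noncomputable section

namespace Pool.Agent.H878.DRm

open Pool.Agent.Y501.SY
open Pool.Agent.H819

variable {d : ℕ}

variable {X : Type} [TopologicalSpace X] [ChartedSpace (E d) X] [IsManifold (𝓡 d) ∞ X]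

/-- `θ` is locally integrable and closed in the sense of distributions, in all charts -/
structure ClosedL (θ : Form d X 2) : Prop where
  int : ∀ x₀ : X, LocallyIntegrableOn (pb (chartAt (E d) x₀).symm θ) (chartAt (E d) x₀).target
  closed : ∀ x₀ : X, LN.WeakClosed (chartAt (E d) x₀).target (pb (chartAt (E d) x₀).symm θ)

/-- **A closed two-form with integrable coefficients on a closed manifold represents the class of a
smooth closed form.** -/
theorem derham [T2Space X] [CompactSpace X] {θ : Form d X 2} (h : ClosedL θ) :
    ∃ σ₀ : Form d X 2, IsSmooth σ₀ ∧ IsClosedForm σ₀ ∧ LG.Represents σ₀ θ := by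
  obtain ⟨w, α, h1, h2, h3⟩ := DR.weak_deRham ⟨h.int, h.closed⟩
  exact ⟨w, h1, h2, α, h3⟩

end Pool.Agent.H878.DRm
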