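import Mathlib

set_option autoImplicit false

open MvPolynomial TrivSqZeroExt

namespace Pool.Agent.H878.HC

abbrev DD : Type := DualNumber ℂ

theorem homog_smul {σ : Type} {R : Type} [CommRing R] [Algebra ℂ R] {F : MvPolynomial σ ℂ} {d : ℕ}
    (hF : F.IsHomogeneous d) (t : R) (z : σ → R) :
    aeval (fun i => t * z i) F = t ^ d * aeval z F := by
  rw [aeval_def, aeval_def, eval₂_eq, eval₂_eq, Finset.mul_sum]
  apply Finset.sum_congr rfl
  intro s hs
  have h := hF.degree_eq_sum_deg_support hs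
  simp only [mul_pow, Finset.prod_mul_distrib, Finset.prod_pow_eq_pow_sum]
  rw [h]
  ring

theorem aeval_congr_dvd {σ : Type} {R : Type} [CommRing R] [Algebra ℂ R] (F : MvPolynomial σ ℂ)
    (t : R) (f g : σ → R) (h : ∀ i, t ∣ f i - g i) : t ∣ aeval f F - aeval g F := by
  rw [← Ideal.mem_span_singleton, ← Ideal.Quotient.eq, map_aeval, map_aeval]
  congr 2
  funext i
  rw [Ideal.Quotient.eq, Ideal.mem_span_singleton]
  exact h i

/-- evaluation at three elements -/
noncomputable def ev {R : Type} [CommRing R] [Algebra ℂ R] (F : MvPolynomial (Fin 3) ℂ)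
    (p q r : R) : R := aeval ![p, q, r] F

theorem ev_congr {R : Type} [CommRing R] [Algebra ℂ R] (F : MvPolynomial (Fin 3) ℂ)
    (t p q r p' q' r' : R) (h1 : t ∣ p - p') (h2 : t ∣ q - q') (h3 : t ∣ r - r') :
    ∃ g, ev F p q r = ev F p' q' r' + t * g := by
  obtain ⟨g, hg⟩ := aeval_congr_dvd F t ![p, q, r] ![p', q', r'] (by
    intro i
    fin_cases i <;> simpa)
  refine ⟨g, ?_⟩
  unfold ev
  rw [← hg]
  ring

theorem ev_smul {R : Type} [CommRing R] [Algebra ℂ R] {F : MvPolynomial (Fin 3) ℂ} {d : ℕ}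
    (hF : F.IsHomogeneous d) (t p q r : R) :
    ev F (t * p) (t * q) (t * r) = t ^ d * ev F p q r := by
  unfold ev
  rw [← homog_smul hF]
  congr 2
  funext i
  fin_cases i <;> rfl

theorem ev_hom {R S : Type} [CommRing R] [Algebra ℂ R] [CommRing S] [Algebra ℂ S]
    (f : R →ₐ[ℂ] S) (F : MvPolynomial (Fin 3) ℂ) (p q r : R) :
    f (ev F p q r) = ev F (f p) (f q) (f r) := by
  unfold ev
  rw [comp_aeval_apply]
  congr 2
  funext i
  fin_cases i <;> rfl

theorem ev_bind {R : Type} [CommRing R] [Algebra ℂ R] (F : MvPolynomial (Fin 3) ℂ)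
    (a b c : MvPolynomial (Fin 3) ℂ) (p q r : R) :
    ev (bind₁ ![a, b, c] F) p q r = ev F (ev a p q r) (ev b p q r) (ev c p q r) := by
  unfold ev
  rw [aeval_bind₁]
  congr 2
  funext i
  fin_cases i <;> rfl

/-! ### dual numbers -/

theorem dsqrt (w : DD) (a : ℂ) (ha : a ≠ 0) (hw : w.fst = a ^ 2) : ∃ s : DD, s.fst = a ∧ s ^ 2 = w := by
  refine ⟨inl a + inr (w.snd / (2 * a)), by simp, ?_⟩
  ext
  · simp [sq, hw]
  · simp [sq]
    field_simp
    ring

theorem dinv (w : DD) (hw : w.fst ≠ 0) : ∃ s : DD, s.fst = (w.fst)⁻¹ ∧ w * s = 1 := by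
  refine ⟨inl (w.fst)⁻¹ + inr (-(w.snd) / (w.fst) ^ 2), by simp, ?_⟩
  ext
  · simp [hw]
  · simp
    field_simp
    ring

end Pool.Agent.H878.HC
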