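import Mathlib

set_option autoImplicit false

namespace Pool.Agent.H878.HC

/-- Order of a toric germ with ray list `R` along weights `(A, B)`. -/
def HH (R : List (ℕ × ℕ)) (A B : ℕ) : ℕ :=
  (R.map (fun r => min (A * r.2) (r.1 * B))).sum

/-- Multiplicity of a ray list. -/
def mm (R : List (ℕ × ℕ)) : ℕ := (R.map (fun r => min r.1 r.2)).sum

def Lf (R : List (ℕ × ℕ)) : List (ℕ × ℕ) := R.map (fun r => (r.1 - r.2, r.2))
def Rt (R : List (ℕ × ℕ)) : List (ℕ × ℕ) := R.map (fun r => (r.2 - r.1, r.1))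
def sw (R : List (ℕ × ℕ)) : List (ℕ × ℕ) := R.map (fun r => (r.2, r.1))

def mu (r s : ℕ × ℕ) : ℕ := min (r.1 * s.2) (s.1 * r.2)

def SS (R : List (ℕ × ℕ)) : ℕ := (R.map (fun r => (R.map (fun s => mu r s)).sum)).sum

def Nn : ℕ → List (ℕ × ℕ) → ℕ
  | 0, _ => 0
  | n + 1, R => if mm R = 0 then 0 else 1 + Nn n (Lf R) + Nn n (Rt R)

theorem mm_eq (R : List (ℕ × ℕ)) : mm R = HH R 1 1 := by
  simp [mm, HH, min_comm]

theorem Lf_sw (R : List (ℕ × ℕ)) : Lf (sw R) = Rt R := by
  simp [Lf, sw, Rt]

theorem HH_sw (R : List (ℕ × ℕ)) (A B : ℕ) : HH (sw R) A B = HH R B A := by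
  simp only [HH, sw, List.map_map, Function.comp_def]
  congr 1
  apply List.map_congr_left
  intro r _
  rw [min_comm, mul_comm, mul_comm A]

theorem mm_sw (R : List (ℕ × ℕ)) : mm (sw R) = mm R := by
  rw [mm_eq, mm_eq, HH_sw]

theorem HH_Lf (R : List (ℕ × ℕ)) (A B : ℕ) : HH (Lf R) A B + B * mm R = HH R (A + B) B := by
  simp only [HH, Lf, mm, List.map_map, Function.comp_def]
  rw [← List.sum_map_mul_left, ← List.sum_map_add]
  congr 1
  apply List.map_congr_left
  intro r _
  rcases le_total r.1 r.2 with h | h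
  · have h1 : r.1 - r.2 = 0 := by omega
    rw [h1, min_eq_left h]
    have h2 : r.1 * B ≤ (A + B) * r.2 := by nlinarith
    rw [min_eq_right h2]
    simp [mul_comm]
  · obtain ⟨c, hc⟩ := Nat.exists_eq_add_of_le h
    rw [min_eq_right h]
    have h1 : r.1 - r.2 = c := by omega
    rw [h1, hc]
    rcases le_total (A * r.2) (c * B) with h3 | h3
    · rw [min_eq_left h3, min_eq_left (by nlinarith)]
      ring
    · rw [min_eq_right h3, min_eq_right (by nlinarith)]
      ring

theorem mu_split (r s : ℕ × ℕ) :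
    mu r s = min r.1 r.2 * min s.1 s.2 + mu (r.1 - r.2, r.2) (s.1 - s.2, s.2)
      + mu (r.2 - r.1, r.1) (s.2 - s.1, s.1) := by
  obtain ⟨a, b⟩ := r
  obtain ⟨c, d⟩ := s
  simp only [mu]
  rcases le_total a b with h | h <;> rcases le_total c d with h' | h'
  · obtain ⟨x, rfl⟩ := Nat.exists_eq_add_of_le h
    obtain ⟨y, rfl⟩ := Nat.exists_eq_add_of_le h'
    have e1 : a - (a + x) = 0 := by omega
    have e2 : c - (c + y) = 0 := by omega
    have e3 : a + x - a = x := by omega
    have e4 : c + y - c = y := by omega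
    rw [e1, e2, e3, e4, min_eq_left h, min_eq_left h']
    rcases le_total (x * c) (y * a) with h3 | h3
    · rw [min_eq_left h3, min_eq_right (by nlinarith)]
      simp; ring
    · rw [min_eq_right h3, min_eq_left (by nlinarith)]
      simp; ring
  · have e1 : a - b = 0 := by omega
    have e2 : d - c = 0 := by omega
    rw [e1, e2, min_eq_left h, min_eq_right h']
    have : a * d ≤ c * b := by nlinarith
    rw [min_eq_left this]
    simp
  · have e1 : b - a = 0 := by omega
    have e2 : c - d = 0 := by omega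
    rw [e1, e2, min_eq_right h, min_eq_left h']
    have : c * b ≤ a * d := by nlinarith
    rw [min_eq_right this]
    simp [mul_comm]
  · obtain ⟨x, rfl⟩ := Nat.exists_eq_add_of_le h
    obtain ⟨y, rfl⟩ := Nat.exists_eq_add_of_le h'
    have e1 : b - (b + x) = 0 := by omega
    have e2 : d - (d + y) = 0 := by omega
    have e3 : b + x - b = x := by omega
    have e4 : d + y - d = y := by omega
    rw [e1, e2, e3, e4, min_eq_right h, min_eq_right h']
    rcases le_total (x * d) (y * b) with h3 | h3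
    · rw [min_eq_left h3, min_eq_left (by nlinarith)]
      simp; ring
    · rw [min_eq_right h3, min_eq_right (by nlinarith)]
      simp; ring

theorem sum_sq (R : List (ℕ × ℕ)) (f : ℕ × ℕ → ℕ) :
    (R.map (fun r => (R.map (fun s => f r * f s)).sum)).sum = ((R.map f).sum) ^ 2 := by
  simp only [List.sum_map_mul_left]
  rw [List.sum_map_mul_right, sq]

theorem SS_split (R : List (ℕ × ℕ)) : SS R = mm R ^ 2 + SS (Lf R) + SS (Rt R) := by
  simp only [SS, mm, Lf, Rt, List.map_map, Function.comp_def]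
  rw [← sum_sq, ← List.sum_map_add, ← List.sum_map_add]
  congr 1
  apply List.map_congr_left
  intro r _
  rw [← List.sum_map_add, ← List.sum_map_add]
  congr 1
  apply List.map_congr_left
  intro s _
  exact mu_split r s

theorem mm_zero_iff (R : List (ℕ × ℕ)) : mm R = 0 ↔ ∀ r ∈ R, r.1 = 0 ∨ r.2 = 0 := by
  unfold mm
  rw [List.sum_eq_zero_iff]
  constructor
  · intro h r hr
    have := h (min r.1 r.2) (List.mem_map.2 ⟨r, hr, rfl⟩)
    omega
  · intro h x hx
    obtain ⟨r, hr, rfl⟩ := List.mem_map.1 hx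
    rcases h r hr with h | h <;> simp [h]

theorem SS_zero (R : List (ℕ × ℕ)) (h : mm R = 0) : SS R = 0 := by
  rw [mm_zero_iff] at h
  unfold SS
  rw [List.sum_eq_zero_iff]
  intro x hx
  obtain ⟨r, hr, rfl⟩ := List.mem_map.1 hx
  rw [List.sum_eq_zero_iff]
  intro y hy
  obtain ⟨s, hs, rfl⟩ := List.mem_map.1 hy
  unfold mu
  rcases h r hr with h1 | h1 <;> simp [h1]

/-- fuel condition -/
def Fuel (n : ℕ) (R : List (ℕ × ℕ)) : Prop := ∀ r ∈ R, r.1 = 0 ∨ r.2 = 0 ∨ r.1 + r.2 ≤ n

theorem Fuel_zero {R : List (ℕ × ℕ)} (h : Fuel 0 R) : mm R = 0 := by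
  rw [mm_zero_iff]
  intro r hr
  have := h r hr
  omega

theorem Fuel_Lf {n : ℕ} {R : List (ℕ × ℕ)} (h : Fuel (n + 1) R) : Fuel n (Lf R) := by
  intro r hr
  obtain ⟨s, hs, rfl⟩ := List.mem_map.1 hr
  have := h s hs
  simp only
  omega

theorem Fuel_Rt {n : ℕ} {R : List (ℕ × ℕ)} (h : Fuel (n + 1) R) : Fuel n (Rt R) := by
  intro r hr
  obtain ⟨s, hs, rfl⟩ := List.mem_map.1 hr
  have := h s hs
  simp only
  omega

/-- The ray lists. -/
def RR : ℕ → List (ℕ × ℕ)
  | 0 => [(2, 3)]
  | k + 1 => (RR k).map (fun r => (r.1, 2 * r.2)) ++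
      ((RR k).map (fun r => (2 * r.2 - r.1, 2 * r.2)) ++ [(2 ^ (k + 1), 2 ^ (k + 1))])

theorem RR_mem (k : ℕ) : ∀ r ∈ RR k, 1 ≤ r.1 ∧ r.1 ≤ r.2 ∧ r.2 ≤ 3 * 2 ^ k := by
  induction k with
  | zero => intro r hr; simp [RR] at hr; subst hr; simp
  | succ k ih =>
    intro r hr
    simp only [RR, List.mem_append, List.mem_map, List.mem_singleton] at hr
    have h2 : 1 ≤ 2 ^ k := Nat.one_le_two_pow
    rcases hr with ⟨s, hs, rfl⟩ | ⟨s, hs, rfl⟩ | rfl
    · have := ih s hs
      simp only [pow_succ]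
      omega
    · have := ih s hs
      simp only [pow_succ]
      omega
    · simp only [pow_succ]
      omega

theorem RR_snd (k : ℕ) : ((RR k).map Prod.snd).sum + 2 ^ k = 4 ^ (k + 1) := by
  induction k with
  | zero => simp [RR]
  | succ k ih =>
    simp only [RR, List.map_append, List.map_map, List.sum_append, Function.comp_def, List.map_cons,
      List.map_nil, List.sum_cons, List.sum_nil]
    rw [List.sum_map_mul_left]
    rw [pow_succ 4 (k + 1), ← ih]
    simp only [pow_succ]
    have : (List.map (fun i : ℕ × ℕ => i.2) (RR k)).sum = ((RR k).map Prod.snd).sum := rfl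
    rw [this]
    ring

theorem sum_sub_add (R : List (ℕ × ℕ)) (h : ∀ r ∈ R, r.1 ≤ r.2) :
    (R.map (fun r => 2 * r.2 - r.1)).sum + (R.map Prod.fst).sum = 2 * (R.map Prod.snd).sum := by
  rw [← List.sum_map_mul_left, ← List.sum_map_add]
  congr 1
  apply List.map_congr_left
  intro r hr
  have := h r hr
  omega

theorem RR_fst (k : ℕ) : ((RR k).map Prod.fst).sum = 2 * 4 ^ k := by
  cases k with
  | zero => simp [RR]
  | succ k =>
    simp only [RR, List.map_append, List.map_map, List.sum_append, Function.comp_def, List.map_cons,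
      List.map_nil, List.sum_cons, List.sum_nil]
    have h1 := sum_sub_add (RR k) (fun r hr => (RR_mem k r hr).2.1)
    have h2 := RR_snd k
    have : (List.map (fun i : ℕ × ℕ => i.1) (RR k)).sum = ((RR k).map Prod.fst).sum := rfl
    rw [this]
    have h3 : 2 ^ (k + 1) = 2 * 2 ^ k := by ring
    omega

/-- weight transformation for `A ≤ B` -/
theorem HH_RR_le (k A B : ℕ) (hAB : A ≤ B) :
    HH (RR (k + 1)) A B = 2 * 4 ^ (k + 1) * A +
      HH (RR k) (if 2 * A ≤ B then 2 * A else 2 * B - 2 * A) B := by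
  have key : ∀ R : List (ℕ × ℕ), (∀ r ∈ R, r.1 ≤ r.2) →
      HH (R.map (fun r => (r.1, 2 * r.2))) A B + HH (R.map (fun r => (2 * r.2 - r.1, 2 * r.2))) A B
       = 2 * A * (R.map Prod.snd).sum + HH R (if 2 * A ≤ B then 2 * A else 2 * B - 2 * A) B := by
    intro R hR
    simp only [HH, List.map_map, Function.comp_def]
    rw [← List.sum_map_mul_left, ← List.sum_map_add, ← List.sum_map_add]
    congr 1
    apply List.map_congr_left
    intro r hr
    obtain ⟨c, hc⟩ := Nat.exists_eq_add_of_le (hR r hr)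
    obtain ⟨a, b⟩ := r
    simp only at hc ⊢
    subst hc
    have e1 : 2 * (a + c) - a = a + 2 * c := by omega
    rw [e1]
    split_ifs with h
    · obtain ⟨D, rfl⟩ := Nat.exists_eq_add_of_le h
      have h2 : A * (2 * (a + c)) ≤ (a + 2 * c) * (2 * A + D) := by nlinarith
      rw [min_eq_left h2]
      have e3 : A * (2 * (a + c)) = 2 * A * (a + c) := by ring
      rw [e3, add_comm]
    · push Not at h
      obtain ⟨D, hD⟩ := Nat.exists_eq_add_of_le hAB
      obtain ⟨E, hE⟩ := Nat.exists_eq_add_of_le h.le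
      have hA : A = D + E := by omega
      subst hD
      subst hA
      have e4 : 2 * (D + E + D) - 2 * (D + E) = 2 * D := by omega
      rw [e4]
      have h3 : a * (D + E + D) ≤ (D + E) * (2 * (a + c)) := by nlinarith
      rw [min_eq_right h3]
      rcases le_total (a * (D + E + D)) (2 * D * (a + c)) with h5 | h5
      · rw [min_eq_right h5, min_eq_left (by nlinarith)]
        ring
      · rw [min_eq_left h5, min_eq_right (by nlinarith)]
        ring
  have hs := RR_snd k
  have := key (RR k) (fun r hr => (RR_mem k r hr).2.1)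
  have e : HH (RR (k + 1)) A B = HH ((RR k).map (fun r => (r.1, 2 * r.2))) A B +
      HH ((RR k).map (fun r => (2 * r.2 - r.1, 2 * r.2))) A B + 2 ^ (k + 1) * A := by
    simp only [HH, RR, List.map_append, List.sum_append, List.map_cons, List.map_nil, List.sum_cons,
      List.sum_nil]
    have : min (A * 2 ^ (k + 1)) (2 ^ (k + 1) * B) = 2 ^ (k + 1) * A := by
      rw [mul_comm A, min_eq_left]
      exact Nat.mul_le_mul_left _ hAB
    rw [this]
    ring
  rw [e, this]
  have h3 : 2 ^ (k + 1) = 2 * 2 ^ k := by ring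
  rw [h3, ← hs]
  ring

theorem HH_RR_gt (k A B : ℕ) (hAB : B < A) : HH (RR k) A B = 2 * 4 ^ k * B := by
  have : HH (RR k) A B = ((RR k).map (fun r => r.1 * B)).sum := by
    unfold HH
    congr 1
    apply List.map_congr_left
    intro r hr
    have h := RR_mem k r hr
    apply min_eq_right
    nlinarith [h.1, h.2.1]
  rw [this, List.sum_map_mul_right]
  have h2 := RR_fst k
  have : (List.map (fun i : ℕ × ℕ => i.1) (RR k)).sum = ((RR k).map Prod.fst).sum := rfl
  rw [this, h2]

theorem HH_RR_zero (A B : ℕ) : HH (RR 0) A B = min (3 * A) (2 * B) := by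
  simp [HH, RR, mul_comm]

theorem SS_append3 (U V : List (ℕ × ℕ)) (w : ℕ × ℕ) :
    SS (U ++ (V ++ [w])) =
      (U.map (fun r => (U.map (fun s => mu r s)).sum)).sum +
      (U.map (fun r => (V.map (fun s => mu r s)).sum)).sum +
      (V.map (fun r => (U.map (fun s => mu r s)).sum)).sum +
      (V.map (fun r => (V.map (fun s => mu r s)).sum)).sum +
      (U.map (fun r => mu r w)).sum + (V.map (fun r => mu r w)).sum +
      (U.map (fun s => mu w s)).sum + (V.map (fun s => mu w s)).sum + mu w w := by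
  simp only [SS, List.map_append, List.sum_append, List.map_cons, List.map_nil, List.sum_cons,
      List.sum_nil, List.sum_map_add, add_zero]
  ring

theorem SS_RR_succ (k : ℕ) : SS (RR (k + 1)) = 4 * SS (RR k) + 4 * 16 ^ (k + 1) := by
  have key : ∀ R : List (ℕ × ℕ), (∀ r ∈ R, r.1 ≤ r.2) → ∀ w : ℕ,
      SS (R.map (fun r => (r.1, 2 * r.2)) ++ (R.map (fun r => (2 * r.2 - r.1, 2 * r.2)) ++ [(w, w)]))
        = 4 * SS R + (2 * (R.map Prod.snd).sum + w) ^ 2 := by
    intro R hR w
    rw [SS_append3]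
    simp only [List.map_map, Function.comp_def]
    have e1 : (List.map (fun x : ℕ × ℕ => (List.map (fun x_1 : ℕ × ℕ => mu (x.1, 2 * x.2) (x_1.1, 2 * x_1.2)) R).sum) R).sum +
        (List.map (fun x : ℕ × ℕ => (List.map (fun x_1 : ℕ × ℕ => mu (x.1, 2 * x.2) (2 * x_1.2 - x_1.1, 2 * x_1.2)) R).sum) R).sum +
        (List.map (fun x : ℕ × ℕ => (List.map (fun x_1 : ℕ × ℕ => mu (2 * x.2 - x.1, 2 * x.2) (x_1.1, 2 * x_1.2)) R).sum) R).sum +
        (List.map (fun x : ℕ × ℕ => (List.map (fun x_1 : ℕ × ℕ => mu (2 * x.2 - x.1, 2 * x.2) (2 * x_1.2 - x_1.1, 2 * x_1.2)) R).sum) R).sum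
        = 4 * SS R + 4 * ((R.map Prod.snd).sum) ^ 2 := by
      rw [← sum_sq]
      unfold SS
      simp only [← List.sum_map_mul_left, ← List.sum_map_add]
      congr 1
      apply List.map_congr_left
      intro r hr
      congr 1
      apply List.map_congr_left
      intro s hs
      obtain ⟨c, hc⟩ := Nat.exists_eq_add_of_le (hR r hr)
      obtain ⟨d, hd⟩ := Nat.exists_eq_add_of_le (hR s hs)
      obtain ⟨a, b⟩ := r
      obtain ⟨a', b'⟩ := s
      simp only at hc hd ⊢
      subst hc
      subst hd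
      simp only [mu]
      have e1 : 2 * (a + c) - a = a + 2 * c := by omega
      have e2 : 2 * (a' + d) - a' = a' + 2 * d := by omega
      rw [e1, e2]
      have h1 : a * (2 * (a' + d)) ≤ (a' + 2 * d) * (2 * (a + c)) := by nlinarith
      have h2 : a' * (2 * (a + c)) ≤ (a + 2 * c) * (2 * (a' + d)) := by nlinarith
      rw [min_eq_left h1, min_eq_right h2]
      rcases le_total (a * (a' + d)) (a' * (a + c)) with h3 | h3
      · rw [min_eq_left h3, min_eq_left (by nlinarith), min_eq_right (by nlinarith)]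
        ring
      · rw [min_eq_right h3, min_eq_right (by nlinarith), min_eq_left (by nlinarith)]
        ring
    have e2 : (List.map (fun x : ℕ × ℕ => mu (x.1, 2 * x.2) (w, w)) R).sum +
        (List.map (fun x : ℕ × ℕ => mu (2 * x.2 - x.1, 2 * x.2) (w, w)) R).sum = 2 * w * (R.map Prod.snd).sum := by
      rw [← List.sum_map_mul_left, ← List.sum_map_add]
      congr 1
      apply List.map_congr_left
      intro r hr
      obtain ⟨c, hc⟩ := Nat.exists_eq_add_of_le (hR r hr)
      obtain ⟨a, b⟩ := r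
      simp only at hc ⊢
      subst hc
      simp only [mu]
      have e1 : 2 * (a + c) - a = a + 2 * c := by omega
      rw [e1, min_eq_left (by nlinarith), min_eq_left (by nlinarith)]
      ring
    have e3 : (List.map (fun x : ℕ × ℕ => mu (w, w) (x.1, 2 * x.2)) R).sum +
        (List.map (fun x : ℕ × ℕ => mu (w, w) (2 * x.2 - x.1, 2 * x.2)) R).sum = 2 * w * (R.map Prod.snd).sum := by
      rw [← List.sum_map_mul_left, ← List.sum_map_add]
      congr 1
      apply List.map_congr_left
      intro r hr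
      obtain ⟨c, hc⟩ := Nat.exists_eq_add_of_le (hR r hr)
      obtain ⟨a, b⟩ := r
      simp only at hc ⊢
      subst hc
      simp only [mu]
      have e1 : 2 * (a + c) - a = a + 2 * c := by omega
      rw [e1, min_eq_right (by nlinarith), min_eq_right (by nlinarith)]
      ring
    have e4 : mu (w, w) (w, w) = w ^ 2 := by simp [mu, sq]
    rw [e1, e4]
    calc _ = 4 * SS R + 4 * (List.map Prod.snd R).sum ^ 2 +
        ((List.map (fun x : ℕ × ℕ => mu (x.1, 2 * x.2) (w, w)) R).sum +
        (List.map (fun x : ℕ × ℕ => mu (2 * x.2 - x.1, 2 * x.2) (w, w)) R).sum) +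
        ((List.map (fun x : ℕ × ℕ => mu (w, w) (x.1, 2 * x.2)) R).sum +
        (List.map (fun x : ℕ × ℕ => mu (w, w) (2 * x.2 - x.1, 2 * x.2)) R).sum) + w ^ 2 := by ring
      _ = _ := by
        rw [e2, e3]
        ring
  have h := key (RR k) (fun r hr => (RR_mem k r hr).2.1) (2 ^ (k + 1))
  rw [RR, h]
  have hs := RR_snd k
  have e : 2 * (List.map Prod.snd (RR k)).sum + 2 ^ (k + 1) = 2 * 4 ^ (k + 1) := by
    rw [← hs]; ring
  rw [e, mul_pow, ← pow_mul, mul_comm (k + 1) 2, pow_mul]
  norm_num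

theorem SS_RR (k : ℕ) : 3 * SS (RR k) = 16 ^ (k + 1) + 2 * 4 ^ k := by
  induction k with
  | zero => decide
  | succ k ih =>
    rw [SS_RR_succ, mul_add, ← mul_assoc, mul_comm 3 4, mul_assoc, ih]
    ring

end Pool.Agent.H878.HC
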