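import Mathlib
import Pool.Agent.H878.HCBase
import Pool.Agent.H878.HCRays

set_option autoImplicit false

open TrivSqZeroExt

namespace Pool.Agent.H878.HC

noncomputable section

open MvPolynomial in
/-- restriction of `f` to the germ `(x τ^A, y τ^B)` with dual-number coefficients -/
def EE (A B : ℕ) (x y : DD) (f : MvPolynomial (Fin 2) ℂ) : Polynomial DD :=
  aeval ![Polynomial.C x * Polynomial.X ^ A, Polynomial.C y * Polynomial.X ^ B] f

theorem EE_mul (A B : ℕ) (x y : DD) (f g : MvPolynomial (Fin 2) ℂ) :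
    EE A B x y (f * g) = EE A B x y f * EE A B x y g := by
  simp [EE]

theorem EE_pow (A B : ℕ) (x y : DD) (f : MvPolynomial (Fin 2) ℂ) (n : ℕ) :
    EE A B x y (f ^ n) = EE A B x y f ^ n := by
  simp [EE]

theorem EE_coeff_zero (A B : ℕ) (hA : 1 ≤ A) (hB : 1 ≤ B) (x y : DD) (f : MvPolynomial (Fin 2) ℂ) :
    (EE A B x y f).coeff 0 = inl (MvPolynomial.constantCoeff f) := by
  unfold EE
  rw [← Polynomial.constantCoeff_apply]
  have h0 := MvPolynomial.map_aeval (![Polynomial.C x * Polynomial.X ^ A,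
      Polynomial.C y * Polynomial.X ^ B] : Fin 2 → Polynomial DD) (Polynomial.constantCoeff (R := DD)) f
  refine h0.trans ?_
  have h : (fun i => Polynomial.constantCoeff ((![Polynomial.C x * Polynomial.X ^ A,
      Polynomial.C y * Polynomial.X ^ B] : Fin 2 → Polynomial DD) i)) = 0 := by
    funext i
    fin_cases i
    · simp; omega
    · simp; omega
  rw [h, MvPolynomial.eval₂Hom_zero_apply]
  simp [Polynomial.algebraMap_apply, TrivSqZeroExt.algebraMap_eq_inl]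

/-- unit-like polynomial -/
def UL (w : Polynomial DD) : Prop := (w.coeff 0).fst ≠ 0

theorem UL.coprime {w : Polynomial DD} (hw : UL w) (n : ℕ) : IsCoprime (Polynomial.X ^ n) w := by
  apply IsCoprime.pow_left
  obtain ⟨s, _, hs⟩ := dinv _ hw
  refine ⟨-(Polynomial.C s * Polynomial.divX w), Polynomial.C s, ?_⟩
  have h := Polynomial.divX_mul_X_add w
  have h2 : Polynomial.C (w.coeff 0) * Polynomial.C s = 1 := by
    rw [← Polynomial.C_mul, hs, Polynomial.C_1]
  linear_combination h2 - Polynomial.C s * h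

theorem UL.dvd_iff {w : Polynomial DD} (hw : UL w) (n : ℕ) (p : Polynomial DD) :
    Polynomial.X ^ n ∣ w * p ↔ Polynomial.X ^ n ∣ p :=
  ⟨fun h => (hw.coprime n).dvd_of_dvd_mul_left h, fun h => Dvd.dvd.mul_left h w⟩

theorem X_pow_cancel (n k : ℕ) (p : Polynomial DD) :
    (Polynomial.X : Polynomial DD) ^ (n + k) ∣ Polynomial.X ^ k * p ↔ Polynomial.X ^ n ∣ p := by
  rw [Polynomial.X_pow_dvd_iff, Polynomial.X_pow_dvd_iff]
  constructor
  · intro h d hd
    have := h (d + k) (by omega)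
    rwa [Polynomial.coeff_X_pow_mul] at this
  · intro h d hd
    rw [Polynomial.coeff_X_pow_mul']
    split_ifs with h1
    · exact h _ (by omega)
    · rfl

def Typ (f : MvPolynomial (Fin 2) ℂ) (R : List (ℕ × ℕ)) : Prop :=
  ∀ A B : ℕ, 1 ≤ A → 1 ≤ B →
    (∀ x y : DD, x.fst ≠ 0 → y.fst ≠ 0 → Polynomial.X ^ (HH R A B) ∣ EE A B x y f) ∧
    (∀ x y : ℂ, x ≠ 0 → y ≠ 0 → ∃ x' y' : DD, x'.fst = x ∧ y'.fst = y ∧
      ¬ Polynomial.X ^ (HH R A B + 1) ∣ EE A B x' y' f)

theorem EE_UL (A B : ℕ) (hA : 1 ≤ A) (hB : 1 ≤ B) (x y : DD) (f : MvPolynomial (Fin 2) ℂ)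
    (hf : MvPolynomial.constantCoeff f ≠ 0) : UL (EE A B x y f) := by
  unfold UL
  rw [EE_coeff_zero A B hA hB]
  simpa using hf

/-- T1: transfer along units -/
theorem Typ.transfer {f g w1 w2 : MvPolynomial (Fin 2) ℂ} {R : List (ℕ × ℕ)} (hf : Typ f R)
    (h : w1 * g = w2 * f) (h1 : MvPolynomial.constantCoeff w1 ≠ 0)
    (h2 : MvPolynomial.constantCoeff w2 ≠ 0) : Typ g R := by
  intro A B hA hB
  have key : ∀ (x y : DD) (n : ℕ), Polynomial.X ^ n ∣ EE A B x y g ↔ Polynomial.X ^ n ∣ EE A B x y f := by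
    intro x y n
    rw [← (EE_UL A B hA hB x y w1 h1).dvd_iff, ← (EE_UL A B hA hB x y w2 h2).dvd_iff n (EE A B x y f),
      ← EE_mul, ← EE_mul, h]
  obtain ⟨ha, hb⟩ := hf A B hA hB
  refine ⟨fun x y hx hy => (key x y _).2 (ha x y hx hy), fun x y hx hy => ?_⟩
  obtain ⟨x', y', hx', hy', hn⟩ := hb x y hx hy
  exact ⟨x', y', hx', hy', fun hc => hn ((key x' y' _).1 hc)⟩

theorem EE_swap (A B : ℕ) (x y : DD) (f : MvPolynomial (Fin 2) ℂ) :
    EE A B x y (MvPolynomial.bind₁ ![MvPolynomial.X 1, MvPolynomial.X 0] f) = EE B A y x f := by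
  unfold EE
  rw [MvPolynomial.aeval_bind₁]
  congr 2
  funext i
  fin_cases i <;> simp

/-- T2: swap -/
theorem Typ.swap {f : MvPolynomial (Fin 2) ℂ} {R : List (ℕ × ℕ)} (hf : Typ f R) :
    Typ (MvPolynomial.bind₁ ![MvPolynomial.X 1, MvPolynomial.X 0] f) (sw R) := by
  intro A B hA hB
  obtain ⟨ha, hb⟩ := hf B A hB hA
  rw [HH_sw]
  refine ⟨fun x y hx hy => ?_, fun x y hx hy => ?_⟩
  · rw [EE_swap]; exact ha y x hy hx
  · obtain ⟨y', x', hy', hx', hn⟩ := hb y x hy hx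
    exact ⟨x', y', hx', hy', by rw [EE_swap]; exact hn⟩

theorem EE_blow (A B : ℕ) (x y : DD) (f : MvPolynomial (Fin 2) ℂ) :
    EE A B x y (MvPolynomial.bind₁ ![MvPolynomial.X 0 * MvPolynomial.X 1, MvPolynomial.X 1] f)
      = EE (A + B) B (x * y) y f := by
  unfold EE
  rw [MvPolynomial.aeval_bind₁]
  congr 2
  funext i
  fin_cases i
  · simp; ring
  · simp

/-- T3: blow-up chart -/
theorem Typ.blow {f g w1 w2 : MvPolynomial (Fin 2) ℂ} {R : List (ℕ × ℕ)} (hf : Typ f R)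
    (h : w1 * (MvPolynomial.X 1 ^ (mm R) * g) =
      w2 * MvPolynomial.bind₁ ![MvPolynomial.X 0 * MvPolynomial.X 1, MvPolynomial.X 1] f)
    (h1 : MvPolynomial.constantCoeff w1 ≠ 0)
    (h2 : MvPolynomial.constantCoeff w2 ≠ 0) : Typ g (Lf R) := by
  intro A B hA hB
  have key : ∀ (x y : DD) (n : ℕ), y.fst ≠ 0 →
      (Polynomial.X ^ n ∣ EE A B x y g ↔
        Polynomial.X ^ (n + B * mm R) ∣ EE (A + B) B (x * y) y f) := by
    intro x y n hy
    rw [← EE_blow, ← (EE_UL A B hA hB x y w2 h2).dvd_iff _ (EE A B x y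
        (MvPolynomial.bind₁ ![MvPolynomial.X 0 * MvPolynomial.X 1, MvPolynomial.X 1] f)),
      ← EE_mul, ← h, EE_mul, (EE_UL A B hA hB x y w1 h1).dvd_iff, EE_mul, EE_pow]
    have e : EE A B x y (MvPolynomial.X 1) ^ (mm R) =
        Polynomial.C y ^ (mm R) * Polynomial.X ^ (B * mm R) := by
      have e1 : EE A B x y (MvPolynomial.X 1) = Polynomial.C y * Polynomial.X ^ B := by simp [EE]
      rw [e1]; ring
    rw [e, mul_assoc]
    have hU : UL (Polynomial.C y ^ mm R) := by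
      unfold UL
      rw [← Polynomial.C_pow, Polynomial.coeff_C_zero]
      simp [hy]
    rw [hU.dvd_iff, X_pow_cancel]
  obtain ⟨ha, hb⟩ := hf (A + B) B (by omega) hB
  refine ⟨fun x y hx hy => ?_, fun x y hx hy => ?_⟩
  · rw [key x y _ hy, HH_Lf]
    apply ha _ _ _ hy
    rw [fst_mul]
    exact mul_ne_zero hx hy
  · obtain ⟨x1, y', hx1, hy', hn⟩ := hb (x * y) y (mul_ne_zero hx hy) hy
    obtain ⟨i, hif, hii⟩ := dinv y' (by rw [hy']; exact hy)
    refine ⟨x1 * i, y', ?_, hy', ?_⟩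
    · rw [fst_mul, hx1, hif, hy']; field_simp
    · rw [key _ _ _ (by rw [hy']; exact hy)]
      have e1 : HH (Lf R) A B + 1 + B * mm R = HH R (A + B) B + 1 := by
        rw [← HH_Lf]; ring
      have e2 : x1 * i * y' = x1 := by linear_combination x1 * hii
      rw [e1, e2]
      exact hn

/-- T4: nonvanishing -/
theorem Typ.ne_zero {f : MvPolynomial (Fin 2) ℂ} {R : List (ℕ × ℕ)} (hf : Typ f R) (h : mm R = 0) :
    MvPolynomial.constantCoeff f ≠ 0 := by
  intro h0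
  obtain ⟨x, y, _, _, hn⟩ := (hf 1 1 le_rfl le_rfl).2 1 1 one_ne_zero one_ne_zero
  apply hn
  rw [← mm_eq, h, zero_add, pow_one, Polynomial.X_dvd_iff, EE_coeff_zero 1 1 le_rfl le_rfl, h0]
  simp

/-- complex specialisation of the divisibility part -/
theorem Typ.complex {f : MvPolynomial (Fin 2) ℂ} {R : List (ℕ × ℕ)} (hf : Typ f R) (A B : ℕ)
    (hA : 1 ≤ A) (hB : 1 ≤ B) (x y : ℂ) (hx : x ≠ 0) (hy : y ≠ 0) :
    (Polynomial.X : Polynomial ℂ) ^ (HH R A B) ∣
      MvPolynomial.aeval ![Polynomial.C x * Polynomial.X ^ A, Polynomial.C y * Polynomial.X ^ B] f := by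
  have h1 := (hf A B hA hB).1 (inl x) (inl y) (by simpa) (by simpa)
  have h2 := map_dvd (Polynomial.mapAlgHom (fstHom ℂ ℂ ℂ)) h1
  have e : (fun i => (Polynomial.mapAlgHom (fstHom ℂ ℂ ℂ)) ((![Polynomial.C (inl x : DD) * Polynomial.X ^ A,
      Polynomial.C (inl y) * Polynomial.X ^ B] : Fin 2 → Polynomial DD) i)) =
      ![Polynomial.C x * Polynomial.X ^ A, Polynomial.C y * Polynomial.X ^ B] := by
    funext i
    fin_cases i <;> simp
  have h3 := MvPolynomial.comp_aeval_apply (Polynomial.mapAlgHom (fstHom ℂ ℂ ℂ))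
    (f := (![Polynomial.C (inl x : DD) * Polynomial.X ^ A,
      Polynomial.C (inl y) * Polynomial.X ^ B] : Fin 2 → Polynomial DD)) f
  rw [e] at h3
  have h4 : (Polynomial.mapAlgHom (fstHom ℂ ℂ ℂ)) (EE A B (inl x) (inl y) f) =
      MvPolynomial.aeval ![Polynomial.C x * Polynomial.X ^ A, Polynomial.C y * Polynomial.X ^ B] f := h3
  rw [h4] at h2
  simpa using h2

end

end Pool.Agent.H878.HC
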