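import Mathlib
import Pool.Agent.H878.HCType

set_option autoImplicit false

open TrivSqZeroExt MvPolynomial

namespace Pool.Agent.H878.HC

noncomputable section

theorem aeval_eq_ev {R : Type} [CommRing R] [Algebra ℂ R] (F : MvPolynomial (Fin 3) ℂ) (z : Fin 3 → R) :
    aeval z F = ev F (z 0) (z 1) (z 2) := by
  unfold ev
  congr 2
  funext i
  fin_cases i <;> rfl

def MultGE (F : MvPolynomial (Fin 3) ℂ) (x : Fin 3 → ℂ) (n : ℕ) : Prop :=
  ∀ (R : Type) [CommRing R] [Algebra ℂ R] (a t : R) (y : Fin 3 → R),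
    t ^ n ∣ aeval (fun i => a * algebraMap ℂ R (x i) + t * y i) F

/-- universal test for `MultGE` -/
theorem MultGE_of_univ (F : MvPolynomial (Fin 3) ℂ) (x : Fin 3 → ℂ) (n : ℕ)
    (h : (X 4 : MvPolynomial (Fin 5) ℂ) ^ n ∣
      ev F (X 0 * C (x 0) + X 4 * X 1) (X 0 * C (x 1) + X 4 * X 2) (X 0 * C (x 2) + X 4 * X 3)) :
    MultGE F x n := by
  intro R _ _ a t y
  have h2 := map_dvd (aeval (![a, y 0, y 1, y 2, t] : Fin 5 → R)) h
  rw [ev_hom] at h2
  rw [aeval_eq_ev]
  simpa [algebraMap_eq] using h2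

def Sing (F : MvPolynomial (Fin 3) ℂ) (x : Fin 3 → ℂ) : Prop :=
  ∀ z : Fin 3 → DD, (∀ i, (z i).fst = x i) → aeval z F = 0

def dt (x y z : Fin 3 → ℂ) : ℂ :=
  x 0 * (y 1 * z 2 - y 2 * z 1) - x 1 * (y 0 * z 2 - y 2 * z 0) + x 2 * (y 0 * z 1 - y 1 * z 0)

def NP (x y : Fin 3 → ℂ) : Prop := ∃ z, dt x y z ≠ 0

theorem NP.symm {x y : Fin 3 → ℂ} (h : NP x y) : NP y x := by
  obtain ⟨z, hz⟩ := h
  refine ⟨z, fun h0 => hz ?_⟩
  unfold dt at *
  linear_combination -h0

def c0 (φ : Fin 3 → MvPolynomial (Fin 2) ℂ) : Fin 3 → ℂ := fun i => constantCoeff (φ i)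
def du (φ : Fin 3 → MvPolynomial (Fin 2) ℂ) : Fin 3 → ℂ := fun i => constantCoeff (pderiv 0 (φ i))
def dv (φ : Fin 3 → MvPolynomial (Fin 2) ℂ) : Fin 3 → ℂ := fun i => constantCoeff (pderiv 1 (φ i))

abbrev Pt : Type := Fin 3 → ℂ
abbrev Ch : Type := Fin 3 → MvPolynomial (Fin 2) ℂ

def pts (S : List (Pt × ℕ)) (L : List (Ch × List (ℕ × ℕ))) : List Pt :=
  S.map Prod.fst ++ L.map (fun c => c0 c.1)

structure St (d : ℕ) (F : MvPolynomial (Fin 3) ℂ) (S : List (Pt × ℕ))
    (L : List (Ch × List (ℕ × ℕ))) : Prop where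
  hom : F.IsHomogeneous d
  ne : F ≠ 0
  mult : ∀ s ∈ S, s.1 ≠ 0 ∧ MultGE F s.1 s.2
  chart : ∀ c ∈ L, dt (c0 c.1) (du c.1) (dv c.1) ≠ 0 ∧ Typ (bind₁ c.1 F) c.2
  pw : (pts S L).Pairwise NP
  cov : ∀ x : Pt, x ≠ 0 → Sing F x → ∃ y ∈ pts S L, ∃ c : ℂ, x = c • y

/-! ### linear changes -/

def mv {R : Type} [CommRing R] [Algebra ℂ R] (M : Matrix (Fin 3) (Fin 3) ℂ) (z : Fin 3 → R) :
    Fin 3 → R := fun i => ∑ j, algebraMap ℂ R (M i j) * z j

theorem mv_mv {R : Type} [CommRing R] [Algebra ℂ R] (M N : Matrix (Fin 3) (Fin 3) ℂ) (h : M * N = 1)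
    (z : Fin 3 → R) : mv M (mv N z) = z := by
  funext i
  unfold mv
  have h1 : ∀ k, ∑ j, M i j * N j k = (1 : Matrix (Fin 3) (Fin 3) ℂ) i k := by
    intro k; rw [← h, Matrix.mul_apply]
  simp only [Finset.mul_sum]
  rw [Finset.sum_comm]
  have h2 : ∀ k, ∑ j, algebraMap ℂ R (M i j) * (algebraMap ℂ R (N j k) * z k) =
      algebraMap ℂ R ((1 : Matrix (Fin 3) (Fin 3) ℂ) i k) * z k := by
    intro k
    rw [← h1, map_sum, Finset.sum_mul]
    apply Finset.sum_congr rfl
    intro j _
    rw [map_mul]; ring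
  simp only [h2]
  simp [Matrix.one_apply]

theorem hom_mv {R S : Type} [CommRing R] [Algebra ℂ R] [CommRing S] [Algebra ℂ S] (f : R →ₐ[ℂ] S)
    (M : Matrix (Fin 3) (Fin 3) ℂ) (z : Fin 3 → R) (i : Fin 3) :
    f (mv M z i) = mv M (fun j => f (z j)) i := by
  simp [mv]

theorem aeval_lin {R : Type} [CommRing R] [Algebra ℂ R] (M : Matrix (Fin 3) (Fin 3) ℂ)
    (F : MvPolynomial (Fin 3) ℂ) (z : Fin 3 → R) :
    aeval z (bind₁ (mv M X) F) = aeval (mv M z) F := by
  rw [aeval_bind₁]
  congr 2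
  funext i
  rw [hom_mv]
  simp

theorem mv_smul_add {R : Type} [CommRing R] [Algebra ℂ R] (M : Matrix (Fin 3) (Fin 3) ℂ)
    (a t : R) (x : Pt) (y : Fin 3 → R) :
    mv M (fun i => a * algebraMap ℂ R (x i) + t * y i) =
      fun i => a * algebraMap ℂ R (mv M x i) + t * mv M y i := by
  funext i
  simp only [mv, map_sum, map_mul, Algebra.algebraMap_self, RingHom.id_apply]
  simp only [Finset.mul_sum, ← Finset.sum_add_distrib]
  apply Finset.sum_congr rfl
  intro j _
  ring

theorem dt_mv (M : Matrix (Fin 3) (Fin 3) ℂ) (x y z : Pt) :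
    dt (mv M x) (mv M y) (mv M z) = M.det * dt x y z := by
  simp only [dt, mv, Matrix.det_fin_three, Fin.sum_univ_three, Algebra.algebraMap_self,
    RingHom.id_apply]
  ring

theorem lin_St (M N : Matrix (Fin 3) (Fin 3) ℂ) (hMN : M * N = 1) (hNM : N * M = 1)
    {d : ℕ} {F : MvPolynomial (Fin 3) ℂ} {S : List (Pt × ℕ)}
    {L : List (Ch × List (ℕ × ℕ))} (h : St d F S L) :
    St d (bind₁ (mv M X) F) (S.map (fun s => (mv N s.1, s.2))) (L.map (fun c => (mv N c.1, c.2))) := by
  have hdet : N.det ≠ 0 := by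
    have : M.det * N.det = 1 := by rw [← Matrix.det_mul, hMN, Matrix.det_one]
    intro h0; rw [h0] at this; simp at this
  have hpts : pts (S.map (fun s => (mv N s.1, s.2))) (L.map (fun c => (mv N c.1, c.2))) =
      (pts S L).map (mv N) := by
    unfold pts
    rw [List.map_append, List.map_map, List.map_map, List.map_map, List.map_map]
    congr 1
    apply List.map_congr_left
    intro c _
    funext i
    simp only [Function.comp, c0, mv, map_sum, map_mul, Algebra.algebraMap_self, RingHom.id_apply,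
      algebraMap_eq, constantCoeff_C]
  have hNinj : ∀ x : Pt, mv M (mv N x) = x := fun x => mv_mv M N hMN x
  constructor
  · have := IsHomogeneous.aeval h.hom (g := (mv M X : Fin 3 → MvPolynomial (Fin 3) ℂ)) (n := 1) (by
      intro i
      apply IsHomogeneous.sum
      intro j _
      exact (isHomogeneous_X ℂ j).C_mul _)
    rw [one_mul] at this
    exact this
  · intro h0
    apply h.ne
    have : bind₁ (mv N X : Fin 3 → MvPolynomial (Fin 3) ℂ) (bind₁ (mv M X) F) = F := by
      have := aeval_lin M F (mv N X : Fin 3 → MvPolynomial (Fin 3) ℂ)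
      rw [mv_mv M N hMN, aeval_X_left_apply] at this
      exact this
    rw [← this, h0, map_zero]
  · intro s hs
    obtain ⟨s', hs', rfl⟩ := List.mem_map.1 hs
    obtain ⟨h1, h2⟩ := h.mult s' hs'
    refine ⟨fun h0 => h1 ?_, ?_⟩
    · rw [← hNinj s'.1]
      simp only at h0
      rw [h0]
      funext i; simp [mv]
    · intro R _ _ a t y
      rw [aeval_lin, mv_smul_add]
      simp only [hNinj]
      exact h2 R a t _
  · intro c hc
    obtain ⟨c', hc', rfl⟩ := List.mem_map.1 hc
    obtain ⟨h1, h2⟩ := h.chart c' hc'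
    constructor
    · have e0 : c0 (mv N c'.1) = mv N (c0 c'.1) := by
        funext i
        simp only [c0, mv, map_sum, map_mul, Algebra.algebraMap_self, RingHom.id_apply,
          algebraMap_eq, constantCoeff_C]
      have e1 : du (mv N c'.1) = mv N (du c'.1) := by
        funext i
        simp only [du, mv, map_sum, Algebra.algebraMap_self, RingHom.id_apply,
          algebraMap_eq]
        apply Finset.sum_congr rfl
        intro j _
        simp
      have e2 : dv (mv N c'.1) = mv N (dv c'.1) := by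
        funext i
        simp only [dv, mv, map_sum, Algebra.algebraMap_self, RingHom.id_apply,
          algebraMap_eq]
        apply Finset.sum_congr rfl
        intro j _
        simp
      simp only
      rw [e0, e1, e2, dt_mv]
      exact mul_ne_zero hdet h1
    · have : bind₁ (mv N c'.1) (bind₁ (mv M X) F) = bind₁ c'.1 F := by
        have := aeval_lin M F (mv N c'.1)
        rw [mv_mv M N hMN] at this
        exact this
      simp only
      rw [this]
      exact h2
  · rw [hpts, List.pairwise_map]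
    refine h.pw.imp ?_
    intro x y hxy
    obtain ⟨z, hz⟩ := hxy
    exact ⟨mv N z, by rw [dt_mv]; exact mul_ne_zero hdet hz⟩
  · intro x hx hs
    have hs' : Sing F (mv M x) := by
      intro z hz
      have := hs (mv N z) (by
        intro i
        have : (mv N z i).fst = mv N (fun j => (z j).fst) i := by
          have := hom_mv (fstHom ℂ ℂ ℂ) N z i
          simpa using this
        rw [this]
        have e : (fun j => (z j).fst) = mv M x := funext hz
        rw [e, mv_mv N M hNM])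
      rw [aeval_lin, mv_mv M N hMN] at this
      exact this
    have hx' : mv M x ≠ 0 := by
      intro h0
      apply hx
      rw [← mv_mv N M hNM x, h0]
      funext i; simp [mv]
    obtain ⟨y, hy, c, hc⟩ := h.cov _ hx' hs'
    refine ⟨mv N y, ?_, c, ?_⟩
    · rw [hpts]; exact List.mem_map_of_mem hy
    · rw [← mv_mv N M hNM x, hc]
      funext i
      simp only [mv, Pi.smul_apply, smul_eq_mul, Algebra.algebraMap_self, RingHom.id_apply,
        Finset.mul_sum]
      apply Finset.sum_congr rfl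
      intro j _
      ring

end

end Pool.Agent.H878.HC
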