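import Mathlib
import Pool.Agent.H878.HCState

set_option autoImplicit false

open TrivSqZeroExt MvPolynomial

namespace Pool.Agent.H878.HC

noncomputable section

/-- `F'` is the Cremona transform of `F` divided by `X0^m` -/
def Crem (F F' : MvPolynomial (Fin 3) ℂ) (m : ℕ) : Prop :=
  ∀ (R : Type) [CommRing R] [Algebra ℂ R] (p q r : R),
    p ^ m * ev F' p q r = ev F (q * r) (p * r) (p * q)

theorem bind_eq_ev (F : MvPolynomial (Fin 3) ℂ) (φ : Ch) : bind₁ φ F = ev F (φ 0) (φ 1) (φ 2) :=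
  aeval_eq_ev F φ

theorem X4_not_dvd_of_eval (w : MvPolynomial (Fin 5) ℂ) (v : Fin 4 → ℂ)
    (h : eval ![v 0, v 1, v 2, v 3, 0] w ≠ 0) : ¬ (X 4 : MvPolynomial (Fin 5) ℂ) ∣ w := by
  rintro ⟨c, rfl⟩
  apply h
  simp

theorem crem_e0 {d m : ℕ} {F F' : MvPolynomial (Fin 3) ℂ} (hF : F.IsHomogeneous d)
    (hG : Crem F F' m) : MultGE F' ![1, 0, 0] d := by
  apply MultGE_of_univ
  have h1 : (X 4 : MvPolynomial (Fin 5) ℂ) ^ d ∣
      (X 0 + X 4 * X 1) ^ m * ev F' (X 0 + X 4 * X 1) (X 4 * X 2) (X 4 * X 3) := by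
    rw [hG]
    refine ⟨ev F (X 4 * X 2 * X 3) ((X 0 + X 4 * X 1) * X 3) ((X 0 + X 4 * X 1) * X 2), ?_⟩
    rw [← ev_smul hF]
    congr 1 <;> ring
  have h2 : ¬ (X 4 : MvPolynomial (Fin 5) ℂ) ∣ (X 0 + X 4 * X 1) ^ m := by
    intro h
    have h3 := (X_prime (R := ℂ) (i := (4 : Fin 5))).dvd_of_dvd_pow h
    exact X4_not_dvd_of_eval _ ![1, 0, 0, 0] (by simp) h3
  have h3 := (X_prime (R := ℂ) (i := (4 : Fin 5))).pow_dvd_of_dvd_mul_left _ h2 h1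
  simpa using h3

theorem crem_e1 {d m : ℕ} {F F' : MvPolynomial (Fin 3) ℂ} (hF : F.IsHomogeneous d)
    (hG : Crem F F' m) : MultGE F' ![0, 1, 0] (d - m) := by
  apply MultGE_of_univ
  rcases le_total m d with hmd | hmd
  · obtain ⟨e, rfl⟩ := Nat.exists_eq_add_of_le hmd
    have h1 : (X 4 * X 1) ^ m * ev F' (X 4 * X 1) (X 0 + X 4 * X 2) (X 4 * X 3) =
        (X 4 : MvPolynomial (Fin 5) ℂ) ^ (m + e) *
          ev F ((X 0 + X 4 * X 2) * X 3) (X 4 * X 1 * X 3) (X 1 * (X 0 + X 4 * X 2)) := by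
      rw [hG, ← ev_smul hF]
      congr 1 <;> ring
    have h2 : (X 4 : MvPolynomial (Fin 5) ℂ) ^ e ∣
        (X 1) ^ m * ev F' (X 4 * X 1) (X 0 + X 4 * X 2) (X 4 * X 3) := by
      refine ⟨ev F ((X 0 + X 4 * X 2) * X 3) (X 4 * X 1 * X 3) (X 1 * (X 0 + X 4 * X 2)), ?_⟩
      have h0 : (X 4 : MvPolynomial (Fin 5) ℂ) ^ m ≠ 0 := pow_ne_zero _ (X_ne_zero _)
      apply mul_left_cancel₀ h0
      linear_combination h1
    have h3 : ¬ (X 4 : MvPolynomial (Fin 5) ℂ) ∣ (X 1) ^ m := by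
      intro h
      have h3 := (X_prime (R := ℂ) (i := (4 : Fin 5))).dvd_of_dvd_pow h
      exact X4_not_dvd_of_eval _ ![1, 1, 0, 0] (by simp) h3
    have h4 := (X_prime (R := ℂ) (i := (4 : Fin 5))).pow_dvd_of_dvd_mul_left _ h3 h2
    simpa using h4
  · rw [Nat.sub_eq_zero_of_le hmd]
    simp

theorem crem_e2 {d m : ℕ} {F F' : MvPolynomial (Fin 3) ℂ} (hF : F.IsHomogeneous d)
    (hG : Crem F F' m) : MultGE F' ![0, 0, 1] (d - m) := by
  apply MultGE_of_univ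
  rcases le_total m d with hmd | hmd
  · obtain ⟨e, rfl⟩ := Nat.exists_eq_add_of_le hmd
    have h1 : (X 4 * X 1) ^ m * ev F' (X 4 * X 1) (X 4 * X 2) (X 0 + X 4 * X 3) =
        (X 4 : MvPolynomial (Fin 5) ℂ) ^ (m + e) *
          ev F (X 2 * (X 0 + X 4 * X 3)) (X 1 * (X 0 + X 4 * X 3)) (X 4 * X 1 * X 2) := by
      rw [hG, ← ev_smul hF]
      congr 1 <;> ring
    have h2 : (X 4 : MvPolynomial (Fin 5) ℂ) ^ e ∣
        (X 1) ^ m * ev F' (X 4 * X 1) (X 4 * X 2) (X 0 + X 4 * X 3) := by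
      refine ⟨ev F (X 2 * (X 0 + X 4 * X 3)) (X 1 * (X 0 + X 4 * X 3)) (X 4 * X 1 * X 2), ?_⟩
      have h0 : (X 4 : MvPolynomial (Fin 5) ℂ) ^ m ≠ 0 := pow_ne_zero _ (X_ne_zero _)
      apply mul_left_cancel₀ h0
      linear_combination h1
    have h3 : ¬ (X 4 : MvPolynomial (Fin 5) ℂ) ∣ (X 1) ^ m := by
      intro h
      have h3 := (X_prime (R := ℂ) (i := (4 : Fin 5))).dvd_of_dvd_pow h
      exact X4_not_dvd_of_eval _ ![1, 1, 0, 0] (by simp) h3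
    have h4 := (X_prime (R := ℂ) (i := (4 : Fin 5))).pow_dvd_of_dvd_mul_left _ h3 h2
    simpa using h4
  · rw [Nat.sub_eq_zero_of_le hmd]
    simp

/-- the standard quadratic map on vectors -/
def sg {R : Type} [CommRing R] (x : Fin 3 → R) : Fin 3 → R := ![x 1 * x 2, x 0 * x 2, x 0 * x 1]

theorem crem_pt {m n : ℕ} {F F' : MvPolynomial (Fin 3) ℂ}
    (hG : Crem F F' m) (x : Pt) (h1 : x 1 ≠ 0) (h2 : x 2 ≠ 0)
    (hx : MultGE F x n) : MultGE F' (sg x) n := by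
  apply MultGE_of_univ
  simp only [sg, Matrix.cons_val_zero, Matrix.cons_val_one, Matrix.cons_val]
  set P0 : MvPolynomial (Fin 5) ℂ := X 0 * C (x 1 * x 2) + X 4 * X 1 with hP0
  set P1 : MvPolynomial (Fin 5) ℂ := X 0 * C (x 0 * x 2) + X 4 * X 2 with hP1
  set P2 : MvPolynomial (Fin 5) ℂ := X 0 * C (x 0 * x 1) + X 4 * X 3 with hP2
  have k1 : (X 4 : MvPolynomial (Fin 5) ℂ) ^ n ∣ P0 ^ m * ev F' P0 P1 P2 := by
    rw [hG]
    have := hx (MvPolynomial (Fin 5) ℂ) (X 0 ^ 2 * C (x 0 * x 1 * x 2)) (X 4)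
      ![X 0 * C (x 0 * x 2) * X 3 + X 0 * C (x 0 * x 1) * X 2 + X 4 * X 2 * X 3,
        X 0 * C (x 1 * x 2) * X 3 + X 0 * C (x 0 * x 1) * X 1 + X 4 * X 1 * X 3,
        X 0 * C (x 1 * x 2) * X 2 + X 0 * C (x 0 * x 2) * X 1 + X 4 * X 1 * X 2]
    rw [aeval_eq_ev] at this
    convert this using 2
    · rw [hP1, hP2]
      simp only [algebraMap_eq, map_mul, Matrix.cons_val_zero, Matrix.cons_val_one, Matrix.cons_val]
      ring
    · rw [hP0, hP2]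
      simp only [algebraMap_eq, map_mul, Matrix.cons_val_zero, Matrix.cons_val_one, Matrix.cons_val]
      ring
    · rw [hP0, hP1]
      simp only [algebraMap_eq, map_mul, Matrix.cons_val_zero, Matrix.cons_val_one, Matrix.cons_val]
      ring
  have k2 : ¬ (X 4 : MvPolynomial (Fin 5) ℂ) ∣ P0 ^ m := by
    intro h
    have h3 := (X_prime (R := ℂ) (i := (4 : Fin 5))).dvd_of_dvd_pow h
    exact X4_not_dvd_of_eval _ ![1, 0, 0, 0] (by rw [hP0]; simp [h1, h2]) h3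
  exact (X_prime (R := ℂ) (i := (4 : Fin 5))).pow_dvd_of_dvd_mul_left _ k2 k1

theorem crem_chart {d m : ℕ} {F F' : MvPolynomial (Fin 3) ℂ} (hF : F.IsHomogeneous d)
    (hG : Crem F F' m) (φ : Ch) (R : List (ℕ × ℕ)) (h0 : c0 φ 0 ≠ 0) (h1 : c0 φ 1 ≠ 0)
    (h2 : c0 φ 2 ≠ 0) (hd : dt (c0 φ) (du φ) (dv φ) ≠ 0) (hT : Typ (bind₁ φ F) R) :
    c0 (sg φ) = sg (c0 φ) ∧ dt (c0 (sg φ)) (du (sg φ)) (dv (sg φ)) ≠ 0 ∧
      Typ (bind₁ (sg φ) F') R := by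
  refine ⟨?_, ?_, ?_⟩
  · funext i
    fin_cases i <;> simp [c0, sg]
  · have : dt (c0 (sg φ)) (du (sg φ)) (dv (sg φ)) =
        (c0 φ 0 * c0 φ 1 * c0 φ 2) * dt (c0 φ) (du φ) (dv φ) := by
      simp only [dt, c0, du, dv, sg, Matrix.cons_val_zero, Matrix.cons_val_one, Matrix.cons_val,
        Derivation.leibniz, map_add, map_mul, smul_eq_mul]
      ring
    rw [this]
    exact mul_ne_zero (mul_ne_zero (mul_ne_zero h0 h1) h2) hd
  · refine hT.transfer (w1 := (φ 1 * φ 2) ^ m) (w2 := (φ 0 * φ 1 * φ 2) ^ d) ?_ ?_ ?_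
    · rw [bind_eq_ev, bind_eq_ev, ← ev_smul hF]
      simp only [sg, Matrix.cons_val_zero, Matrix.cons_val_one, Matrix.cons_val]
      rw [hG]
      congr 1 <;> ring
    · simp only [map_pow, map_mul]
      exact pow_ne_zero _ (mul_ne_zero h1 h2)
    · simp only [map_pow, map_mul]
      exact pow_ne_zero _ (mul_ne_zero (mul_ne_zero h0 h1) h2)

theorem decomp (g : MvPolynomial (Fin 2) ℂ) :
    ∃ α β : MvPolynomial (Fin 2) ℂ, g = C (constantCoeff g) + X 0 * α + X 1 * β ∧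
      constantCoeff α = constantCoeff (pderiv 0 g) ∧ constantCoeff β = constantCoeff (pderiv 1 g) := by
  have h : ∃ α β : MvPolynomial (Fin 2) ℂ, g = C (constantCoeff g) + X 0 * α + X 1 * β := by
    induction g using MvPolynomial.induction_on with
    | C a => exact ⟨0, 0, by simp⟩
    | add p q hp hq =>
      obtain ⟨a, b, h1⟩ := hp
      obtain ⟨c, e, h2⟩ := hq
      refine ⟨a + c, b + e, ?_⟩
      rw [map_add, map_add]
      linear_combination h1 + h2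
    | mul_X p i hp =>
      fin_cases i
      · exact ⟨p, 0, by simp; ring⟩
      · exact ⟨0, p, by simp; ring⟩
  obtain ⟨α, β, hg⟩ := h
  refine ⟨α, β, hg, ?_, ?_⟩
  · have := congrArg (fun f => constantCoeff (pderiv 0 f)) hg
    simp [pderiv_X] at this
    exact this.symm
  · have := congrArg (fun f => constantCoeff (pderiv 1 f)) hg
    simp [pderiv_X] at this
    exact this.symm

/-- blow-up substitution -/
def bl (g : MvPolynomial (Fin 2) ℂ) : MvPolynomial (Fin 2) ℂ := bind₁ ![X 0 * X 1, X 1] g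

theorem bl_coeff (g : MvPolynomial (Fin 2) ℂ) : constantCoeff (bl g) = constantCoeff g := by
  obtain ⟨α, β, hg, -, -⟩ := decomp g
  rw [hg]
  simp [bl]

theorem bl_pderiv (g : MvPolynomial (Fin 2) ℂ) : constantCoeff (pderiv 0 (bl g)) = 0 := by
  obtain ⟨α, β, hg, -, -⟩ := decomp g
  rw [hg]
  simp [bl, pderiv_X]

theorem crem_child {d m : ℕ} {F F' : MvPolynomial (Fin 3) ℂ} (hF : F.IsHomogeneous d)
    (φ : Ch) (R : List (ℕ × ℕ)) (hm : m = mm R)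
    (hG : Crem F F' m) (hφ : c0 φ = ![1, 0, 0])
    (h1 : dv φ 1 ≠ 0) (h2 : dv φ 2 ≠ 0)
    (hd : dt (c0 φ) (du φ) (dv φ) ≠ 0) (hT : Typ (bind₁ φ F) R) :
    ∃ φL : Ch, c0 φL = ![0, dv φ 2, dv φ 1] ∧ dt (c0 φL) (du φL) (dv φL) ≠ 0 ∧
      Typ (bind₁ φL F') (Lf R) := by
  obtain ⟨α0, β0, e0, ha0, hb0⟩ := decomp (φ 0)
  obtain ⟨α1, β1, e1, ha1, hb1⟩ := decomp (φ 1)
  obtain ⟨α2, β2, e2, ha2, hb2⟩ := decomp (φ 2)
  have f0 : constantCoeff (φ 0) = 1 := congrFun hφ 0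
  have f1 : constantCoeff (φ 1) = 0 := congrFun hφ 1
  have f2 : constantCoeff (φ 2) = 0 := congrFun hφ 2
  rw [f0, C_1] at e0
  rw [f1, C_0, zero_add] at e1
  rw [f2, C_0, zero_add] at e2
  set ψ0 := X 0 * bl α0 + bl β0 with hψ0
  set ψ1 := X 0 * bl α1 + bl β1 with hψ1
  set ψ2 := X 0 * bl α2 + bl β2 with hψ2
  have b0 : bl (φ 0) = 1 + X 1 * ψ0 := by
    rw [e0, hψ0]; simp [bl]; ring
  have b1 : bl (φ 1) = X 1 * ψ1 := by
    rw [e1, hψ1]; simp [bl]; ring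
  have b2 : bl (φ 2) = X 1 * ψ2 := by
    rw [e2, hψ2]; simp [bl]; ring
  have c1 : constantCoeff ψ1 = dv φ 1 := by
    rw [hψ1]; simp [bl_coeff, hb1, dv]
  have c2 : constantCoeff ψ2 = dv φ 2 := by
    rw [hψ2]; simp [bl_coeff, hb2, dv]
  have p1 : constantCoeff (pderiv 0 ψ1) = du φ 1 := by
    rw [hψ1]; simp [bl_pderiv, bl_coeff, ha1, du, pderiv_X]
  have p2 : constantCoeff (pderiv 0 ψ2) = du φ 2 := by
    rw [hψ2]; simp [bl_pderiv, bl_coeff, ha2, du, pderiv_X]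
  refine ⟨![X 1 * ψ1 * ψ2, (1 + X 1 * ψ0) * ψ2, (1 + X 1 * ψ0) * ψ1], ?_, ?_, ?_⟩
  · funext i
    fin_cases i <;> simp [c0, c1, c2]
  · have hd' : du φ 1 * dv φ 2 - du φ 2 * dv φ 1 ≠ 0 := by
      rw [hφ] at hd
      simpa [dt] using hd
    have : dt (c0 ![X 1 * ψ1 * ψ2, (1 + X 1 * ψ0) * ψ2, (1 + X 1 * ψ0) * ψ1])
        (du ![X 1 * ψ1 * ψ2, (1 + X 1 * ψ0) * ψ2, (1 + X 1 * ψ0) * ψ1])
        (dv ![X 1 * ψ1 * ψ2, (1 + X 1 * ψ0) * ψ2, (1 + X 1 * ψ0) * ψ1]) =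
        dv φ 1 * dv φ 2 * (du φ 1 * dv φ 2 - du φ 2 * dv φ 1) := by
      simp [dt, c0, du, dv, pderiv_X]
      simp only [c1, c2, p1, p2, du, dv]
      ring
    rw [this]
    exact mul_ne_zero (mul_ne_zero h1 h2) hd'
  · refine hT.blow (w1 := (ψ1 * ψ2) ^ m) (w2 := ((1 + X 1 * ψ0) * ψ1 * ψ2) ^ d) ?_ ?_ ?_
    · rw [← hm, bind_eq_ev, bind_eq_ev]
      have h3 : bind₁ ![X 0 * X 1, X 1] (ev F (φ 0) (φ 1) (φ 2)) = ev F (bl (φ 0)) (bl (φ 1)) (bl (φ 2)) :=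
        ev_hom (bind₁ ![X 0 * X 1, X 1]) F _ _ _
      rw [h3, ← ev_smul hF]
      simp only [Matrix.cons_val_zero, Matrix.cons_val_one, Matrix.cons_val]
      have h4 := hG _ (X 1 * ψ1 * ψ2) ((1 + X 1 * ψ0) * ψ2) ((1 + X 1 * ψ0) * ψ1)
      rw [show (ψ1 * ψ2) ^ m * (X 1 ^ m * ev F' (X 1 * ψ1 * ψ2) ((1 + X 1 * ψ0) * ψ2) ((1 + X 1 * ψ0) * ψ1))
        = (X 1 * ψ1 * ψ2) ^ m * ev F' (X 1 * ψ1 * ψ2) ((1 + X 1 * ψ0) * ψ2) ((1 + X 1 * ψ0) * ψ1) by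
          simp only [mul_pow]; ring, h4,
        b0, b1, b2]
      congr 1 <;> ring
    · rw [map_pow, map_mul, c1, c2]
      exact pow_ne_zero _ (mul_ne_zero h1 h2)
    · rw [map_pow, map_mul, map_mul, c1, c2]
      simp [h1, h2]

end

end Pool.Agent.H878.HC
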