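import Mathlib
import Pool.Agent.H878.HCCrem1

set_option autoImplicit false

open TrivSqZeroExt MvPolynomial

namespace Pool.Agent.H878.HC

noncomputable section

theorem exists_eval_ne {n : ℕ} (p : MvPolynomial (Fin n) ℂ) (h : p ≠ 0) : ∃ z, eval z p ≠ 0 := by
  by_contra hc
  push Not at hc
  exact h (MvPolynomial.funext (fun z => by rw [hc z, map_zero]))

theorem ev_self (F : MvPolynomial (Fin 3) ℂ) : ev F (X 0) (X 1) (X 2) = F := by
  rw [← aeval_eq_ev F (X : Fin 3 → MvPolynomial (Fin 3) ℂ)]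
  exact aeval_X_left_apply F

/-- the multiplicity of `F` at the chart point is at least `mm R` -/
theorem mult_chart {d : ℕ} {F : MvPolynomial (Fin 3) ℂ} (hF : F.IsHomogeneous d) (hne : F ≠ 0)
    (φ : Ch) (R : List (ℕ × ℕ)) (hφ : c0 φ = ![1, 0, 0])
    (ha1 : du φ 1 ≠ 0) (ha2 : du φ 2 ≠ 0) (hb1 : dv φ 1 ≠ 0) (hb2 : dv φ 2 ≠ 0)
    (hd : dt (c0 φ) (du φ) (dv φ) ≠ 0) (hT : Typ (bind₁ φ F) R) :
    MultGE F ![1, 0, 0] (mm R) := by
  have hd' : du φ 1 * dv φ 2 - du φ 2 * dv φ 1 ≠ 0 := by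
    rw [hφ] at hd
    simpa [dt] using hd
  set P : MvPolynomial (Fin 4) ℂ := ev F (X 0) (X 3 * X 1) (X 3 * X 2) with hP
  have hP0 : P ≠ 0 := by
    intro h0
    apply hne
    have := ev_hom (aeval (![X 0, X 1, X 2, 1] : Fin 4 → MvPolynomial (Fin 3) ℂ)) F
      (X 0) (X 3 * X 1) (X 3 * X 2)
    rw [← hP, h0] at this
    simp only [map_zero, map_mul, aeval_X, Matrix.cons_val_zero, Matrix.cons_val_one,
      Matrix.cons_val, one_mul] at this
    rw [ev_self] at this
    exact this.symm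
  obtain ⟨n, P', hP'1, hP'2⟩ := WfDvdMonoid.max_power_factor hP0
    (X_prime (R := ℂ) (i := (3 : Fin 4))).irreducible
  -- evaluate P in any algebra
  have hev : ∀ (S : Type) [CommRing S] [Algebra ℂ S] (a b c t : S),
      ev F a (t * b) (t * c) = t ^ n * aeval ![a, b, c, t] P' := by
    intro S _ _ a b c t
    have h1 := ev_hom (aeval (![a, b, c, t] : Fin 4 → S)) F (X 0) (X 3 * X 1) (X 3 * X 2)
    rw [← hP, hP'2] at h1
    simp only [map_mul, map_pow, aeval_X, Matrix.cons_val_zero, Matrix.cons_val_one,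
      Matrix.cons_val] at h1
    exact h1.symm
  -- homogeneity of P'
  have hhom : ∀ a b c l : ℂ, aeval ![l * a, l * b, l * c, 0] P' = l ^ d * aeval ![a, b, c, 0] P' := by
    have h1 : aeval ![X 4 * X 0, X 4 * X 1, X 4 * X 2, X 3] P' =
        (X 4 : MvPolynomial (Fin 5) ℂ) ^ d * aeval ![X 0, X 1, X 2, X 3] P' := by
      have h0 : (X 3 : MvPolynomial (Fin 5) ℂ) ^ n ≠ 0 := pow_ne_zero _ (X_ne_zero _)
      apply mul_left_cancel₀ h0
      have k1 := hev (MvPolynomial (Fin 5) ℂ) (X 4 * X 0) (X 4 * X 1) (X 4 * X 2) (X 3)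
      have k2 := hev (MvPolynomial (Fin 5) ℂ) (X 0) (X 1) (X 2) (X 3)
      have k3 := ev_smul hF (X 4 : MvPolynomial (Fin 5) ℂ) (X 0) (X 3 * X 1) (X 3 * X 2)
      have k4 : ev F (X 4 * X 0 : MvPolynomial (Fin 5) ℂ) (X 4 * (X 3 * X 1)) (X 4 * (X 3 * X 2)) =
          ev F (X 4 * X 0) (X 3 * (X 4 * X 1)) (X 3 * (X 4 * X 2)) := by
        congr 1 <;> ring
      rw [← k1, ← k4, k3, k2]
      ring
    intro a b c l
    have h2 := congrArg (aeval (![a, b, c, 0, l] : Fin 5 → ℂ)) h1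
    have f1 : (fun i => aeval (![a, b, c, 0, l] : Fin 5 → ℂ) ((![X 4 * X 0, X 4 * X 1, X 4 * X 2, X 3] :
        Fin 4 → MvPolynomial (Fin 5) ℂ) i)) = ![l * a, l * b, l * c, 0] := by
      funext i
      fin_cases i <;> simp
    have f2 : (fun i => aeval (![a, b, c, 0, l] : Fin 5 → ℂ) ((![X 0, X 1, X 2, X 3] :
        Fin 4 → MvPolynomial (Fin 5) ℂ) i)) = ![a, b, c, 0] := by
      funext i
      fin_cases i <;> simp
    rw [map_mul, map_pow, comp_aeval_apply, comp_aeval_apply, aeval_X, f1, f2] at h2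
    exact h2
  set P3 : MvPolynomial (Fin 3) ℂ := aeval ![X 0, X 1, X 2, 0] P' with hP3
  have hP3ne : P3 ≠ 0 := by
    intro h0
    apply hP'1
    have h1 := aeval_congr_dvd P' (X 3 : MvPolynomial (Fin 4) ℂ) X ![X 0, X 1, X 2, 0] (by
      intro i
      fin_cases i <;> simp)
    rw [aeval_X_left_apply] at h1
    have h2 : aeval (![X 0, X 1, X 2, 0] : Fin 4 → MvPolynomial (Fin 4) ℂ) P' = 0 := by
      have := congrArg (aeval (![X 0, X 1, X 2] : Fin 3 → MvPolynomial (Fin 4) ℂ)) h0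
      have f1 : (fun i => aeval (![X 0, X 1, X 2] : Fin 3 → MvPolynomial (Fin 4) ℂ)
          ((![X 0, X 1, X 2, 0] : Fin 4 → MvPolynomial (Fin 3) ℂ) i)) = ![X 0, X 1, X 2, 0] := by
        funext i
        fin_cases i
        · simp
        · simp
        · simp
        · exact map_zero _
      rw [hP3, comp_aeval_apply, map_zero, f1] at this
      exact this
    rwa [h2, sub_zero] at h1
  have hP3ev : ∀ a b c : ℂ, eval ![a, b, c] P3 = aeval ![a, b, c, 0] P' := by
    intro a b c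
    have := comp_aeval_apply (aeval (![a, b, c] : Fin 3 → ℂ)) (f := (![X 0, X 1, X 2, 0] : Fin 4 → MvPolynomial (Fin 3) ℂ)) P'
    rw [← hP3] at this
    rw [← coe_aeval_eq_eval]
    refine this.trans ?_
    congr 2
    funext i
    fin_cases i <;> simp
  have hnm : mm R ≤ n := by
    by_contra hlt
    push Not at hlt
    -- choose a good point
    have hprod : P3 * (X 0 * ((C (dv φ 2) * X 1 - C (dv φ 1) * X 2) * (C (du φ 1) * X 2 - C (du φ 2) * X 1))) ≠ 0 := by
      refine mul_ne_zero hP3ne (mul_ne_zero (X_ne_zero _) (mul_ne_zero ?_ ?_))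
      · intro h0
        have := congrArg (eval ![0, 1, 0]) h0
        simp [hb2] at this
      · intro h0
        have := congrArg (eval ![0, 0, 1]) h0
        simp [ha1] at this
    obtain ⟨z, hz⟩ := exists_eval_ne _ hprod
    have hzz : z = ![z 0, z 1, z 2] := by funext i; fin_cases i <;> rfl
    rw [map_mul, map_mul, map_mul] at hz
    have hz3 : eval z P3 ≠ 0 := left_ne_zero_of_mul hz
    have hz' := right_ne_zero_of_mul hz
    have hz0 : z 0 ≠ 0 := by simpa using left_ne_zero_of_mul hz'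
    have hz'' := right_ne_zero_of_mul hz'
    have hzx : dv φ 2 * z 1 - dv φ 1 * z 2 ≠ 0 := by simpa using left_ne_zero_of_mul hz''
    have hzy : du φ 1 * z 2 - du φ 2 * z 1 ≠ 0 := by simpa using right_ne_zero_of_mul hz''
    set D := du φ 1 * dv φ 2 - du φ 2 * dv φ 1 with hD
    set x := (dv φ 2 * z 1 - dv φ 1 * z 2) / (z 0 * D) with hx
    set y := (du φ 1 * z 2 - du φ 2 * z 1) / (z 0 * D) with hy
    have hx0 : x ≠ 0 := div_ne_zero hzx (mul_ne_zero hz0 hd')
    have hy0 : y ≠ 0 := div_ne_zero hzy (mul_ne_zero hz0 hd')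
    have hdiv := hT.complex 1 1 le_rfl le_rfl x y hx0 hy0
    rw [← mm_eq, pow_one] at hdiv
    obtain ⟨α1, β1, e1, hα1, hβ1⟩ := decomp (φ 1)
    obtain ⟨α2, β2, e2, hα2, hβ2⟩ := decomp (φ 2)
    have f0 : constantCoeff (φ 0) = 1 := congrFun hφ 0
    have f1 : constantCoeff (φ 1) = 0 := congrFun hφ 1
    have f2 : constantCoeff (φ 2) = 0 := congrFun hφ 2
    rw [f1, C_0, zero_add] at e1
    rw [f2, C_0, zero_add] at e2
    set W : Fin 2 → Polynomial ℂ := ![Polynomial.C x * Polynomial.X, Polynomial.C y * Polynomial.X] with hW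
    have hcc : ∀ g : MvPolynomial (Fin 2) ℂ, (aeval W g).coeff 0 = constantCoeff g := by
      intro g
      obtain ⟨a, b, hg, -, -⟩ := decomp g
      have e0 : constantCoeff g = constantCoeff g := rfl
      rw [hg]
      simp [hW, Polynomial.mul_coeff_zero]
    set B1 : Polynomial ℂ := Polynomial.C x * aeval W α1 + Polynomial.C y * aeval W β1 with hB1
    set B2 : Polynomial ℂ := Polynomial.C x * aeval W α2 + Polynomial.C y * aeval W β2 with hB2
    have hE : aeval W (bind₁ φ F) =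
        Polynomial.X ^ n * aeval ![aeval W (φ 0), B1, B2, Polynomial.X] P' := by
      rw [← hev, bind_eq_ev, ev_hom]
      congr 1
      · rw [e1, hB1]; simp [hW]; ring
      · rw [e2, hB2]; simp [hW]; ring
    rw [hE] at hdiv
    obtain ⟨e, he⟩ : ∃ e, mm R = n + (1 + e) := ⟨mm R - n - 1, by omega⟩
    rw [he, pow_add, mul_dvd_mul_iff_left (pow_ne_zero _ Polynomial.X_ne_zero), pow_add, pow_one] at hdiv
    have hdiv2 := dvd_of_mul_right_dvd hdiv
    rw [Polynomial.X_dvd_iff] at hdiv2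
    -- constant coefficient
    have hc : (aeval ![aeval W (φ 0), B1, B2, Polynomial.X] P').coeff 0 =
        (aeval ![1, x * du φ 1 + y * dv φ 1, x * du φ 2 + y * dv φ 2, 0] P') := by
      rw [Polynomial.coeff_zero_eq_eval_zero, ← Polynomial.coe_aeval_eq_eval]
      have h2 := comp_aeval_apply (Polynomial.aeval (R := ℂ) (0 : ℂ))
        (f := (![aeval W (φ 0), B1, B2, Polynomial.X] : Fin 4 → Polynomial ℂ)) P'
      refine h2.trans ?_
      congr 2
      funext i
      fin_cases i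
      · simp [← Polynomial.coeff_zero_eq_eval_zero, hcc, f0]
      · simp [← Polynomial.coeff_zero_eq_eval_zero, hcc, hB1, hα1, hβ1, du, dv, Polynomial.mul_coeff_zero]
      · simp [← Polynomial.coeff_zero_eq_eval_zero, hcc, hB2, hα2, hβ2, du, dv, Polynomial.mul_coeff_zero]
      · simp
    rw [hc] at hdiv2
    have hc2 := hdiv2
    apply hz3
    rw [hzz, hP3ev]
    have h5 := hhom 1 (x * du φ 1 + y * dv φ 1) (x * du φ 2 + y * dv φ 2) (z 0)
    rw [hc2, mul_zero] at h5
    have g1 : z 1 = z 0 * (x * du φ 1 + y * dv φ 1) := by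
      rw [hx, hy]; field_simp; rw [hD]; ring
    have g2 : z 2 = z 0 * (x * du φ 2 + y * dv φ 2) := by
      rw [hx, hy]; field_simp; rw [hD]; ring
    rw [mul_one, ← g1, ← g2] at h5
    exact h5
  intro S _ _ a t y
  rw [aeval_eq_ev]
  have h1 := hev S (a + t * y 0) (y 1) (y 2) t
  obtain ⟨e, he⟩ := Nat.exists_eq_add_of_le hnm
  refine ⟨t ^ e * aeval ![a + t * y 0, y 1, y 2, t] P', ?_⟩
  rw [← mul_assoc, ← pow_add, ← he, ← h1]
  simp

end

end Pool.Agent.H878.HC
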