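import Mathlib
import Pool.Agent.H878.HCCrem2

set_option autoImplicit false

open TrivSqZeroExt MvPolynomial

namespace Pool.Agent.H878.HC

noncomputable section

theorem m_le_d {d m : ℕ} {F : MvPolynomial (Fin 3) ℂ} (hF : F.IsHomogeneous d)
    (hm : MultGE F ![1, 0, 0] m) (h1 : ev F (0 : ℂ) 1 0 ≠ 0) : m ≤ d := by
  have h2 := hm (Polynomial ℂ) 0 Polynomial.X ![0, 1, 0]
  rw [aeval_eq_ev] at h2
  simp only [zero_mul, zero_add, Matrix.cons_val_zero, Matrix.cons_val_one, Matrix.cons_val] at h2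
  rw [ev_smul hF] at h2
  have h3 := ev_hom (Algebra.ofId ℂ (Polynomial ℂ)) F 0 1 0
  rw [map_zero, map_one] at h3
  rw [← h3] at h2
  by_contra hlt
  push Not at hlt
  rw [Polynomial.X_pow_dvd_iff] at h2
  have h4 := h2 d hlt
  have h5 : (Algebra.ofId ℂ (Polynomial ℂ)) (ev F 0 1 0) = Polynomial.C (ev F (0 : ℂ) 1 0) := rfl
  rw [h5, Polynomial.coeff_mul_C, Polynomial.coeff_X_pow, if_pos rfl, one_mul] at h4
  exact h1 h4

theorem exists_crem {d m : ℕ} {F : MvPolynomial (Fin 3) ℂ} (hF : F.IsHomogeneous d)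
    (hm : MultGE F ![1, 0, 0] m) : ∃ F' : MvPolynomial (Fin 3) ℂ, Crem F F' m ∧
      F'.IsHomogeneous (2 * d - m) := by
  obtain ⟨F', hF'⟩ := hm (MvPolynomial (Fin 3) ℂ) (X 1 * X 2) (X 0) ![0, X 2, X 1]
  rw [aeval_eq_ev] at hF'
  simp only [Matrix.cons_val_zero, Matrix.cons_val_one, Matrix.cons_val, map_one, mul_one, map_zero,
    mul_zero, add_zero, zero_add] at hF'
  refine ⟨F', ?_, ?_⟩
  · intro R _ _ p q r
    have h1 := congrArg (aeval (![p, q, r] : Fin 3 → R)) hF'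
    simp only [ev_hom, map_mul, map_pow, aeval_X, Matrix.cons_val_zero, Matrix.cons_val_one,
      Matrix.cons_val] at h1
    exact h1.symm
  · have hG : (ev F (X 1 * X 2 : MvPolynomial (Fin 3) ℂ) (X 0 * X 2) (X 0 * X 1)).IsHomogeneous (2 * d) := by
      have := IsHomogeneous.aeval hF (g := (![X 1 * X 2, X 0 * X 2, X 0 * X 1] : Fin 3 → MvPolynomial (Fin 3) ℂ))
        (n := 2) (by
          intro i
          fin_cases i
          · exact (isHomogeneous_X ℂ 1).mul (isHomogeneous_X ℂ 2)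
          · exact (isHomogeneous_X ℂ 0).mul (isHomogeneous_X ℂ 2)
          · exact (isHomogeneous_X ℂ 0).mul (isHomogeneous_X ℂ 1))
      exact this
    rw [hF'] at hG
    intro s hs
    have h1 : coeff (Finsupp.single 0 m + s) ((X 0 : MvPolynomial (Fin 3) ℂ) ^ m * F') = coeff s F' := by
      rw [X_pow_eq_monomial, coeff_monomial_mul, one_mul]
    have h2 := hG (d := Finsupp.single 0 m + s) (by rw [h1]; exact hs)
    rw [map_add] at h2
    have h3 : (Finsupp.weight (1 : Fin 3 → ℕ)) (Finsupp.single 0 m) = m := by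
      rw [Finsupp.weight_single]; simp
    omega

/-- nonsingularity along the new line, abstract version -/
theorem line_div {d m : ℕ} {F F' : MvPolynomial (Fin 3) ℂ} (hF : F.IsHomogeneous d)
    (hG : Crem F F' m) (φ : Ch) (hφ : c0 φ = ![1, 0, 0])
    (D : Type) [CommRing D] [Algebra ℂ D] (x y : D)
    (h1 : IsUnit (x * algebraMap ℂ D (du φ 1) + y * algebraMap ℂ D (dv φ 1)))
    (h2 : IsUnit (x * algebraMap ℂ D (du φ 2) + y * algebraMap ℂ D (dv φ 2)))
    (h0 : ev F' (0 : D) (x * algebraMap ℂ D (du φ 2) + y * algebraMap ℂ D (dv φ 2))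
      (x * algebraMap ℂ D (du φ 1) + y * algebraMap ℂ D (dv φ 1)) = 0) :
    (Polynomial.X : Polynomial D) ^ (m + 1) ∣
      aeval ![Polynomial.C x * Polynomial.X, Polynomial.C y * Polynomial.X] (bind₁ φ F) := by
  obtain ⟨α0, β0, e0, -, -⟩ := decomp (φ 0)
  obtain ⟨α1, β1, e1, hα1, hβ1⟩ := decomp (φ 1)
  obtain ⟨α2, β2, e2, hα2, hβ2⟩ := decomp (φ 2)
  have f0 : constantCoeff (φ 0) = 1 := congrFun hφ 0
  have f1 : constantCoeff (φ 1) = 0 := congrFun hφ 1
  have f2 : constantCoeff (φ 2) = 0 := congrFun hφ 2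
  rw [f1, C_0, zero_add] at e1
  rw [f2, C_0, zero_add] at e2
  set W : Fin 2 → Polynomial D := ![Polynomial.C x * Polynomial.X, Polynomial.C y * Polynomial.X] with hW
  have hcc : ∀ g : MvPolynomial (Fin 2) ℂ, (aeval W g).coeff 0 = algebraMap ℂ D (constantCoeff g) := by
    intro g
    obtain ⟨a, b, hg, -, -⟩ := decomp g
    rw [hg]
    simp [hW, Polynomial.mul_coeff_zero, Polynomial.algebraMap_apply]
  set A0 : Polynomial D := aeval W (φ 0) with hA0
  set B1 : Polynomial D := Polynomial.C x * aeval W α1 + Polynomial.C y * aeval W β1 with hB1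
  set B2 : Polynomial D := Polynomial.C x * aeval W α2 + Polynomial.C y * aeval W β2 with hB2
  have hE : aeval W (bind₁ φ F) = ev F A0 (Polynomial.X * B1) (Polynomial.X * B2) := by
    rw [bind_eq_ev, ev_hom]
    congr 1
    · rw [e1, hB1]; simp [hW]; ring
    · rw [e2, hB2]; simp [hW]; ring
  have cA : A0.coeff 0 = 1 := by rw [hA0, hcc, f0, map_one]
  have cB1 : B1.coeff 0 = x * algebraMap ℂ D (du φ 1) + y * algebraMap ℂ D (dv φ 1) := by
    rw [hB1]
    simp only [Polynomial.coeff_add, Polynomial.mul_coeff_zero, hcc, hα1, hβ1, Polynomial.coeff_C_zero, du, dv]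
  have cB2 : B2.coeff 0 = x * algebraMap ℂ D (du φ 2) + y * algebraMap ℂ D (dv φ 2) := by
    rw [hB2]
    simp only [Polynomial.coeff_add, Polynomial.mul_coeff_zero, hcc, hα2, hβ2, Polynomial.coeff_C_zero, du, dv]
  have hc := hG (Polynomial D) (Polynomial.X * B1 * B2) (A0 * B2) (A0 * B1)
  have hc2 : ev F (A0 * B2 * (A0 * B1)) (Polynomial.X * B1 * B2 * (A0 * B1)) (Polynomial.X * B1 * B2 * (A0 * B2))
      = (A0 * B1 * B2) ^ d * ev F A0 (Polynomial.X * B1) (Polynomial.X * B2) := by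
    rw [← ev_smul hF]
    congr 1 <;> ring
  rw [hc2, ← hE] at hc
  have hX : (Polynomial.X : Polynomial D) ∣ ev F' (Polynomial.X * B1 * B2) (A0 * B2) (A0 * B1) := by
    obtain ⟨g, hg⟩ := ev_congr F' (Polynomial.X : Polynomial D) (Polynomial.X * B1 * B2) (A0 * B2) (A0 * B1)
      0 (Polynomial.C (B2.coeff 0)) (Polynomial.C (B1.coeff 0)) ⟨B1 * B2, by ring⟩
      (by rw [Polynomial.X_dvd_iff]; simp [Polynomial.mul_coeff_zero, cA])
      (by rw [Polynomial.X_dvd_iff]; simp [Polynomial.mul_coeff_zero, cA])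
    rw [hg]
    have h5 := ev_hom (Polynomial.CAlgHom (R := ℂ) (A := D)) F' 0 (B2.coeff 0) (B1.coeff 0)
    have h6 : ev F' (0 : Polynomial D) (Polynomial.C (B2.coeff 0)) (Polynomial.C (B1.coeff 0)) = 0 := by
      have h7 : (Polynomial.CAlgHom (R := ℂ) (A := D)) (ev F' 0 (B2.coeff 0) (B1.coeff 0)) = 0 := by
        rw [cB1, cB2, h0, map_zero]
      rw [h7, map_zero] at h5
      exact h5.symm
    rw [h6, zero_add]
    exact dvd_mul_right _ _
  have hdiv : (Polynomial.X : Polynomial D) ^ (m + 1) ∣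
      (A0 * B1 * B2) ^ d * aeval W (bind₁ φ F) := by
    rw [← hc]
    obtain ⟨g, hg⟩ := hX
    rw [hg]
    refine ⟨(B1 * B2) ^ m * g, ?_⟩
    simp only [mul_pow]
    ring
  have hcop : IsCoprime ((Polynomial.X : Polynomial D) ^ (m + 1)) ((A0 * B1 * B2) ^ d) := by
    apply IsCoprime.pow
    have hu : IsUnit ((A0 * B1 * B2).coeff 0) := by
      rw [Polynomial.mul_coeff_zero, Polynomial.mul_coeff_zero, cA, cB1, cB2, one_mul]
      exact h1.mul h2
    obtain ⟨u, hu⟩ := hu
    refine ⟨-(Polynomial.C (↑u⁻¹ : D) * Polynomial.divX (A0 * B1 * B2)), Polynomial.C (↑u⁻¹ : D), ?_⟩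
    have h := Polynomial.divX_mul_X_add (A0 * B1 * B2)
    have h2 : Polynomial.C ((A0 * B1 * B2).coeff 0) * Polynomial.C (↑u⁻¹ : D) = 1 := by
      rw [← Polynomial.C_mul, ← hu, Units.mul_inv, Polynomial.C_1]
    linear_combination h2 - Polynomial.C (↑u⁻¹ : D) * h
  exact hcop.dvd_of_dvd_mul_left hdiv

theorem isUnit_DD (w : DD) (h : w.fst ≠ 0) : IsUnit w := by
  obtain ⟨s, _, hs⟩ := dinv w h
  exact IsUnit.of_mul_eq_one _ hs

/-- no singular point on the new line away from the two toric points -/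
theorem line_ns {d m d' : ℕ} {F F' : MvPolynomial (Fin 3) ℂ} (hF : F.IsHomogeneous d)
    (hF' : F'.IsHomogeneous d')
    (φ : Ch) (R : List (ℕ × ℕ)) (hm : m = mm R)
    (hG : Crem F F' m) (hφ : c0 φ = ![1, 0, 0]) (hT : Typ (bind₁ φ F) R)
    (x : Pt) (hx0 : x 0 = 0) (hx1 : x 1 ≠ 0) (hx2 : x 2 ≠ 0) (u c : ℂ) (hu : u ≠ 0)
    (h1 : x 1 = c * (u * du φ 2 + dv φ 2)) (h2 : x 2 = c * (u * du φ 1 + dv φ 1))
    (hs : Sing F' x) : False := by
  have hc : c ≠ 0 := by rintro rfl; simp [h1] at hx1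
  have hb2 : u * du φ 2 + dv φ 2 ≠ 0 := by intro h; simp [h1, h] at hx1
  have hb1 : u * du φ 1 + dv φ 1 ≠ 0 := by intro h; simp [h2, h] at hx2
  obtain ⟨x', y', hx', hy', hn⟩ := (hT 1 1 le_rfl le_rfl).2 u 1 hu one_ne_zero
  apply hn
  rw [← mm_eq, ← hm]
  have h3 := line_div hF hG φ hφ DD x' y'
    (isUnit_DD _ (by
      rw [fst_add, fst_mul, fst_mul, hx', hy', TrivSqZeroExt.algebraMap_eq_inl, fst_inl, fst_inl, one_mul]
      exact hb1))
    (isUnit_DD _ (by
      rw [fst_add, fst_mul, fst_mul, hx', hy', TrivSqZeroExt.algebraMap_eq_inl, fst_inl, fst_inl, one_mul]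
      exact hb2))
    (by
      set b2 : DD := x' * algebraMap ℂ DD (du φ 2) + y' * algebraMap ℂ DD (dv φ 2) with hb2'
      set b1 : DD := x' * algebraMap ℂ DD (du φ 1) + y' * algebraMap ℂ DD (dv φ 1) with hb1'
      have h4 := hs ![inl c * 0, inl c * b2, inl c * b1] (by
        intro i
        fin_cases i
        · simp [hx0]
        · simp only [Fin.mk_one, Matrix.cons_val_one, Matrix.cons_val_zero]
          rw [fst_mul, fst_inl, hb2', fst_add, fst_mul, fst_mul, hx', hy', TrivSqZeroExt.algebraMap_eq_inl,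
            fst_inl, fst_inl, one_mul]
          exact h1.symm
        · simp only [Fin.reduceFinMk, Matrix.cons_val]
          rw [fst_mul, fst_inl, hb1', fst_add, fst_mul, fst_mul, hx', hy', TrivSqZeroExt.algebraMap_eq_inl,
            fst_inl, fst_inl, one_mul]
          exact h2.symm)
      rw [aeval_eq_ev] at h4
      simp only [Matrix.cons_val_zero, Matrix.cons_val_one, Matrix.cons_val] at h4
      rw [ev_smul hF'] at h4
      exact (((isUnit_DD (inl c) (by simpa)).pow d').mul_right_eq_zero).1 h4)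
  unfold EE
  rw [pow_one]
  exact h3

end

end Pool.Agent.H878.HC
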