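import Mathlib
import Pool.Agent.H878.HCBase
import Pool.Agent.H878.HCRays

set_option autoImplicit false

open MvPolynomial TrivSqZeroExt

namespace Pool.Agent.H878.HC

noncomputable section

def al {R : Type} [CommRing R] (p q r : R) : R := p * q + p * r - q * r
def be {R : Type} [CommRing R] (p q r : R) : R := p * q + q * r - p * r
def ga {R : Type} [CommRing R] (p q r : R) : R := p * r + q * r - p * q

def F0 : MvPolynomial (Fin 3) ℂ :=
  X 0 ^ 2 * X 1 ^ 2 + X 0 ^ 2 * X 2 ^ 2 + X 1 ^ 2 * X 2 ^ 2 -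
    C 2 * (X 0 * X 1 * X 2 * (X 0 + X 1 + X 2))

def FF : ℕ → MvPolynomial (Fin 3) ℂ
  | 0 => F0
  | k + 1 => bind₁ ![(al (X 0) (X 1) (X 2)) ^ 2, (be (X 0) (X 1) (X 2)) ^ 2,
      (ga (X 0) (X 1) (X 2)) ^ 2] (FF k)

section
variable {R : Type} [CommRing R] [Algebra ℂ R]

theorem ev_FF_zero (p q r : R) : ev (FF 0) p q r =
    p ^ 2 * q ^ 2 + p ^ 2 * r ^ 2 + q ^ 2 * r ^ 2 - 2 * (p * q * r * (p + q + r)) := by
  simp [FF, F0, ev, map_ofNat]

theorem ev_FF_succ (k : ℕ) (p q r : R) : ev (FF (k + 1)) p q r =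
    ev (FF k) (al p q r ^ 2) (be p q r ^ 2) (ga p q r ^ 2) := by
  rw [FF, ev_bind]
  simp [ev, al, be, ga]

end

theorem homog_al2 : ((al (X 0) (X 1) (X 2)) ^ 2 : MvPolynomial (Fin 3) ℂ).IsHomogeneous 4 := by
  have h01 : (X 0 * X 1 : MvPolynomial (Fin 3) ℂ).IsHomogeneous 2 := (isHomogeneous_X ℂ 0).mul (isHomogeneous_X ℂ 1)
  have h02 : (X 0 * X 2 : MvPolynomial (Fin 3) ℂ).IsHomogeneous 2 := (isHomogeneous_X ℂ 0).mul (isHomogeneous_X ℂ 2)
  have h12 : (X 1 * X 2 : MvPolynomial (Fin 3) ℂ).IsHomogeneous 2 := (isHomogeneous_X ℂ 1).mul (isHomogeneous_X ℂ 2)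
  exact ((h01.add h02).sub h12).pow 2

theorem homog_be2 : ((be (X 0) (X 1) (X 2)) ^ 2 : MvPolynomial (Fin 3) ℂ).IsHomogeneous 4 := by
  have h01 : (X 0 * X 1 : MvPolynomial (Fin 3) ℂ).IsHomogeneous 2 := (isHomogeneous_X ℂ 0).mul (isHomogeneous_X ℂ 1)
  have h02 : (X 0 * X 2 : MvPolynomial (Fin 3) ℂ).IsHomogeneous 2 := (isHomogeneous_X ℂ 0).mul (isHomogeneous_X ℂ 2)
  have h12 : (X 1 * X 2 : MvPolynomial (Fin 3) ℂ).IsHomogeneous 2 := (isHomogeneous_X ℂ 1).mul (isHomogeneous_X ℂ 2)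
  exact ((h01.add h12).sub h02).pow 2

theorem homog_ga2 : ((ga (X 0) (X 1) (X 2)) ^ 2 : MvPolynomial (Fin 3) ℂ).IsHomogeneous 4 := by
  have h01 : (X 0 * X 1 : MvPolynomial (Fin 3) ℂ).IsHomogeneous 2 := (isHomogeneous_X ℂ 0).mul (isHomogeneous_X ℂ 1)
  have h02 : (X 0 * X 2 : MvPolynomial (Fin 3) ℂ).IsHomogeneous 2 := (isHomogeneous_X ℂ 0).mul (isHomogeneous_X ℂ 2)
  have h12 : (X 1 * X 2 : MvPolynomial (Fin 3) ℂ).IsHomogeneous 2 := (isHomogeneous_X ℂ 1).mul (isHomogeneous_X ℂ 2)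
  exact ((h02.add h12).sub h01).pow 2

theorem FF_homog (k : ℕ) : (FF k).IsHomogeneous (4 ^ (k + 1)) := by
  induction k with
  | zero =>
    have h0 := isHomogeneous_X ℂ (0 : Fin 3)
    have h1 := isHomogeneous_X ℂ (1 : Fin 3)
    have h2 := isHomogeneous_X ℂ (2 : Fin 3)
    have a := (h0.pow 2).mul (h1.pow 2)
    have b := (h0.pow 2).mul (h2.pow 2)
    have c := (h1.pow 2).mul (h2.pow 2)
    have d := (((h0.mul h1).mul h2).mul ((h0.add h1).add h2)).C_mul (2 : ℂ)
    exact ((a.add b).add c).sub d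
  | succ k ih =>
    rw [pow_succ, mul_comm]
    refine IsHomogeneous.aeval ih _ ?_
    intro i
    fin_cases i
    · exact homog_al2
    · exact homog_be2
    · exact homog_ga2

theorem ev_FF_one (k : ℕ) : ev (FF k) (1 : ℂ) 1 1 = -3 := by
  induction k with
  | zero => rw [ev_FF_zero]; norm_num
  | succ k ih => rw [ev_FF_succ]; simpa [al, be, ga] using ih

theorem ev_FF_diag {R : Type} [CommRing R] [Algebra ℂ R] (k : ℕ) (s : R) :
    ev (FF k) s s s = s ^ (4 ^ (k + 1)) * algebraMap ℂ R (-3) := by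
  have h := ev_smul (FF_homog k) s 1 1 1
  rw [mul_one] at h
  rw [h]
  have h2 := ev_hom (Algebra.ofId ℂ R) (FF k) 1 1 1
  rw [ev_FF_one] at h2
  simp only [map_one] at h2
  rw [← h2]
  rfl

theorem ev_FF_diag_ne (k : ℕ) (s : ℂ) (hs : s ≠ 0) : ev (FF k) s s s ≠ 0 := by
  rw [ev_FF_diag]
  simp [hs]

theorem ev_FF_p0 (k : ℕ) (q r : ℂ) (hq : q ≠ 0) (hr : r ≠ 0) : ev (FF k) 0 q r ≠ 0 := by
  cases k with
  | zero => rw [ev_FF_zero]; simp [hq, hr]
  | succ k =>
    rw [ev_FF_succ]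
    have h1 : al 0 q r ^ 2 = (q * r) ^ 2 := by simp [al]
    have h2 : be 0 q r ^ 2 = (q * r) ^ 2 := by simp [be]
    have h3 : ga 0 q r ^ 2 = (q * r) ^ 2 := by simp [ga]
    rw [h1, h2, h3]
    exact ev_FF_diag_ne k _ (by positivity)

theorem ev_FF_cyc {R : Type} [CommRing R] [Algebra ℂ R] (k : ℕ) (p q r : R) :
    ev (FF k) q r p = ev (FF k) p q r := by
  induction k generalizing p q r with
  | zero => rw [ev_FF_zero, ev_FF_zero]; ring
  | succ k ih =>
    rw [ev_FF_succ, ev_FF_succ]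
    have h1 : al q r p = be p q r := by simp only [al, be]; ring
    have h2 : be q r p = ga p q r := by simp only [ga, be]; ring
    have h3 : ga q r p = al p q r := by simp only [al, ga]; ring
    rw [h1, h2, h3]
    exact ih _ _ _

theorem ev_FF_q0 (k : ℕ) (p r : ℂ) (hp : p ≠ 0) (hr : r ≠ 0) : ev (FF k) p 0 r ≠ 0 := by
  rw [← ev_FF_cyc]
  exact ev_FF_p0 k r p hr hp

theorem ev_FF_r0 (k : ℕ) (p q : ℂ) (hp : p ≠ 0) (hq : q ≠ 0) : ev (FF k) p q 0 ≠ 0 := by
  rw [← ev_FF_cyc]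
  exact ev_FF_q0 k q p hq hp

theorem fst_two : (2 : DD).fst = 2 := rfl

/-- the étale lifting property of the doubling map -/
theorem Phi_lift (p q r : ℂ) (hp : p ≠ 0) (hq : q ≠ 0) (hr : r ≠ 0)
    (ha : al p q r ≠ 0) (hb : be p q r ≠ 0) (hc : ga p q r ≠ 0)
    (A B G : DD) (hA : A.fst = al p q r ^ 2) (hB : B.fst = be p q r ^ 2) (hG : G.fst = ga p q r ^ 2) :
    ∃ p' q' r' : DD, p'.fst = p ∧ q'.fst = q ∧ r'.fst = r ∧ al p' q' r' ^ 2 = A ∧
      be p' q' r' ^ 2 = B ∧ ga p' q' r' ^ 2 = G := by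
  obtain ⟨a, ha1, rfl⟩ := dsqrt A _ ha hA
  obtain ⟨b, hb1, rfl⟩ := dsqrt B _ hb hB
  obtain ⟨g, hg1, rfl⟩ := dsqrt G _ hc hG
  obtain ⟨h2, h2f, h2i⟩ := dinv (2 : DD) (by rw [fst_two]; norm_num)
  -- qr, pr, pq
  obtain ⟨P, hP⟩ : ∃ P, P = (b + g) * h2 := ⟨_, rfl⟩
  obtain ⟨Q, hQ⟩ : ∃ Q, Q = (a + g) * h2 := ⟨_, rfl⟩
  obtain ⟨R, hR⟩ : ∃ R, R = (a + b) * h2 := ⟨_, rfl⟩
  have hPf : P.fst = q * r := by
    simp only [hP, fst_mul, fst_add, hb1, hg1, h2f, be, ga, fst_two]
    ring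
  have hQf : Q.fst = p * r := by
    simp only [hQ, fst_mul, fst_add, ha1, hg1, h2f, al, ga, fst_two]
    ring
  have hRf : R.fst = p * q := by
    simp only [hR, fst_mul, fst_add, hb1, ha1, h2f, be, al, fst_two]
    ring
  obtain ⟨P', hP'f, hP'i⟩ := dinv P (by rw [hPf]; positivity)
  obtain ⟨p', hp'f, hp'2⟩ := dsqrt (Q * R * P') p hp (by
    rw [fst_mul, fst_mul, hQf, hRf, hP'f, hPf]
    field_simp)
  obtain ⟨i, hif, hii⟩ := dinv p' (by rw [hp'f]; exact hp)
  have hqr : (R * i) * (Q * i) = P := by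
    linear_combination (-(R * Q * i ^ 2)) * hP'i - (P * i ^ 2) * hp'2 + P * (p' * i + 1) * hii
  have hpq : p' * (R * i) = R := by linear_combination R * hii
  have hpr : p' * (Q * i) = Q := by linear_combination Q * hii
  refine ⟨p', R * i, Q * i, hp'f, ?_, ?_, ?_, ?_, ?_⟩
  · rw [fst_mul, hRf, hif, hp'f]; field_simp
  · rw [fst_mul, hQf, hif, hp'f]; field_simp
  · congr 1
    unfold al
    rw [hqr, hpq, hpr, hP, hQ, hR]
    linear_combination a * h2i
  · congr 1
    unfold be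
    rw [hqr, hpq, hpr, hP, hQ, hR]
    linear_combination b * h2i
  · congr 1
    unfold ga
    rw [hqr, hpq, hpr, hP, hQ, hR]
    linear_combination g * h2i

/-- smoothness in the torus -/
theorem FF_NS (k : ℕ) : ∀ p q r : ℂ, p ≠ 0 → q ≠ 0 → r ≠ 0 →
    ∃ p' q' r' : DD, p'.fst = p ∧ q'.fst = q ∧ r'.fst = r ∧ ev (FF k) p' q' r' ≠ 0 := by
  induction k with
  | zero =>
    intro p q r hp hq hr
    by_contra hcon
    push Not at hcon
    have key : ∀ a b c : ℂ, (2 * p * q ^ 2 + 2 * p * r ^ 2 - 4 * p * q * r - 2 * q ^ 2 * r - 2 * q * r ^ 2) * a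
        + (2 * p ^ 2 * q + 2 * q * r ^ 2 - 4 * p * q * r - 2 * p ^ 2 * r - 2 * p * r ^ 2) * b
        + (2 * p ^ 2 * r + 2 * q ^ 2 * r - 4 * p * q * r - 2 * p ^ 2 * q - 2 * p * q ^ 2) * c = 0 := by
      intro a b c
      have h := hcon (inl p + inr a) (inl q + inr b) (inl r + inr c) (by simp) (by simp) (by simp)
      rw [ev_FF_zero] at h
      have h' := congrArg TrivSqZeroExt.snd h
      simp [sq, fst_two] at h'
      have h2s : (2 : DD).snd = 0 := rfl
      simp [h2s] at h'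
      linear_combination h'
    have k1 := key 1 0 0
    have k2 := key 0 1 0
    have k3 := key 0 0 1
    simp only [mul_one, mul_zero, add_zero, zero_add] at k1 k2 k3
    have hP : (q * r) * (q * r - p * r - p * q) = 0 := by
      linear_combination (q * k2 + r * k3 - p * k1) / 4
    have hQ : (p * r) * (p * r - q * r - p * q) = 0 := by
      linear_combination (p * k1 + r * k3 - q * k2) / 4
    have hP' : q * r - p * r - p * q = 0 := by
      rcases mul_eq_zero.1 hP with h | h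
      · exact absurd h (by positivity)
      · exact h
    have hQ' : p * r - q * r - p * q = 0 := by
      rcases mul_eq_zero.1 hQ with h | h
      · exact absurd h (by positivity)
      · exact h
    have : 2 * (p * q) = 0 := by linear_combination -hP' - hQ'
    simp [hp, hq] at this
  | succ k ih =>
    intro p q r hp hq hr
    by_cases ha : al p q r = 0
    · have hb : be p q r ≠ 0 := by
        intro hb
        have : 2 * (p * q) = 0 := by simp only [al, be] at ha hb; linear_combination ha + hb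
        simp [hp, hq] at this
      have hc : ga p q r ≠ 0 := by
        intro hc
        have : 2 * (p * r) = 0 := by simp only [al, ga] at ha hc; linear_combination ha + hc
        simp [hp, hr] at this
      refine ⟨inl p, inl q, inl r, by simp, by simp, by simp, ?_⟩
      have h0 := ev_hom (inlAlgHom ℂ ℂ ℂ) (FF (k + 1)) p q r
      intro h
      apply ev_FF_p0 k (be p q r ^ 2) (ga p q r ^ 2) (by positivity) (by positivity)
      have h1 : (inlAlgHom ℂ ℂ ℂ) (ev (FF (k + 1)) p q r) = 0 := by rw [h0]; exact h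
      have h2 : ev (FF (k + 1)) p q r = 0 := by
        have := congrArg TrivSqZeroExt.fst h1
        simpa using this
      rw [ev_FF_succ, ha] at h2
      simpa using h2
    by_cases hb : be p q r = 0
    · have hc : ga p q r ≠ 0 := by
        intro hc
        have : 2 * (q * r) = 0 := by simp only [be, ga] at hb hc; linear_combination hb + hc
        simp [hq, hr] at this
      refine ⟨inl p, inl q, inl r, by simp, by simp, by simp, ?_⟩
      have h0 := ev_hom (inlAlgHom ℂ ℂ ℂ) (FF (k + 1)) p q r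
      intro h
      apply ev_FF_q0 k (al p q r ^ 2) (ga p q r ^ 2) (by positivity) (by positivity)
      have h1 : (inlAlgHom ℂ ℂ ℂ) (ev (FF (k + 1)) p q r) = 0 := by rw [h0]; exact h
      have h2 : ev (FF (k + 1)) p q r = 0 := by
        have := congrArg TrivSqZeroExt.fst h1
        simpa using this
      rw [ev_FF_succ, hb] at h2
      simpa using h2
    by_cases hc : ga p q r = 0
    · refine ⟨inl p, inl q, inl r, by simp, by simp, by simp, ?_⟩
      have h0 := ev_hom (inlAlgHom ℂ ℂ ℂ) (FF (k + 1)) p q r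
      intro h
      apply ev_FF_r0 k (al p q r ^ 2) (be p q r ^ 2) (by positivity) (by positivity)
      have h1 : (inlAlgHom ℂ ℂ ℂ) (ev (FF (k + 1)) p q r) = 0 := by rw [h0]; exact h
      have h2 : ev (FF (k + 1)) p q r = 0 := by
        have := congrArg TrivSqZeroExt.fst h1
        simpa using this
      rw [ev_FF_succ, hc] at h2
      simpa using h2
    obtain ⟨A, B, G, hA, hB, hG, hne⟩ := ih (al p q r ^ 2) (be p q r ^ 2) (ga p q r ^ 2)
      (by positivity) (by positivity) (by positivity)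
    obtain ⟨p', q', r', h1, h2, h3, h4, h5, h6⟩ := Phi_lift p q r hp hq hr ha hb hc A B G hA hB hG
    refine ⟨p', q', r', h1, h2, h3, ?_⟩
    rw [ev_FF_succ, h4, h5, h6]
    exact hne

/-- nonvanishing gradient of `F(S,S,T)` -/
theorem FF_E (k : ℕ) : ∀ s t : ℂ, s ≠ 0 → t ≠ 0 →
    ∃ s' t' : DD, s'.fst = s ∧ t'.fst = t ∧ ev (FF k) s' s' t' ≠ 0 := by
  induction k with
  | zero =>
    intro s t hs ht
    by_contra hcon
    push Not at hcon
    have h := hcon (inl s) (inl t + inr 1) (by simp) (by simp)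
    rw [ev_FF_zero] at h
    have h' := congrArg TrivSqZeroExt.snd h
    have h2s : (2 : DD).snd = 0 := rfl
    simp [sq, fst_two, h2s] at h'
    have : s ^ 3 * 4 = 0 := by linear_combination -h'
    simp [hs] at this
  | succ k ih =>
    intro s t hs ht
    by_cases h0 : 2 * t - s = 0
    · refine ⟨inl s, inl t, by simp, by simp, ?_⟩
      have h0' := ev_hom (inlAlgHom ℂ ℂ ℂ) (FF (k + 1)) s s t
      intro h
      apply ev_FF_r0 k ((s ^ 2) ^ 2) ((s ^ 2) ^ 2) (by positivity) (by positivity)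
      have h1 : (inlAlgHom ℂ ℂ ℂ) (ev (FF (k + 1)) s s t) = 0 := by rw [h0']; exact h
      have h2 : ev (FF (k + 1)) s s t = 0 := by
        have := congrArg TrivSqZeroExt.fst h1
        simpa using this
      rw [ev_FF_succ] at h2
      have e1 : al s s t = s ^ 2 := by simp only [al]; ring
      have e2 : be s s t = s ^ 2 := by simp only [be]; ring
      have e3 : ga s s t = 0 := by simp only [ga]; linear_combination s * h0
      rw [e1, e2, e3] at h2
      simpa using h2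
    · obtain ⟨s1, t1, hs1, ht1, hne⟩ := ih (s ^ 2) ((2 * t - s) ^ 2) (by positivity) (by positivity)
      obtain ⟨s', hs'f, hs'2⟩ := dsqrt s1 s hs hs1
      obtain ⟨u, huf, hu2⟩ := dsqrt t1 (2 * t - s) h0 ht1
      obtain ⟨h2, h2f, h2i⟩ := dinv (2 : DD) (by rw [fst_two]; norm_num)
      refine ⟨s', (u + s') * h2, hs'f, ?_, ?_⟩
      · simp only [fst_mul, fst_add, huf, hs'f, h2f, fst_two]
        ring
      · rw [ev_FF_succ]
        have e1 : al s' s' ((u + s') * h2) ^ 2 = s1 * s1 := by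
          rw [← hs'2]; simp only [al]; ring
        have e2 : be s' s' ((u + s') * h2) ^ 2 = s1 * s1 := by
          rw [← hs'2]; simp only [be]; ring
        have e3 : ga s' s' ((u + s') * h2) ^ 2 = s1 * t1 := by
          rw [← hs'2, ← hu2]; simp only [ga]
          linear_combination (s' ^ 2 * (2 * h2 * (u + s')^2 * 1) * 1 - 2 * s'^3 * (u + s') + (u+s')^2*s'^2) * h2i
        rw [e1, e2, e3, ev_smul (FF_homog k)]
        intro h
        apply hne
        obtain ⟨i, hif, hii⟩ := dinv s1 (by rw [hs1]; positivity)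
        have : (s1 * i) ^ (4 ^ (k + 1)) * ev (FF k) s1 s1 t1 = 0 := by
          rw [mul_pow]
          linear_combination (i ^ (4 ^ (k + 1))) * h
        rw [hii] at this
        simpa using this

end

end Pool.Agent.H878.HC
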