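import Mathlib
import Pool.Agent.H878.HCFk

set_option autoImplicit false

open MvPolynomial TrivSqZeroExt

namespace Pool.Agent.H878.HC

noncomputable section

def HasLead (F : MvPolynomial (Fin 3) ℂ) (A B H : ℕ) (Q : MvPolynomial (Fin 3) ℂ) : Prop :=
  ∀ (R : Type) [CommRing R] [Algebra ℂ R] (t x y z : R), ∃ g : R,
    ev F (x * t ^ A) (x * t ^ A + y * t ^ B) z = t ^ H * (ev Q x y z + t * g)

def ND3 (Q : MvPolynomial (Fin 3) ℂ) : Prop :=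
  ∀ x y z : ℂ, x ≠ 0 → y ≠ 0 → z ≠ 0 →
    ∃ x' y' z' : DD, x'.fst = x ∧ y'.fst = y ∧ z'.fst = z ∧ ev Q x' y' z' ≠ 0

theorem lead_step (k A B A' h : ℕ) (hAB : A < B) (hA : 1 ≤ A) (Q P : MvPolynomial (Fin 3) ℂ)
    (hQ : HasLead (FF k) A' B h Q)
    (hal : ∀ (R : Type) [CommRing R] [Algebra ℂ R] (t x y z : R), ∃ s : R,
      al (x * t ^ A) (x * t ^ A + y * t ^ B) z ^ 2 = t ^ (2 * A) * t ^ A' * (ev P x y z + t * s)) :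
    HasLead (FF (k + 1)) A B (2 * 4 ^ (k + 1) * A + h)
      (bind₁ ![P, C 4 * X 0 ^ 2 * X 1 * X 2, C 4 * X 0 ^ 2 * X 2 ^ 2] Q) := by
  intro R _ _ t x y z
  obtain ⟨s, hs⟩ := hal R t x y z
  obtain ⟨D, rfl⟩ : ∃ D, B = A + 1 + D := ⟨B - A - 1, by omega⟩
  obtain ⟨A1, rfl⟩ : ∃ A1, A = A1 + 1 := ⟨A - 1, by omega⟩
  set x' := ev P x y z + t * s with hx'
  set y' := 4 * x * (x + y * t ^ (D + 1)) * y * z with hy'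
  set z' := (2 * x * z + y * z * t ^ (D + 1) - x * t ^ (A1 + 1) * (x + y * t ^ (D + 1))) ^ 2 with hz'
  obtain ⟨g, hg⟩ := hQ R t x' y' z'
  obtain ⟨g2, hg2⟩ := ev_congr Q t x' y' z' (ev P x y z) (4 * x ^ 2 * y * z) (4 * x ^ 2 * z ^ 2)
    ⟨s, by rw [hx']; ring⟩
    ⟨4 * x * y ^ 2 * z * t ^ D, by rw [hy']; ring⟩
    ⟨(y * z * t ^ D - x * t ^ A1 * (x + y * t ^ (D + 1))) *
      (4 * x * z + y * z * t ^ (D + 1) - x * t ^ (A1 + 1) * (x + y * t ^ (D + 1))), by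
        rw [hz']; ring⟩
  refine ⟨g + g2, ?_⟩
  rw [ev_FF_succ, hs]
  have h2 : be (x * t ^ (A1 + 1)) (x * t ^ (A1 + 1) + y * t ^ (A1 + 1 + 1 + D)) z ^ 2 =
      t ^ (2 * (A1 + 1)) * (x' * t ^ A' + y' * t ^ (A1 + 1 + 1 + D)) := by
    have : t ^ (2 * (A1 + 1)) * (x' * t ^ A' + y' * t ^ (A1 + 1 + 1 + D)) =
      t ^ (2 * (A1 + 1)) * t ^ A' * x' + t ^ (2 * (A1 + 1)) * (y' * t ^ (A1 + 1 + 1 + D)) := by ring
    rw [this, hx', ← hs, hy']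
    simp only [al, be]
    ring
  have h3 : ga (x * t ^ (A1 + 1)) (x * t ^ (A1 + 1) + y * t ^ (A1 + 1 + 1 + D)) z ^ 2 =
      t ^ (2 * (A1 + 1)) * z' := by
    rw [hz']
    simp only [ga]
    ring
  rw [h2, h3, mul_assoc (t ^ (2 * (A1 + 1))), mul_comm (t ^ A') x', ev_smul (FF_homog k), hg, hg2, ev_bind]
  have h5 : ev (C 4 * X 0 ^ 2 * X 1 * X 2) x y z = 4 * x ^ 2 * y * z := by
    simp [ev, map_ofNat]
  have h6 : ev (C 4 * X 0 ^ 2 * X 2 ^ 2) x y z = 4 * x ^ 2 * z ^ 2 := by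
    simp [ev, map_ofNat]
  rw [h5, h6, ← pow_mul]
  have : 2 * (A1 + 1) * 4 ^ (k + 1) = 2 * 4 ^ (k + 1) * (A1 + 1) := by ring
  rw [this]
  ring

/-- case `A > B` -/
theorem lead_gt (k A B : ℕ) (hAB : B < A) (hB : 1 ≤ B) :
    HasLead (FF (k + 1)) A B (2 * 4 ^ (k + 1) * B)
      (bind₁ ![X 1 ^ 2 * X 2 ^ 2, X 1 ^ 2 * X 2 ^ 2, X 1 ^ 2 * X 2 ^ 2] (FF k)) := by
  intro R _ _ t x y z
  obtain ⟨D, rfl⟩ : ∃ D, A = B + 1 + D := ⟨A - B - 1, by omega⟩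
  obtain ⟨B1, rfl⟩ : ∃ B1, B = B1 + 1 := ⟨B - 1, by omega⟩
  set s1 : R := x * t ^ D * t ^ (B1 + 1) * (x * t ^ (D + 1) + y) with hs1
  have h1 : al (x * t ^ (B1 + 1 + 1 + D)) (x * t ^ (B1 + 1 + 1 + D) + y * t ^ (B1 + 1)) z ^ 2
      = t ^ (2 * (B1 + 1)) * (-(y * z) + t * s1) ^ 2 := by
    rw [hs1]; simp only [al]; ring
  have h2 : be (x * t ^ (B1 + 1 + 1 + D)) (x * t ^ (B1 + 1 + 1 + D) + y * t ^ (B1 + 1)) z ^ 2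
      = t ^ (2 * (B1 + 1)) * ((y * z) + t * s1) ^ 2 := by
    rw [hs1]; simp only [be]; ring
  have h3 : ga (x * t ^ (B1 + 1 + 1 + D)) (x * t ^ (B1 + 1 + 1 + D) + y * t ^ (B1 + 1)) z ^ 2
      = t ^ (2 * (B1 + 1)) * ((y * z) + t * (2 * x * t ^ D * z - s1)) ^ 2 := by
    rw [hs1]; simp only [ga]; ring
  obtain ⟨g, hg⟩ := ev_congr (FF k) t ((-(y * z) + t * s1) ^ 2) (((y * z) + t * s1) ^ 2)
    (((y * z) + t * (2 * x * t ^ D * z - s1)) ^ 2) (y ^ 2 * z ^ 2) (y ^ 2 * z ^ 2) (y ^ 2 * z ^ 2)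
    ⟨s1 * (-2 * (y * z) + t * s1), by ring⟩ ⟨s1 * (2 * (y * z) + t * s1), by ring⟩
    ⟨(2 * x * t ^ D * z - s1) * (2 * (y * z) + t * (2 * x * t ^ D * z - s1)), by ring⟩
  refine ⟨g, ?_⟩
  rw [ev_FF_succ, h1, h2, h3, ev_smul (FF_homog k), hg, ev_bind]
  have h5 : ev (X 1 ^ 2 * X 2 ^ 2) x y z = y ^ 2 * z ^ 2 := by
    simp [ev, map_ofNat]
  rw [h5, ← pow_mul]
  have : 2 * (B1 + 1) * 4 ^ (k + 1) = 2 * 4 ^ (k + 1) * (B1 + 1) := by ring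
  rw [this]

/-- case `A = B` -/
theorem lead_eq (k A : ℕ) (hA : 1 ≤ A) :
    HasLead (FF (k + 1)) A A (2 * 4 ^ (k + 1) * A)
      (bind₁ ![X 1 ^ 2 * X 2 ^ 2, X 1 ^ 2 * X 2 ^ 2, (C 2 * X 0 + X 1) ^ 2 * X 2 ^ 2] (FF k)) := by
  intro R _ _ t x y z
  obtain ⟨B1, rfl⟩ : ∃ B1, A = B1 + 1 := ⟨A - 1, by omega⟩
  set s1 : R := x * t ^ B1 * (x + y) with hs1
  have h1 : al (x * t ^ (B1 + 1)) (x * t ^ (B1 + 1) + y * t ^ (B1 + 1)) z ^ 2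
      = t ^ (2 * (B1 + 1)) * (-(y * z) + t * s1) ^ 2 := by
    rw [hs1]; simp only [al]; ring
  have h2 : be (x * t ^ (B1 + 1)) (x * t ^ (B1 + 1) + y * t ^ (B1 + 1)) z ^ 2
      = t ^ (2 * (B1 + 1)) * ((y * z) + t * s1) ^ 2 := by
    rw [hs1]; simp only [be]; ring
  have h3 : ga (x * t ^ (B1 + 1)) (x * t ^ (B1 + 1) + y * t ^ (B1 + 1)) z ^ 2
      = t ^ (2 * (B1 + 1)) * (((2 * x + y) * z) + t * (- s1)) ^ 2 := by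
    rw [hs1]; simp only [ga]; ring
  obtain ⟨g, hg⟩ := ev_congr (FF k) t ((-(y * z) + t * s1) ^ 2) (((y * z) + t * s1) ^ 2)
    ((((2 * x + y) * z) + t * (- s1)) ^ 2) (y ^ 2 * z ^ 2) (y ^ 2 * z ^ 2) ((2 * x + y) ^ 2 * z ^ 2)
    ⟨s1 * (-2 * (y * z) + t * s1), by ring⟩ ⟨s1 * (2 * (y * z) + t * s1), by ring⟩
    ⟨(- s1) * (2 * ((2 * x + y) * z) + t * (- s1)), by ring⟩
  refine ⟨g, ?_⟩
  rw [ev_FF_succ, h1, h2, h3, ev_smul (FF_homog k), hg, ev_bind]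
  have h5 : ev (X 1 ^ 2 * X 2 ^ 2) x y z = y ^ 2 * z ^ 2 := by
    simp [ev, map_ofNat]
  have h6 : ev ((C 2 * X 0 + X 1) ^ 2 * X 2 ^ 2) x y z = (2 * x + y) ^ 2 * z ^ 2 := by
    simp [ev, map_ofNat]
  rw [h5, h6, ← pow_mul]
  have : 2 * (B1 + 1) * 4 ^ (k + 1) = 2 * 4 ^ (k + 1) * (B1 + 1) := by ring
  rw [this]

/-- values at complex points from values at constant dual numbers -/
theorem ev_inl (F : MvPolynomial (Fin 3) ℂ) (p q r : ℂ) :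
    ev F (inl p : DD) (inl q) (inl r) = inl (ev F p q r) :=
  (ev_hom (inlAlgHom ℂ ℂ ℂ) F p q r).symm

theorem ev_inl_ne (F : MvPolynomial (Fin 3) ℂ) (p q r : ℂ) (h : ev F p q r ≠ 0) :
    ev F (inl p : DD) (inl q) (inl r) ≠ 0 := by
  rw [ev_inl]
  intro h'
  apply h
  have := congrArg TrivSqZeroExt.fst h'
  simpa using this

/-- base case, `A > B` -/
theorem lead_zero_gt (A B : ℕ) (hAB : B < A) :
    HasLead (FF 0) A B (2 * B) (X 1 ^ 2 * X 2 ^ 2) := by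
  intro R _ _ t x y z
  obtain ⟨D, rfl⟩ : ∃ D, A = B + 1 + D := ⟨A - B - 1, by omega⟩
  have h6 : ev (X 1 ^ 2 * X 2 ^ 2) x y z = y ^ 2 * z ^ 2 := by
    simp [ev, map_ofNat]
  rw [h6, ev_FF_zero]
  refine ⟨(x * t ^ D) ^ 2 * t * (t ^ B) ^ 2 * (x * t ^ D * t + y) ^ 2 -
    2 * x * t ^ D * t ^ B * (x * t ^ D * t + y) * z * (2 * x * t ^ D * t + y), ?_⟩
  ring

theorem lead_zero_le1 (A D : ℕ) (h : 2 * D < A) :
    HasLead (FF 0) A (A + D) (2 * (A + D)) (X 1 ^ 2 * X 2 ^ 2) := by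
  intro R _ _ t x y z
  obtain ⟨G, rfl⟩ : ∃ G, A = 2 * D + 1 + G := ⟨A - 2 * D - 1, by omega⟩
  have h6 : ev (X 1 ^ 2 * X 2 ^ 2) x y z = y ^ 2 * z ^ 2 := by
    simp [ev, map_ofNat]
  rw [h6, ev_FF_zero]
  refine ⟨x ^ 2 * (t ^ D) ^ 2 * t * (t ^ G) ^ 2 * (x + y * t ^ D) ^ 2 -
    2 * x * t ^ G * (x + y * t ^ D) * z * (2 * x + y * t ^ D), ?_⟩
  ring

theorem lead_zero_le2 (A D : ℕ) (hA : 1 ≤ A) (hD : 1 ≤ D) (h : A < 2 * D) :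
    HasLead (FF 0) A (A + D) (3 * A) (C (-4) * X 0 ^ 3 * X 2) := by
  intro R _ _ t x y z
  obtain ⟨G, hG⟩ : ∃ G, 2 * D = A + 1 + G := ⟨2 * D - A - 1, by omega⟩
  obtain ⟨A1, hA1⟩ : ∃ A1, A = A1 + 1 := ⟨A - 1, by omega⟩
  obtain ⟨D1, hD1⟩ : ∃ D1, D = D1 + 1 := ⟨D - 1, by omega⟩
  have h6 : ev (C (-4) * X 0 ^ 3 * X 2) x y z = -4 * x ^ 3 * z := by
    simp [ev, map_ofNat]
  rw [h6, ev_FF_zero]
  have e : (t ^ D) ^ 2 = t ^ A * t * t ^ G := by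
    rw [← pow_mul, mul_comm D 2, hG]; ring
  have eA : t ^ A = t * t ^ A1 := by rw [hA1]; ring
  have eD : t ^ D = t * t ^ D1 := by rw [hD1]; ring
  refine ⟨x ^ 2 * t ^ A1 * (x + y * t ^ D) ^ 2 + z ^ 2 * y ^ 2 * t ^ G -
    2 * x * z * (3 * x * y + y ^ 2 * t ^ D) * t ^ D1, ?_⟩
  have e3 : t ^ (3 * A) = (t ^ A) ^ 3 := by rw [← pow_mul, mul_comm]
  rw [e3, pow_add]
  linear_combination (y ^ 2 * z ^ 2 * (t ^ A) ^ 2) * e + (x ^ 2 * (t ^ A) ^ 3 * (x + y * t ^ D) ^ 2) * eA -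
    (t ^ A) ^ 3 * (2 * x * z * (3 * x * y + y ^ 2 * t ^ D)) * eD

theorem lead_zero_le3 (A D : ℕ) (hD : 1 ≤ D) (h : A = 2 * D) :
    HasLead (FF 0) A (A + D) (3 * A) (X 1 ^ 2 * X 2 ^ 2 + C (-4) * X 0 ^ 3 * X 2) := by
  intro R _ _ t x y z
  obtain ⟨D1, hD1⟩ : ∃ D1, D = D1 + 1 := ⟨D - 1, by omega⟩
  have h6 : ev (X 1 ^ 2 * X 2 ^ 2 + C (-4) * X 0 ^ 3 * X 2) x y z = y ^ 2 * z ^ 2 -4 * x ^ 3 * z := by
    simp [ev, map_ofNat]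
    ring
  rw [h6, ev_FF_zero]
  have eD : t ^ D = t * t ^ D1 := by rw [hD1]; ring
  refine ⟨x ^ 2 * t ^ D1 * t ^ D * (x + y * t ^ D) ^ 2 -
    2 * x * z * (3 * x * y + y ^ 2 * t ^ D) * t ^ D1, ?_⟩
  have e3 : t ^ (3 * A) = (t ^ D) ^ 6 := by rw [← pow_mul, h]; ring
  have e4 : t ^ A = (t ^ D) ^ 2 := by rw [← pow_mul, h]; ring
  rw [e3, pow_add, e4]
  linear_combination (x ^ 2 * (t ^ D) ^ 7 * (x + y * t ^ D) ^ 2) * eD -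
    (t ^ D) ^ 6 * (2 * x * z * (3 * x * y + y ^ 2 * t ^ D)) * eD

end

end Pool.Agent.H878.HC
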