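import Mathlib
import Pool.Agent.H878.HCCrem3
import Pool.Agent.H878.HCLead

set_option autoImplicit false

open TrivSqZeroExt MvPolynomial

namespace Pool.Agent.H878.HC

noncomputable section

/-- singular points in the torus move to singular points -/
theorem torus_sing {m : ℕ} {F F' : MvPolynomial (Fin 3) ℂ}
    (hG : Crem F F' m) (x : Pt) (h0 : x 0 ≠ 0) (h1 : x 1 ≠ 0) (h2 : x 2 ≠ 0)
    (hs : Sing F' x) : Sing F (sg x) := by
  intro z hz
  -- lift z through the quadratic map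
  have hz0 : (z 0).fst = x 1 * x 2 := hz 0
  have hz1 : (z 1).fst = x 0 * x 2 := hz 1
  have hz2 : (z 2).fst = x 0 * x 1 := hz 2
  obtain ⟨P', hP'f, hP'i⟩ := dinv (z 0) (by rw [hz0]; exact mul_ne_zero h1 h2)
  obtain ⟨p', hp'f, hp'2⟩ := dsqrt (z 1 * z 2 * P') (x 0) h0 (by
    rw [fst_mul, fst_mul, hz1, hz2, hP'f, hz0]
    field_simp)
  obtain ⟨i, hif, hii⟩ := dinv p' (by rw [hp'f]; exact h0)
  have hqr : (z 2 * i) * (z 1 * i) = z 0 := by
    linear_combination (-(z 1 * z 2 * i ^ 2)) * hP'i - (z 0 * i ^ 2) * hp'2 + z 0 * (p' * i + 1) * hii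
  have hpq : p' * (z 2 * i) = z 2 := by linear_combination z 2 * hii
  have hpr : p' * (z 1 * i) = z 1 := by linear_combination z 1 * hii
  have h3 := hs ![p', z 2 * i, z 1 * i] (by
    intro j
    fin_cases j
    · exact hp'f
    · simp only [Fin.mk_one, Matrix.cons_val_one, Matrix.cons_val_zero]
      rw [fst_mul, hz2, hif, hp'f]; field_simp
    · simp only [Fin.reduceFinMk, Matrix.cons_val]
      rw [fst_mul, hz1, hif, hp'f]; field_simp)
  rw [aeval_eq_ev] at h3 ⊢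
  simp only [Matrix.cons_val_zero, Matrix.cons_val_one, Matrix.cons_val] at h3
  have h4 := hG DD p' (z 2 * i) (z 1 * i)
  rw [h3, mul_zero, hqr, hpq, hpr] at h4
  exact h4.symm

theorem Sing.value {F : MvPolynomial (Fin 3) ℂ} {x : Pt} (hs : Sing F x) :
    ev F (x 0) (x 1) (x 2) = 0 := by
  have h1 := hs (fun i => inl (x i)) (fun i => by simp)
  rw [aeval_eq_ev, ev_inl] at h1
  have := congrArg TrivSqZeroExt.fst h1
  simpa using this

theorem NP01 {x y : Pt} (h : x 0 * y 1 - x 1 * y 0 ≠ 0) : NP x y := by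
  refine ⟨![0, 0, 1], ?_⟩
  simpa [dt, sub_eq_add_neg] using h

theorem NP02 {x y : Pt} (h : x 0 * y 2 - x 2 * y 0 ≠ 0) : NP x y := by
  refine ⟨![0, 1, 0], fun h0 => h ?_⟩
  simp [dt] at h0
  linear_combination -h0

theorem NP12 {x y : Pt} (h : x 1 * y 2 - x 2 * y 1 ≠ 0) : NP x y := by
  refine ⟨![1, 0, 0], fun h0 => h ?_⟩
  simp [dt] at h0
  linear_combination h0

theorem NP_cases {x y : Pt} (h : NP x y) :
    x 0 * y 1 - x 1 * y 0 ≠ 0 ∨ x 0 * y 2 - x 2 * y 0 ≠ 0 ∨ x 1 * y 2 - x 2 * y 1 ≠ 0 := by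
  by_contra hc
  push Not at hc
  obtain ⟨z, hz⟩ := h
  apply hz
  simp only [dt]
  linear_combination z 0 * hc.2.2 - z 1 * hc.2.1 + z 2 * hc.1

theorem NP_sg {x y : Pt} (hx : ∀ i, x i ≠ 0) (hy : ∀ i, y i ≠ 0) (h : NP x y) :
    NP (sg x) (sg y) := by
  have hx0 := hx 0
  have hx1 := hx 1
  have hx2 := hx 2
  have hy0 := hy 0
  have hy1 := hy 1
  have hy2 := hy 2
  rcases NP_cases h with h | h | h
  · apply NP01
    simp only [sg, Matrix.cons_val_zero, Matrix.cons_val_one, Matrix.cons_val]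
    have : x 1 * x 2 * (y 0 * y 2) - x 0 * x 2 * (y 1 * y 2) = -(x 2 * y 2) * (x 0 * y 1 - x 1 * y 0) := by ring
    rw [this]
    exact mul_ne_zero (neg_ne_zero.2 (mul_ne_zero hx2 hy2)) h
  · apply NP02
    simp only [sg, Matrix.cons_val_zero, Matrix.cons_val]
    have : x 1 * x 2 * (y 0 * y 1) - x 0 * x 1 * (y 1 * y 2) = -(x 1 * y 1) * (x 0 * y 2 - x 2 * y 0) := by ring
    rw [this]
    exact mul_ne_zero (neg_ne_zero.2 (mul_ne_zero hx1 hy1)) h
  · apply NP12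
    simp only [sg, Matrix.cons_val_one, Matrix.cons_val, Matrix.cons_val_zero]
    have : x 0 * x 2 * (y 0 * y 1) - x 0 * x 1 * (y 0 * y 2) = -(x 0 * y 0) * (x 1 * y 2 - x 2 * y 1) := by ring
    rw [this]
    exact mul_ne_zero (neg_ne_zero.2 (mul_ne_zero hx0 hy0)) h

theorem mem_pts {S : List (Pt × ℕ)} {L : List (Ch × List (ℕ × ℕ))} {y : Pt} :
    y ∈ pts S L ↔ (∃ s ∈ S, s.1 = y) ∨ (∃ c ∈ L, c0 c.1 = y) := by
  simp [pts]

theorem c0_sg (φ : Ch) : c0 (sg φ) = sg (c0 φ) := by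
  funext i
  fin_cases i <;> simp [c0, sg]

theorem Typ.ne {φ : Ch} {F : MvPolynomial (Fin 3) ℂ} {R : List (ℕ × ℕ)} (h : Typ (bind₁ φ F) R) :
    F ≠ 0 := by
  rintro rfl
  obtain ⟨x, y, _, _, hn⟩ := (h 1 1 le_rfl le_rfl).2 1 1 one_ne_zero one_ne_zero
  apply hn
  simp [EE]

theorem crem_cov {d m d' : ℕ} {F F' : MvPolynomial (Fin 3) ℂ} {S : List (Pt × ℕ)} {φ : Ch}
    {R : List (ℕ × ℕ)} {L : List (Ch × List (ℕ × ℕ))}
    (h : St d F S ((φ, R) :: L)) (hF' : F'.IsHomogeneous d')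
    (hφ : c0 φ = ![1, 0, 0]) (hm : m = mm R)
    (hF1 : ev F (0 : ℂ) 1 0 ≠ 0) (hF2 : ev F (0 : ℂ) 0 1 ≠ 0)
    (hG : Crem F F' m) (hD : du φ 1 * dv φ 2 - du φ 2 * dv φ 1 ≠ 0)
    (x : Pt) (hx : x ≠ 0) (hs : Sing F' x) :
    (∃ c : ℂ, x = c • ![1, 0, 0] ∨ x = c • ![0, 1, 0] ∨ x = c • ![0, 0, 1] ∨
      x = c • ![0, dv φ 2, dv φ 1] ∨ x = c • ![0, du φ 2, du φ 1]) ∨
    (∃ y ∈ pts S L, ∃ c : ℂ, x = c • sg y) := by
  by_cases h0 : x 0 = 0
  · left
    by_cases h1 : x 1 = 0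
    · refine ⟨x 2, Or.inr (Or.inr (Or.inl ?_))⟩
      funext i; fin_cases i <;> simp [h0, h1]
    by_cases h2 : x 2 = 0
    · refine ⟨x 1, Or.inr (Or.inl ?_)⟩
      funext i; fin_cases i <;> simp [h0, h2]
    set D := du φ 1 * dv φ 2 - du φ 2 * dv φ 1 with hDD
    set s := (x 2 * dv φ 2 - x 1 * dv φ 1) / D with hs'
    set t := (x 1 * du φ 1 - x 2 * du φ 2) / D with ht'
    have e1 : x 1 = s * du φ 2 + t * dv φ 2 := by
      rw [hs', ht']; field_simp; rw [hDD]; ring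
    have e2 : x 2 = s * du φ 1 + t * dv φ 1 := by
      rw [hs', ht']; field_simp; rw [hDD]; ring
    by_cases ht : t = 0
    · refine ⟨s, Or.inr (Or.inr (Or.inr (Or.inr ?_)))⟩
      funext i; fin_cases i
      · simp [h0]
      · simpa [ht] using e1
      · simpa [ht] using e2
    by_cases hss : s = 0
    · refine ⟨t, Or.inr (Or.inr (Or.inr (Or.inl ?_)))⟩
      funext i; fin_cases i
      · simp [h0]
      · simpa [hss] using e1
      · simpa [hss] using e2
    exfalso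
    have hT := (h.chart (φ, R) (by simp)).2
    refine line_ns h.hom hF' φ R hm hG hφ hT x h0 h1 h2 (s / t) t (div_ne_zero hss ht) ?_ ?_ hs
    · rw [e1]; field_simp
    · rw [e2]; field_simp
  have hv := hs.value
  have hGv := hG ℂ (x 0) (x 1) (x 2)
  rw [hv, mul_zero] at hGv
  by_cases h1 : x 1 = 0
  · by_cases h2 : x 2 = 0
    · left
      refine ⟨x 0, Or.inl ?_⟩
      funext i; fin_cases i <;> simp [h1, h2]
    · exfalso
      rw [h1, zero_mul, mul_zero] at hGv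
      have := ev_smul h.hom (x 0 * x 2) 0 1 0
      rw [mul_zero, mul_one, ← hGv] at this
      exact mul_ne_zero (pow_ne_zero _ (mul_ne_zero h0 h2)) hF1 this.symm
  by_cases h2 : x 2 = 0
  · exfalso
    rw [h2, mul_zero, mul_zero] at hGv
    have := ev_smul h.hom (x 0 * x 1) 0 0 1
    rw [mul_zero, mul_one, ← hGv] at this
    exact mul_ne_zero (pow_ne_zero _ (mul_ne_zero h0 h1)) hF2 this.symm
  right
  have hs2 := torus_sing hG x h0 h1 h2 hs
  have hne : sg x ≠ 0 := by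
    intro hc
    have := congrFun hc 0
    simp [sg, h1, h2] at this
  obtain ⟨y, hy, c, hc⟩ := h.cov _ hne hs2
  have hy' : y ∈ pts S L := by
    rw [mem_pts] at hy ⊢
    rcases hy with hy | ⟨c', hc', rfl⟩
    · exact Or.inl hy
    · rcases List.mem_cons.1 hc' with rfl | hc'
      · exfalso
        have := congrFun hc 1
        rw [hφ] at this
        simp [sg, h0, h2] at this
      · exact Or.inr ⟨c', hc', rfl⟩
  refine ⟨y, hy', c ^ 2 / (x 0 * x 1 * x 2), ?_⟩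
  have g0 : x 1 * x 2 = c * y 0 := by simpa [sg] using congrFun hc 0
  have g1 : x 0 * x 2 = c * y 1 := by simpa [sg] using congrFun hc 1
  have g2 : x 0 * x 1 = c * y 2 := by simpa [sg] using congrFun hc 2
  funext i
  fin_cases i
  · simp only [sg, Fin.zero_eta, Pi.smul_apply, Matrix.cons_val_zero, smul_eq_mul]
    field_simp
    linear_combination (x 0 * x 2) * g2 + (c * y 2) * g1
  · simp only [sg, Fin.mk_one, Pi.smul_apply, Matrix.cons_val_one, Matrix.cons_val_zero, smul_eq_mul]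
    field_simp
    linear_combination (x 1 * x 2) * g2 + (c * y 2) * g0
  · simp only [sg, Fin.reduceFinMk, Pi.smul_apply, Matrix.cons_val, smul_eq_mul]
    field_simp
    linear_combination (x 1 * x 2) * g1 + (c * y 1) * g0

end

end Pool.Agent.H878.HC
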