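import Mathlib
import Pool.Agent.H878.HCCrem4

set_option autoImplicit false

open TrivSqZeroExt MvPolynomial

namespace Pool.Agent.H878.HC

noncomputable section

def swc (φ : Ch) : Ch := fun i => bind₁ ![X 1, X 0] (φ i)

theorem swc_c0 (φ : Ch) : c0 (swc φ) = c0 φ := by
  funext i
  obtain ⟨α, β, hg, -, -⟩ := decomp (φ i)
  simp only [c0, swc]
  rw [hg]
  simp

theorem swc_du (φ : Ch) : du (swc φ) = dv φ := by
  funext i
  obtain ⟨α, β, hg, ha, hb⟩ := decomp (φ i)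
  simp only [du, dv, swc]
  rw [← hb]
  rw [hg]
  simp [pderiv_X]
  obtain ⟨α', β', hg', -, -⟩ := decomp β
  rw [hg']
  simp

theorem swc_dv (φ : Ch) : dv (swc φ) = du φ := by
  funext i
  obtain ⟨α, β, hg, ha, hb⟩ := decomp (φ i)
  simp only [du, dv, swc]
  rw [← ha]
  rw [hg]
  simp [pderiv_X]
  obtain ⟨α', β', hg', -, -⟩ := decomp α
  rw [hg']
  simp

theorem swc_typ {φ : Ch} {F : MvPolynomial (Fin 3) ℂ} {R : List (ℕ × ℕ)} (h : Typ (bind₁ φ F) R) :
    Typ (bind₁ (swc φ) F) (sw R) := by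
  have : bind₁ (swc φ) F = bind₁ ![X 1, X 0] (bind₁ φ F) := by
    rw [bind₁_bind₁]
    rfl
  rw [this]
  exact h.swap

/-- the Cremona step in normalised coordinates -/
theorem crem_St {d : ℕ} {F : MvPolynomial (Fin 3) ℂ} {S : List (Pt × ℕ)} {φ : Ch}
    {R : List (ℕ × ℕ)} {L : List (Ch × List (ℕ × ℕ))}
    (h : St d F S ((φ, R) :: L))
    (hφ : c0 φ = ![1, 0, 0])
    (hF1 : ev F (0 : ℂ) 1 0 ≠ 0) (hF2 : ev F (0 : ℂ) 0 1 ≠ 0)
    (hT : ∀ y ∈ pts S L, ∀ i, y i ≠ 0)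
    (ha1 : du φ 1 ≠ 0) (ha2 : du φ 2 ≠ 0) (hb1 : dv φ 1 ≠ 0) (hb2 : dv φ 2 ≠ 0) :
    mm R ≤ d ∧ ∃ (F' : MvPolynomial (Fin 3) ℂ) (φL φR : Ch), St (2 * d - mm R) F'
      ((![1, 0, 0], d) :: (![0, 1, 0], d - mm R) :: (![0, 0, 1], d - mm R) ::
        S.map (fun s => (sg s.1, s.2)))
      ((φL, Lf R) :: (φR, Rt R) :: L.map (fun c => (sg c.1, c.2))) := by
  have hch := h.chart (φ, R) (by simp)
  simp only at hch
  obtain ⟨hdt, htyp⟩ := hch
  have hD : du φ 1 * dv φ 2 - du φ 2 * dv φ 1 ≠ 0 := by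
    rw [hφ] at hdt
    simpa [dt] using hdt
  have hmult := mult_chart h.hom h.ne φ R hφ ha1 ha2 hb1 hb2 hdt htyp
  refine ⟨m_le_d h.hom hmult hF1, ?_⟩
  obtain ⟨F', hG, hF'⟩ := exists_crem h.hom hmult
  obtain ⟨φL, hL0, hLd, hLt⟩ := crem_child h.hom φ R rfl hG hφ hb1 hb2 hdt htyp
  have hdt' : dt (c0 (swc φ)) (du (swc φ)) (dv (swc φ)) ≠ 0 := by
    rw [swc_c0, swc_du, swc_dv]
    intro h0
    apply hdt
    unfold dt at *
    linear_combination -h0
  obtain ⟨φR, hR0, hRd, hRt⟩ := crem_child h.hom (swc φ) (sw R) (mm_sw R).symm hG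
    (by rw [swc_c0]; exact hφ) (by rw [swc_dv]; exact ha1) (by rw [swc_dv]; exact ha2) hdt' (swc_typ htyp)
  rw [swc_dv] at hR0
  rw [Lf_sw] at hRt
  refine ⟨F', φL, φR, ?_⟩
  -- points
  have hptsmap : ∀ y, y ∈ pts (S.map (fun s => (sg s.1, s.2))) (L.map (fun c => (sg c.1, c.2))) ↔
      ∃ z ∈ pts S L, y = sg z := by
    intro y
    rw [mem_pts]
    constructor
    · rintro (⟨s, hs, rfl⟩ | ⟨c, hc, rfl⟩)
      · obtain ⟨s', hs', rfl⟩ := List.mem_map.1 hs
        exact ⟨s'.1, mem_pts.2 (Or.inl ⟨s', hs', rfl⟩), rfl⟩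
      · obtain ⟨c', hc', rfl⟩ := List.mem_map.1 hc
        exact ⟨c0 c'.1, mem_pts.2 (Or.inr ⟨c', hc', rfl⟩), c0_sg _⟩
    · rintro ⟨z, hz, rfl⟩
      rcases mem_pts.1 hz with ⟨s, hs, rfl⟩ | ⟨c, hc, rfl⟩
      · exact Or.inl ⟨_, List.mem_map_of_mem hs, rfl⟩
      · exact Or.inr ⟨_, List.mem_map_of_mem hc, c0_sg _⟩
  have hptseq : pts (S.map (fun s => (sg s.1, s.2))) (L.map (fun c => (sg c.1, c.2))) =
      (pts S L).map sg := by
    unfold pts
    rw [List.map_append, List.map_map, List.map_map, List.map_map, List.map_map]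
    congr 1
    apply List.map_congr_left
    intro c _
    exact c0_sg _
  have hpwTL : (pts S L).Pairwise NP := by
    have h1 := h.pw
    unfold pts at h1 ⊢
    simp only [List.map_cons] at h1
    exact h1.sublist (List.Sublist.append (List.Sublist.refl _) (List.sublist_cons_self _ _))
  constructor
  · exact hF'
  · exact Typ.ne hLt
  · intro s hs
    rcases List.mem_cons.1 hs with rfl | hs
    · refine ⟨fun h0 => ?_, crem_e0 h.hom hG⟩
      have := congrFun h0 0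
      simp at this
    rcases List.mem_cons.1 hs with rfl | hs
    · refine ⟨fun h0 => ?_, crem_e1 h.hom hG⟩
      have := congrFun h0 1
      simp at this
    rcases List.mem_cons.1 hs with rfl | hs
    · refine ⟨fun h0 => ?_, crem_e2 h.hom hG⟩
      have := congrFun h0 2
      simp at this
    obtain ⟨s', hs', rfl⟩ := List.mem_map.1 hs
    have hnz := hT s'.1 (mem_pts.2 (Or.inl ⟨s', hs', rfl⟩))
    refine ⟨fun h0 => ?_, crem_pt hG s'.1 (hnz 1) (hnz 2) (h.mult s' hs').2⟩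
    have := congrFun h0 0
    simp [sg, hnz] at this
  · intro c hc
    rcases List.mem_cons.1 hc with rfl | hc
    · exact ⟨hLd, hLt⟩
    rcases List.mem_cons.1 hc with rfl | hc
    · exact ⟨hRd, hRt⟩
    obtain ⟨c', hc', rfl⟩ := List.mem_map.1 hc
    have hnz := hT (c0 c'.1) (mem_pts.2 (Or.inr ⟨c', hc', rfl⟩))
    have h1 := h.chart c' (List.mem_cons_of_mem _ hc')
    exact (crem_chart h.hom hG c'.1 c'.2 (hnz 0) (hnz 1) (hnz 2) h1.1 h1.2).2
  · -- pairwise
    have hperm : (pts ((![1, 0, 0], d) :: (![0, 1, 0], d - mm R) :: (![0, 0, 1], d - mm R) ::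
        S.map (fun s => (sg s.1, s.2)))
      ((φL, Lf R) :: (φR, Rt R) :: L.map (fun c => (sg c.1, c.2)))).Perm
      (![1, 0, 0] :: ![0, 1, 0] :: ![0, 0, 1] :: c0 φL :: c0 φR :: (pts S L).map sg) := by
      rw [← hptseq]
      simp only [pts, List.map_cons, List.cons_append]
      refine List.Perm.cons _ (List.Perm.cons _ (List.Perm.cons _ ?_))
      exact (List.perm_middle).trans (List.Perm.cons _ List.perm_middle)
    rw [List.Perm.pairwise_iff (fun h => NP.symm h) hperm]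
    have hsgne : ∀ z ∈ pts S L, ∀ i, sg z i ≠ 0 := by
      intro z hz i
      have := hT z hz
      fin_cases i <;> simp [sg, this]
    have q1 : NP (![1, 0, 0] : Pt) ![0, 1, 0] := NP01 (by simp)
    have q2 : NP (![1, 0, 0] : Pt) ![0, 0, 1] := NP02 (by simp)
    have q3 : NP (![0, 1, 0] : Pt) ![0, 0, 1] := NP12 (by simp)
    have q4 : ∀ a b : ℂ, a ≠ 0 → NP (![1, 0, 0] : Pt) ![0, a, b] := fun a b ha => NP01 (by simp [ha])
    have q5 : ∀ a b : ℂ, b ≠ 0 → NP (![0, 1, 0] : Pt) ![0, a, b] := fun a b ha => NP12 (by simp [ha])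
    have q6 : ∀ a b : ℂ, a ≠ 0 → NP (![0, 0, 1] : Pt) ![0, a, b] := fun a b ha => NP12 (by simp [ha])
    have q7 : ∀ z ∈ pts S L, NP (![1, 0, 0] : Pt) (sg z) := fun z hz => NP01 (by simp [hsgne z hz])
    have q8 : ∀ z ∈ pts S L, NP (![0, 1, 0] : Pt) (sg z) := fun z hz => NP12 (by simp [hsgne z hz])
    have q9 : ∀ z ∈ pts S L, NP (![0, 0, 1] : Pt) (sg z) := fun z hz => NP12 (by simp [hsgne z hz])
    have q10 : ∀ a b : ℂ, a ≠ 0 → ∀ z ∈ pts S L, NP (![0, a, b] : Pt) (sg z) :=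
      fun a b ha z hz => NP01 (by simp [hsgne z hz, ha])
    rw [hL0, hR0]
    simp only [List.pairwise_cons]
    refine ⟨?_, ?_, ?_, ?_, ?_, ?_⟩
    · intro y hy
      simp only [List.mem_cons, List.mem_map] at hy
      rcases hy with rfl | rfl | rfl | rfl | ⟨z, hz, rfl⟩
      · exact q1
      · exact q2
      · exact q4 _ _ hb2
      · exact q4 _ _ ha2
      · exact q7 z hz
    · intro y hy
      simp only [List.mem_cons, List.mem_map] at hy
      rcases hy with rfl | rfl | rfl | ⟨z, hz, rfl⟩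
      · exact q3
      · exact q5 _ _ hb1
      · exact q5 _ _ ha1
      · exact q8 z hz
    · intro y hy
      simp only [List.mem_cons, List.mem_map] at hy
      rcases hy with rfl | rfl | ⟨z, hz, rfl⟩
      · exact q6 _ _ hb2
      · exact q6 _ _ ha2
      · exact q9 z hz
    · intro y hy
      simp only [List.mem_cons, List.mem_map] at hy
      rcases hy with rfl | ⟨z, hz, rfl⟩
      · apply NP12
        simp only [Matrix.cons_val_one, Matrix.cons_val, Matrix.cons_val_zero]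
        intro h0
        apply hD
        linear_combination h0
      · exact q10 _ _ hb2 z hz
    · intro y hy
      simp only [List.mem_map] at hy
      obtain ⟨z, hz, rfl⟩ := hy
      exact q10 _ _ ha2 z hz
    · rw [List.pairwise_map]
      refine hpwTL.imp_of_mem ?_
      intro a b ha hb hab
      exact NP_sg (hT a ha) (hT b hb) hab
  · -- covering
    intro x hx hs
    rcases crem_cov h hF' hφ rfl hF1 hF2 hG hD x hx hs with ⟨c, hc⟩ | ⟨y, hy, c, hc⟩
    · rcases hc with hc | hc | hc | hc | hc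
      · exact ⟨_, mem_pts.2 (Or.inl ⟨_, List.mem_cons_self, rfl⟩), c, hc⟩
      · exact ⟨_, mem_pts.2 (Or.inl ⟨_, List.mem_cons_of_mem _ List.mem_cons_self, rfl⟩), c, hc⟩
      · exact ⟨_, mem_pts.2 (Or.inl ⟨_, List.mem_cons_of_mem _ (List.mem_cons_of_mem _ List.mem_cons_self), rfl⟩), c, hc⟩
      · refine ⟨c0 φL, mem_pts.2 (Or.inr ⟨_, List.mem_cons_self, rfl⟩), c, ?_⟩
        rw [hL0]; exact hc
      · refine ⟨c0 φR, mem_pts.2 (Or.inr ⟨_, List.mem_cons_of_mem _ List.mem_cons_self, rfl⟩), c, ?_⟩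
        rw [hR0]; exact hc
    · refine ⟨sg y, ?_, c, hc⟩
      have := (hptsmap (sg y)).2 ⟨y, hy, rfl⟩
      rw [mem_pts] at this ⊢
      rcases this with ⟨s, hs, h1⟩ | ⟨c, hc, h1⟩
      · exact Or.inl ⟨s, by simp [hs], h1⟩
      · exact Or.inr ⟨c, List.mem_cons_of_mem _ (List.mem_cons_of_mem _ hc), h1⟩

end

end Pool.Agent.H878.HC
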