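import Mathlib
import Pool.Agent.H878.HCStep

set_option autoImplicit false

open TrivSqZeroExt MvPolynomial

namespace Pool.Agent.H878.HC

noncomputable section

theorem aeval_eval (r : Pt) (F : MvPolynomial (Fin 3) ℂ) : aeval r F = eval r F := by
  rw [← coe_aeval_eq_eval]
  rfl

def dtp (x y : Pt) : MvPolynomial (Fin 3) ℂ :=
  C (x 1 * y 2 - x 2 * y 1) * X 0 - C (x 0 * y 2 - x 2 * y 0) * X 1 + C (x 0 * y 1 - x 1 * y 0) * X 2

theorem eval_dtp (x y r : Pt) : eval r (dtp x y) = dt x y r := by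
  simp [dtp, dt]
  ring

theorem exists_good (T : List (Pt × Pt)) : ∀ (G : MvPolynomial (Fin 3) ℂ), G ≠ 0 →
    (∀ t ∈ T, NP t.1 t.2) → ∃ r : Pt, eval r G ≠ 0 ∧ ∀ t ∈ T, dt t.1 t.2 r ≠ 0 := by
  induction T with
  | nil =>
    intro G hG _
    obtain ⟨r, hr⟩ := exists_eval_ne G hG
    exact ⟨r, hr, by simp⟩
  | cons t T ih =>
    intro G hG hT
    have h1 : dtp t.1 t.2 ≠ 0 := by
      intro h0
      obtain ⟨z, hz⟩ := hT t (by simp)
      apply hz
      rw [← eval_dtp, h0, map_zero]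
    obtain ⟨r, hr, hr2⟩ := ih (G * dtp t.1 t.2) (mul_ne_zero hG h1)
      (fun s hs => hT s (List.mem_cons_of_mem _ hs))
    rw [map_mul, eval_dtp] at hr
    refine ⟨r, left_ne_zero_of_mul hr, ?_⟩
    intro s hs
    rcases List.mem_cons.1 hs with rfl | hs
    · exact right_ne_zero_of_mul hr
    · exact hr2 s hs

theorem c0_mv (N : Matrix (Fin 3) (Fin 3) ℂ) (φ : Ch) : c0 (mv N φ) = mv N (c0 φ) := by
  funext i
  simp only [c0, mv, map_sum, map_mul, Algebra.algebraMap_self, RingHom.id_apply,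
    algebraMap_eq, constantCoeff_C]

theorem du_mv (N : Matrix (Fin 3) (Fin 3) ℂ) (φ : Ch) : du (mv N φ) = mv N (du φ) := by
  funext i
  simp only [du, mv, map_sum, Algebra.algebraMap_self, RingHom.id_apply, algebraMap_eq]
  apply Finset.sum_congr rfl
  intro j _
  simp

theorem dv_mv (N : Matrix (Fin 3) (Fin 3) ℂ) (φ : Ch) : dv (mv N φ) = mv N (dv φ) := by
  funext i
  simp only [dv, mv, map_sum, Algebra.algebraMap_self, RingHom.id_apply, algebraMap_eq]
  apply Finset.sum_congr rfl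
  intro j _
  simp

/-- the general step -/
theorem step_St {d : ℕ} {F : MvPolynomial (Fin 3) ℂ} {S : List (Pt × ℕ)} {φ : Ch}
    {R : List (ℕ × ℕ)} {L : List (Ch × List (ℕ × ℕ))}
    (h : St d F S ((φ, R) :: L)) :
    mm R ≤ d ∧ ∃ (F' : MvPolynomial (Fin 3) ℂ) (S' : List (Pt × ℕ)) (L' : List (Ch × List (ℕ × ℕ)))
      (φL φR : Ch) (p1 p2 p3 : Pt), St (2 * d - mm R) F'
      ((p1, d) :: (p2, d - mm R) :: (p3, d - mm R) :: S')
      ((φL, Lf R) :: (φR, Rt R) :: L') ∧ S'.map Prod.snd = S.map Prod.snd ∧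
      L'.map Prod.snd = L.map Prod.snd := by
  set p := c0 φ with hp
  set a := du φ with ha
  set b := dv φ with hb
  have hdt : dt p a b ≠ 0 := (h.chart (φ, R) (by simp)).1
  have hW : ∀ z ∈ pts S L, NP p z := by
    intro z hz
    have h1 := h.pw
    unfold pts at h1
    rw [List.map_cons] at h1
    rw [List.Perm.pairwise_iff (fun h => NP.symm h) List.perm_middle, List.pairwise_cons] at h1
    exact h1.1 z hz
  have hpa : NP p a := ⟨b, hdt⟩
  have hpb : NP p b := by
    refine ⟨a, fun h0 => hdt ?_⟩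
    unfold dt at *
    linear_combination -h0
  obtain ⟨r1, hFr1, hr1⟩ := exists_good ((p, a) :: (p, b) :: (pts S L).map (fun z => (p, z))) F h.ne (by
    intro t ht
    simp only [List.mem_cons, List.mem_map] at ht
    rcases ht with rfl | rfl | ⟨z, hz, rfl⟩
    · exact hpa
    · exact hpb
    · exact hW z hz)
  have hr1a := hr1 (p, a) (by simp)
  have hr1b := hr1 (p, b) (by simp)
  have hr1W : ∀ z ∈ pts S L, dt p z r1 ≠ 0 := fun z hz => hr1 (p, z) (by
    simp only [List.mem_cons, List.mem_map]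
    exact Or.inr (Or.inr ⟨z, hz, rfl⟩))
  simp only at hr1a hr1b
  obtain ⟨r2, hFr2, hr2⟩ := exists_good ((p, r1) :: (p, a) :: (p, b) ::
      ((pts S L).map (fun z => (p, z)) ++ (pts S L).map (fun z => (z, r1)))) F h.ne (by
    intro t ht
    simp only [List.mem_cons, List.mem_append, List.mem_map] at ht
    rcases ht with rfl | rfl | rfl | ⟨z, hz, rfl⟩ | ⟨z, hz, rfl⟩
    · refine ⟨a, fun h0 => hr1a ?_⟩
      unfold dt at *
      linear_combination -h0
    · exact hpa
    · exact hpb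
    · exact hW z hz
    · refine ⟨p, fun h0 => hr1W z hz ?_⟩
      unfold dt at *
      linear_combination h0)
  have hr2p := hr2 (p, r1) (by simp)
  have hr2a := hr2 (p, a) (by simp)
  have hr2b := hr2 (p, b) (by simp)
  have hr2W : ∀ z ∈ pts S L, dt p z r2 ≠ 0 := fun z hz => hr2 (p, z) (by
    simp only [List.mem_cons, List.mem_append, List.mem_map]
    exact Or.inr (Or.inr (Or.inr (Or.inl ⟨z, hz, rfl⟩))))
  have hr2W' : ∀ z ∈ pts S L, dt z r1 r2 ≠ 0 := fun z hz => hr2 (z, r1) (by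
    simp only [List.mem_cons, List.mem_append, List.mem_map]
    exact Or.inr (Or.inr (Or.inr (Or.inr ⟨z, hz, rfl⟩))))
  simp only at hr2p hr2a hr2b
  -- the matrix
  set M : Matrix (Fin 3) (Fin 3) ℂ := fun i j => (![p, r1, r2] : Fin 3 → Pt) j i with hM
  have hMdet : M.det ≠ 0 := by
    have : M.det = dt p r1 r2 := by
      rw [Matrix.det_fin_three, hM]
      simp only [dt, Matrix.cons_val_zero, Matrix.cons_val_one, Matrix.cons_val]
      ring
    rw [this]
    exact hr2p
  have hMN : M * M⁻¹ = 1 := Matrix.mul_nonsing_inv M (isUnit_iff_ne_zero.2 hMdet)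
  have hNM : M⁻¹ * M = 1 := Matrix.nonsing_inv_mul M (isUnit_iff_ne_zero.2 hMdet)
  have hmv : ∀ w : Pt, ∀ i, mv M w i = w 0 * p i + w 1 * r1 i + w 2 * r2 i := by
    intro w i
    simp only [mv, hM, Fin.sum_univ_three, Algebra.algebraMap_self, RingHom.id_apply,
      Matrix.cons_val_zero, Matrix.cons_val_one, Matrix.cons_val]
    ring
  have hcoord : ∀ z : Pt, ∀ i, z i = mv M⁻¹ z 0 * p i + mv M⁻¹ z 1 * r1 i + mv M⁻¹ z 2 * r2 i := by
    intro z i
    rw [← hmv, mv_mv M M⁻¹ hMN]
  have hc0 : ∀ z : Pt, dt z r1 r2 ≠ 0 → mv M⁻¹ z 0 ≠ 0 := by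
    intro z hz h0
    apply hz
    have e0 := hcoord z 0
    have e1 := hcoord z 1
    have e2 := hcoord z 2
    rw [h0] at e0 e1 e2
    simp only [dt]
    rw [e0, e1, e2]
    ring
  have hc1 : ∀ z : Pt, dt p z r2 ≠ 0 → mv M⁻¹ z 1 ≠ 0 := by
    intro z hz h0
    apply hz
    have e0 := hcoord z 0
    have e1 := hcoord z 1
    have e2 := hcoord z 2
    rw [h0] at e0 e1 e2
    simp only [dt]
    rw [e0, e1, e2]
    ring
  have hc2 : ∀ z : Pt, dt p z r1 ≠ 0 → mv M⁻¹ z 2 ≠ 0 := by
    intro z hz h0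
    apply hz
    have e0 := hcoord z 0
    have e1 := hcoord z 1
    have e2 := hcoord z 2
    rw [h0] at e0 e1 e2
    simp only [dt]
    rw [e0, e1, e2]
    ring
  have hlin := lin_St M M⁻¹ hMN hNM h
  rw [List.map_cons] at hlin
  have hp1 : mv M⁻¹ p = ![1, 0, 0] := by
    have : mv M ![1, 0, 0] = p := by
      funext i
      rw [hmv]
      simp
    rw [← this, mv_mv M⁻¹ M hNM]
  obtain ⟨hmd, F', φL, φR, hSt⟩ := crem_St hlin
    (by simp only; rw [c0_mv]; exact hp1)
    (by
      have h1 := aeval_lin M F (![0, 1, 0] : Pt)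
      rw [aeval_eq_ev] at h1
      simp only [Matrix.cons_val_zero, Matrix.cons_val_one, Matrix.cons_val] at h1
      rw [h1]
      have : mv M (![0, 1, 0] : Pt) = r1 := by
        funext i; rw [hmv]; simp
      rw [this, aeval_eval]
      exact hFr1)
    (by
      have h1 := aeval_lin M F (![0, 0, 1] : Pt)
      rw [aeval_eq_ev] at h1
      simp only [Matrix.cons_val_zero, Matrix.cons_val_one, Matrix.cons_val] at h1
      rw [h1]
      have : mv M (![0, 0, 1] : Pt) = r2 := by
        funext i; rw [hmv]; simp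
      rw [this, aeval_eval]
      exact hFr2)
    (by
      intro y hy
      have : ∃ z ∈ pts S L, y = mv M⁻¹ z := by
        rw [mem_pts] at hy
        rcases hy with ⟨s, hs, rfl⟩ | ⟨c, hc, rfl⟩
        · obtain ⟨s', hs', rfl⟩ := List.mem_map.1 hs
          exact ⟨s'.1, mem_pts.2 (Or.inl ⟨s', hs', rfl⟩), rfl⟩
        · obtain ⟨c', hc', rfl⟩ := List.mem_map.1 hc
          exact ⟨c0 c'.1, mem_pts.2 (Or.inr ⟨c', hc', rfl⟩), c0_mv _ _⟩
      obtain ⟨z, hz, rfl⟩ := this
      intro i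
      fin_cases i
      · exact hc0 z (hr2W' z hz)
      · exact hc1 z (hr2W z hz)
      · exact hc2 z (hr1W z hz))
    (by simp only; rw [du_mv]; exact hc1 a hr2a)
    (by simp only; rw [du_mv]; exact hc2 a hr1a)
    (by simp only; rw [dv_mv]; exact hc1 b hr2b)
    (by simp only; rw [dv_mv]; exact hc2 b hr1b)
  refine ⟨hmd, F', _, _, φL, φR, _, _, _, hSt, ?_, ?_⟩
  · simp [Function.comp_def]
  · simp [Function.comp_def]

def Conf (Rs : List (List (ℕ × ℕ))) (K : ℕ) (A : ℤ) : Prop :=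
  ∃ (d : ℕ) (F : MvPolynomial (Fin 3) ℂ) (S : List (Pt × ℕ)) (L : List (Ch × List (ℕ × ℕ))),
    St d F S L ∧ S.length = K ∧ L.map Prod.snd = Rs ∧
    ((S.map Prod.snd).map (fun n : ℕ => (n : ℤ) ^ 2)).sum - (d : ℤ) ^ 2 = A

theorem Conf.step {R : List (ℕ × ℕ)} {Rs : List (List (ℕ × ℕ))} {K : ℕ} {A : ℤ}
    (h : Conf (R :: Rs) K A) : Conf (Lf R :: Rt R :: Rs) (K + 3) (A + (mm R : ℤ) ^ 2) := by
  obtain ⟨d, F, S, L, hSt, hK, hR, hA⟩ := h
  cases L with
  | nil => simp at hR
  | cons c L =>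
    obtain ⟨φ, R'⟩ := c
    simp only [List.map_cons, List.cons.injEq] at hR
    obtain ⟨rfl, hR⟩ := hR
    obtain ⟨hmd, F', S', L', φL, φR, p1, p2, p3, hSt', hS', hL'⟩ := step_St hSt
    refine ⟨_, F', _, _, hSt', ?_, ?_, ?_⟩
    · have : S'.length = S.length := by
        have := congrArg List.length hS'
        simpa using this
      simp [this, hK]
    · simp [hL', hR]
    · simp only [List.map_cons, List.sum_cons]
      rw [hS', ← hA]
      have e1 : ((2 * d - mm R' : ℕ) : ℤ) = 2 * d - mm R' := by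
        rw [Nat.cast_sub (by omega)]; push_cast; ring
      have e2 : ((d - mm R' : ℕ) : ℤ) = d - mm R' := by
        rw [Nat.cast_sub hmd]
      rw [e1, e2]
      ring

theorem Conf.drop {R : List (ℕ × ℕ)} {Rs : List (List (ℕ × ℕ))} {K : ℕ} {A : ℤ}
    (h : Conf (R :: Rs) K A) (hR0 : mm R = 0) : Conf Rs K A := by
  obtain ⟨d, F, S, L, hSt, hK, hR, hA⟩ := h
  cases L with
  | nil => simp at hR
  | cons c L =>
    obtain ⟨φ, R'⟩ := c
    simp only [List.map_cons, List.cons.injEq] at hR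
    obtain ⟨rfl, hR⟩ := hR
    refine ⟨d, F, S, L, ?_, hK, hR, hA⟩
    have hT := (hSt.chart (φ, R') (by simp)).2
    constructor
    · exact hSt.hom
    · exact hSt.ne
    · exact hSt.mult
    · exact fun c hc => hSt.chart c (List.mem_cons_of_mem _ hc)
    · have h1 := hSt.pw
      unfold pts at h1 ⊢
      simp only [List.map_cons] at h1
      exact h1.sublist (List.Sublist.append (List.Sublist.refl _) (List.sublist_cons_self _ _))
    · intro x hx hs
      obtain ⟨y, hy, c, hc⟩ := hSt.cov x hx hs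
      rw [mem_pts] at hy
      rcases hy with hy | ⟨c', hc', rfl⟩
      · exact ⟨y, mem_pts.2 (Or.inl hy), c, hc⟩
      rcases List.mem_cons.1 hc' with rfl | hc'
      · exfalso
        have h1 := hT.ne_zero hR0
        apply h1
        have h2 := hs.value
        have h3 : constantCoeff (bind₁ φ F) = aeval (c0 φ) F := by
          have := map_aeval (R := ℂ) φ (constantCoeff (R := ℂ) (σ := Fin 2)) F
          refine this.trans ?_
          rw [aeval_def, coe_eval₂Hom]
          have e : (constantCoeff (R := ℂ) (σ := Fin 2)).comp (algebraMap ℂ (MvPolynomial (Fin 2) ℂ)) =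
              algebraMap ℂ ℂ := by
            ext a
            simp [algebraMap_eq]
          rw [e]
          rfl
        rw [h3]
        have hc0 : c ≠ 0 := by
          rintro rfl
          apply hx
          rw [hc, zero_smul]
        have h4 := homog_smul hSt.hom c (c0 φ)
        have h5 : aeval (fun i => c * c0 φ i) F = ev F (x 0) (x 1) (x 2) := by
          rw [aeval_eq_ev, hc]
          rfl
        rw [h5, h2] at h4
        rcases mul_eq_zero.1 h4.symm with h6 | h6
        · exact absurd h6 (pow_ne_zero _ hc0)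
        · exact h6
      · exact ⟨_, mem_pts.2 (Or.inr ⟨c', hc', rfl⟩), c, hc⟩

theorem Conf.conv (n : ℕ) : ∀ (R : List (ℕ × ℕ)), Fuel n R → ∀ (Rs : List (List (ℕ × ℕ))) (K : ℕ)
    (A : ℤ), Conf (R :: Rs) K A → Conf Rs (K + 3 * Nn n R) (A + (SS R : ℤ)) := by
  induction n with
  | zero =>
    intro R hR Rs K A h
    have h0 := Fuel_zero hR
    have := h.drop h0
    simpa [Nn, SS_zero R h0] using this
  | succ n ih =>
    intro R hR Rs K A h
    by_cases h0 : mm R = 0
    · have := h.drop h0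
      simpa [Nn, SS_zero R h0, h0] using this
    · have h1 := h.step
      have h2 := ih _ (Fuel_Lf hR) _ _ _ h1
      have h3 := ih _ (Fuel_Rt hR) _ _ _ h2
      have e1 : K + 3 * Nn (n + 1) R = K + 3 + 3 * Nn n (Lf R) + 3 * Nn n (Rt R) := by
        rw [Nn, if_neg h0]; ring
      have e2 : A + (SS R : ℤ) = A + (mm R : ℤ) ^ 2 + (SS (Lf R) : ℤ) + (SS (Rt R) : ℤ) := by
        rw [SS_split R]; push_cast; ring
      rw [e1, e2]
      exact h3

end

end Pool.Agent.H878.HC
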