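import Mathlib
import Pool.Agent.H878.HCRays

set_option autoImplicit false

namespace Pool.Agent.H878.HC

def wt (p q : ℕ) (r : ℕ × ℕ) : ℕ := if r.1 = 0 ∨ r.2 = 0 then 0 else r.1 * p + r.2 * q

theorem wt_split (p q : ℕ) (r : ℕ × ℕ) :
    wt p (p + q) (r.1 - r.2, r.2) + wt q (p + q) (r.2 - r.1, r.1) ≤ wt p q r := by
  obtain ⟨a, b⟩ := r
  unfold wt
  simp only
  rcases Nat.eq_zero_or_pos a with rfl | ha
  · simp
  rcases Nat.eq_zero_or_pos b with rfl | hb
  · simp
  rw [if_neg (show ¬ (a = 0 ∨ b = 0) by omega)]
  rcases lt_trichotomy a b with h | rfl | h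
  · rw [if_pos (show a - b = 0 ∨ b = 0 by omega), if_neg (by omega)]
    obtain ⟨x, rfl⟩ := Nat.exists_eq_add_of_le h.le
    rw [show a + x - a = x by omega]
    apply le_of_eq
    ring
  · simp
  · rw [if_pos (show b - a = 0 ∨ a = 0 by omega), if_neg (by omega)]
    obtain ⟨x, rfl⟩ := Nat.exists_eq_add_of_le h.le
    rw [show b + x - b = x by omega]
    apply le_of_eq
    ring

theorem wt_split' (r : ℕ × ℕ) :
    wt 1 1 (r.1 - r.2, r.2) + wt 1 1 (r.2 - r.1, r.1) + min 1 (min r.1 r.2) ≤ wt 1 1 r := by
  obtain ⟨a, b⟩ := r
  unfold wt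
  simp only
  rcases Nat.eq_zero_or_pos a with rfl | ha
  · simp
  rcases Nat.eq_zero_or_pos b with rfl | hb
  · simp
  rw [if_neg (show ¬ (a = 0 ∨ b = 0) by omega)]
  rcases lt_trichotomy a b with h | rfl | h
  · rw [if_pos (show a - b = 0 ∨ b = 0 by omega), if_neg (by omega)]
    omega
  · simp
  · rw [if_pos (show b - a = 0 ∨ a = 0 by omega), if_neg (by omega)]
    omega

theorem sum_min_one (R : List (ℕ × ℕ)) (h : mm R ≠ 0) :
    1 ≤ (R.map (fun r => min 1 (min r.1 r.2))).sum := by
  rw [Nat.one_le_iff_ne_zero]
  intro h0
  apply h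
  rw [mm_zero_iff]
  intro r hr
  rw [List.sum_eq_zero_iff] at h0
  have := h0 _ (List.mem_map.2 ⟨r, hr, rfl⟩)
  omega

theorem Nn_le_wt (n : ℕ) : ∀ R : List (ℕ × ℕ), Nn n R ≤ (R.map (wt 1 1)).sum := by
  induction n with
  | zero => intro R; simp [Nn]
  | succ n ih =>
    intro R
    unfold Nn
    split_ifs with h
    · simp
    · have h1 := ih (Lf R)
      have h2 := ih (Rt R)
      have h3 := sum_min_one R h
      have h4 : ((Lf R).map (wt 1 1)).sum + ((Rt R).map (wt 1 1)).sum +
          (R.map (fun r => min 1 (min r.1 r.2))).sum ≤ (R.map (wt 1 1)).sum := by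
        simp only [Lf, Rt, List.map_map, Function.comp_def]
        rw [← List.sum_map_add, ← List.sum_map_add]
        apply List.sum_le_sum
        intro r _
        exact wt_split' r
      omega

theorem wt_ge (T p q : ℕ) (hp : T ≤ p) (hq : T ≤ q) (r : ℕ × ℕ) : T * wt 1 1 r ≤ wt p q r := by
  unfold wt
  split_ifs
  · simp
  · nlinarith

def Gb (T B p q : ℕ) : ℕ :=
  if p ≤ T ∧ q ≤ T then 2 ^ (2 * T + 1 - (p + q)) * (B + 1) - 1
  else if p ≤ T ∨ q ≤ T then B + 1 - max p q else 0

theorem Gb_child (T B p q : ℕ) (hp : 1 ≤ p) (hpT : p ≤ T) :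
    Gb T B p (p + q) + 1 ≤ 2 ^ (2 * T - (p + q)) * (B + 1) := by
  have h1 : 1 ≤ 2 ^ (2 * T - (p + q)) := Nat.one_le_two_pow
  unfold Gb
  split_ifs with h2 h3
  · have h4 : 2 ^ (2 * T + 1 - (p + (p + q))) ≤ 2 ^ (2 * T - (p + q)) :=
      Nat.pow_le_pow_right (by norm_num) (by omega)
    have h5 : 1 ≤ 2 ^ (2 * T + 1 - (p + (p + q))) := Nat.one_le_two_pow
    have h6 : 1 ≤ 2 ^ (2 * T + 1 - (p + (p + q))) * (B + 1) := by nlinarith
    have h7 := Nat.mul_le_mul_right (B + 1) h4
    omega
  · have : B + 1 ≤ 2 ^ (2 * T - (p + q)) * (B + 1) := by nlinarith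
    have : max p (p + q) = p + q := by omega
    omega
  · omega

theorem Nn_bound (T B : ℕ) (n : ℕ) : ∀ (R : List (ℕ × ℕ)) (p q : ℕ), 1 ≤ p → 1 ≤ q →
    (∀ r ∈ R, wt p q r ≤ B) →
    T * Nn n R ≤ (R.map (wt p q)).sum + T * Gb T B p q := by
  induction n with
  | zero => intro R p q _ _ _; simp [Nn]
  | succ n ih =>
    intro R p q hp hq hR
    by_cases hT : T < p ∧ T < q
    · have h1 := Nn_le_wt (n + 1) R
      have h2 : T * (R.map (wt 1 1)).sum ≤ (R.map (wt p q)).sum := by
        rw [← List.sum_map_mul_left]
        apply List.sum_le_sum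
        intro r _
        exact wt_ge T p q hT.1.le hT.2.le r
      have h3 := Nat.mul_le_mul_left T h1
      omega
    · unfold Nn
      split_ifs with h
      · simp
      · have hRL : ∀ r ∈ Lf R, wt p (p + q) r ≤ B := by
          intro r hr
          obtain ⟨s, hs, rfl⟩ := List.mem_map.1 hr
          have := wt_split p q s
          have := hR s hs
          omega
        have hRR : ∀ r ∈ Rt R, wt q (p + q) r ≤ B := by
          intro r hr
          obtain ⟨s, hs, rfl⟩ := List.mem_map.1 hr
          have := wt_split p q s
          have := hR s hs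
          omega
        have h1 := ih (Lf R) p (p + q) hp (by omega) hRL
        have h2 := ih (Rt R) q (p + q) hq (by omega) hRR
        have h4 : ((Lf R).map (wt p (p + q))).sum + ((Rt R).map (wt q (p + q))).sum
            ≤ (R.map (wt p q)).sum := by
          simp only [Lf, Rt, List.map_map, Function.comp_def]
          rw [← List.sum_map_add]
          apply List.sum_le_sum
          intro r _
          exact wt_split p q r
        have hB : p + q ≤ B := by
          have : ∃ r ∈ R, ¬ (r.1 = 0 ∨ r.2 = 0) := by
            by_contra hc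
            push Not at hc
            apply h
            rw [mm_zero_iff]
            intro r hr
            have := hc r hr
            omega
          obtain ⟨r, hr, h5⟩ := this
          have h6 := hR r hr
          unfold wt at h6
          rw [if_neg h5] at h6
          have h7 : 1 ≤ r.1 := by omega
          have h8 : 1 ≤ r.2 := by omega
          nlinarith
        have hG : 1 + Gb T B p (p + q) + Gb T B q (p + q) ≤ Gb T B p q := by
          by_cases hpT : p ≤ T
          · by_cases hqT : q ≤ T
            · have g1 := Gb_child T B p q hp hpT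
              have g2 := Gb_child T B q p hq hqT
              rw [add_comm q p] at g2
              have g3 : Gb T B p q = 2 * (2 ^ (2 * T - (p + q)) * (B + 1)) - 1 := by
                unfold Gb
                rw [if_pos ⟨hpT, hqT⟩]
                rw [show 2 * T + 1 - (p + q) = (2 * T - (p + q)) + 1 by omega, pow_succ]
                congr 1
                ring
              omega
            · have e1 : Gb T B p q = B + 1 - q := by
                unfold Gb
                rw [if_neg (by omega), if_pos (by omega), max_eq_right (by omega)]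
              have e2 : Gb T B q (p + q) = 0 := by
                unfold Gb
                rw [if_neg (by omega), if_neg (by omega)]
              have e3 : Gb T B p (p + q) = B + 1 - (p + q) := by
                unfold Gb
                rw [if_neg (by omega), if_pos (by omega), max_eq_right (by omega)]
              omega
          · have hqT : q ≤ T := by omega
            have e1 : Gb T B p q = B + 1 - p := by
              unfold Gb
              rw [if_neg (by omega), if_pos (by omega), max_eq_left (by omega)]
            have e2 : Gb T B p (p + q) = 0 := by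
              unfold Gb
              rw [if_neg (by omega), if_neg (by omega)]
            have e3 : Gb T B q (p + q) = B + 1 - (p + q) := by
              unfold Gb
              rw [if_neg (by omega), if_pos (by omega), max_eq_right (by omega)]
            omega
        have h5 := Nat.mul_le_mul_left T hG
        have h6 : T * (1 + Nn n (Lf R) + Nn n (Rt R)) =
          T + T * Nn n (Lf R) + T * Nn n (Rt R) := by ring
        have h7 : T * (1 + Gb T B p (p + q) + Gb T B q (p + q)) =
          T + T * Gb T B p (p + q) + T * Gb T B q (p + q) := by ring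
        omega

/-- For every `T`, the number of nodes for `RR k` is at most `4^(k+1)/T + O_T(2^k)`. -/
theorem Nn_RR (T k n : ℕ) :
    T * Nn n (RR k) ≤ 2 * T + 4 ^ (k + 1) + T * (4 ^ T * (3 * 2 ^ k + 1)) := by
  cases n with
  | zero => simp [Nn]
  | succ n =>
    unfold Nn
    split_ifs with h
    · simp
    · have h0 : ∀ m, Nn m (Lf (RR k)) = 0 := by
        intro m
        cases m with
        | zero => rfl
        | succ m =>
          unfold Nn
          rw [if_pos]
          rw [mm_zero_iff]
          intro r hr
          obtain ⟨s, hs, rfl⟩ := List.mem_map.1 hr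
          have := RR_mem k s hs
          left
          simp only
          omega
      rw [h0]
      have hwt : ∀ r ∈ RR k, wt 1 1 (r.2 - r.1, r.1) ≤ r.2 := by
        intro r hr
        have := RR_mem k r hr
        unfold wt
        split_ifs
        · simp
        · simp only; omega
      have h1 := Nn_bound T (3 * 2 ^ k) n (Rt (RR k)) 1 1 le_rfl le_rfl (by
        intro r hr
        obtain ⟨s, hs, rfl⟩ := List.mem_map.1 hr
        have := RR_mem k s hs
        have := hwt s hs
        omega)
      have h2 : ((Rt (RR k)).map (wt 1 1)).sum ≤ ((RR k).map Prod.snd).sum := by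
        simp only [Rt, List.map_map, Function.comp_def]
        apply List.sum_le_sum
        intro r hr
        exact hwt r hr
      have h3 := RR_snd k
      have h4 : Gb T (3 * 2 ^ k) 1 1 ≤ 4 ^ T * (3 * 2 ^ k + 1) := by
        unfold Gb
        split_ifs with h5 h6
        · have : 2 ^ (2 * T + 1 - (1 + 1)) ≤ 4 ^ T := by
            rw [show (4 : ℕ) = 2 ^ 2 by norm_num, ← pow_mul]
            exact Nat.pow_le_pow_right (by norm_num) (by omega)
          have := Nat.mul_le_mul_right (3 * 2 ^ k + 1) this
          omega
        · have : 1 ≤ 4 ^ T := Nat.one_le_pow _ _ (by norm_num)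
          have := Nat.mul_le_mul_right (3 * 2 ^ k + 1) this
          omega
        · simp
      have h5 := Nat.mul_le_mul_left T h4
      have h6 : T * (1 + 0 + Nn n (Rt (RR k))) = T + T * Nn n (Rt (RR k)) := by ring
      have h7 : 0 < 2 ^ k := by positivity
      omega

end Pool.Agent.H878.HC
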