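import Mathlib
import Pool.Agent.H878.HCLead

set_option autoImplicit false

open MvPolynomial TrivSqZeroExt

namespace Pool.Agent.H878.HC

noncomputable section

theorem fst_four : (4 : DD).fst = 4 := rfl

theorem mono_lift (x y z : ℂ) (hx : x ≠ 0) (hz : z ≠ 0) (u y1 z1 : DD)
    (hu : u.fst = x ^ 2) (hy1 : y1.fst = 4 * x ^ 2 * y * z) (hz1 : z1.fst = 4 * x ^ 2 * z ^ 2) :
    ∃ x' y' z' : DD, x'.fst = x ∧ y'.fst = y ∧ z'.fst = z ∧ x' ^ 2 = u ∧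
      4 * u * (y' * z') = y1 ∧ 4 * u * z' ^ 2 = z1 := by
  obtain ⟨x', hx'f, hx'2⟩ := dsqrt u x hx hu
  obtain ⟨i4, hif, hii⟩ := dinv (4 * u) (by rw [fst_mul, fst_four, hu]; simp [hx])
  have hif' : i4.fst = (4 * x ^ 2)⁻¹ := by rw [hif, fst_mul, fst_four, hu]
  obtain ⟨z', hz'f, hz'2⟩ := dsqrt (z1 * i4) z hz (by
    rw [fst_mul, hz1, hif']; field_simp)
  obtain ⟨j, hjf, hjj⟩ := dinv z' (by rw [hz'f]; exact hz)
  refine ⟨x', y1 * i4 * j, z', hx'f, ?_, hz'f, hx'2, ?_, ?_⟩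
  · rw [fst_mul, fst_mul, hy1, hif', hjf, hz'f]; field_simp
  · linear_combination (y1 * (j * z')) * hii + y1 * hjj
  · rw [hz'2]; linear_combination z1 * hii

theorem ND3_of_ne (Q : MvPolynomial (Fin 3) ℂ)
    (h : ∀ x y z : ℂ, x ≠ 0 → y ≠ 0 → z ≠ 0 → ev Q x y z ≠ 0) : ND3 Q := by
  intro x y z hx hy hz
  exact ⟨inl x, inl y, inl z, by simp, by simp, by simp, ev_inl_ne _ _ _ _ (h x y z hx hy hz)⟩

/-- substitution polynomials evaluate as expected -/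
theorem ev_bind' {R : Type} [CommRing R] [Algebra ℂ R] (Q P : MvPolynomial (Fin 3) ℂ) (x y z : R) :
    ev (bind₁ ![P, C 4 * X 0 ^ 2 * X 1 * X 2, C 4 * X 0 ^ 2 * X 2 ^ 2] Q) x y z =
      ev Q (ev P x y z) (4 * x ^ 2 * y * z) (4 * x ^ 2 * z ^ 2) := by
  rw [ev_bind]
  have h5 : ev (C 4 * X 0 ^ 2 * X 1 * X 2) x y z = 4 * x ^ 2 * y * z := by
    simp [ev, map_ofNat]
  have h6 : ev (C 4 * X 0 ^ 2 * X 2 ^ 2) x y z = 4 * x ^ 2 * z ^ 2 := by
    simp [ev, map_ofNat]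
  rw [h5, h6]

theorem ND3_iii (Q : MvPolynomial (Fin 3) ℂ) (h : ND3 Q) :
    ND3 (bind₁ ![X 0 ^ 4, C 4 * X 0 ^ 2 * X 1 * X 2, C 4 * X 0 ^ 2 * X 2 ^ 2] Q) := by
  intro x y z hx hy hz
  obtain ⟨x1, y1, z1, hx1, hy1, hz1, hne⟩ := h (x ^ 4) (4 * x ^ 2 * y * z) (4 * x ^ 2 * z ^ 2)
    (by simp [hx, hy, hz]) (by simp [hx, hy, hz]) (by simp [hx, hy, hz])
  obtain ⟨u, huf, hu2⟩ := dsqrt x1 (x ^ 2) (by positivity) (by rw [hx1]; ring)
  obtain ⟨x', y', z', h1, h2, h3, h4, h5, h6⟩ := mono_lift x y z hx hz u y1 z1 huf hy1 hz1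
  refine ⟨x', y', z', h1, h2, h3, ?_⟩
  rw [ev_bind']
  have e1 : ev (X 0 ^ 4) x' y' z' = x1 := by
    simp only [ev, map_pow, aeval_X, Matrix.cons_val_zero]
    rw [← hu2, ← h4]; ring
  have e2 : 4 * x' ^ 2 * y' * z' = y1 := by rw [h4, ← h5]; ring
  have e3 : 4 * x' ^ 2 * z' ^ 2 = z1 := by rw [h4, ← h6]
  rw [e1, e2, e3]
  exact hne

theorem ND3_v (Q : MvPolynomial (Fin 3) ℂ) (h : ND3 Q) :
    ND3 (bind₁ ![X 1 ^ 2 * X 2 ^ 2, C 4 * X 0 ^ 2 * X 1 * X 2, C 4 * X 0 ^ 2 * X 2 ^ 2] Q) := by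
  intro x y z hx hy hz
  obtain ⟨x1, y1, z1, hx1, hy1, hz1, hne⟩ := h ((y * z) ^ 2) (4 * x ^ 2 * y * z) (4 * x ^ 2 * z ^ 2)
    (by simp [hx, hy, hz]) (by simp [hx, hy, hz]) (by simp [hx, hy, hz])
  obtain ⟨w, hwf, hw2⟩ := dsqrt x1 (y * z) (by positivity) hx1
  obtain ⟨i, hif, hii⟩ := dinv (4 * w) (by rw [fst_mul, fst_four, hwf]; simp [hy, hz])
  have hif' : i.fst = (4 * (y * z))⁻¹ := by rw [hif, fst_mul, fst_four, hwf]
  have huf : (y1 * i).fst = x ^ 2 := by rw [fst_mul, hy1, hif']; field_simp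
  obtain ⟨x', y', z', h1, h2, h3, h4, h5, h6⟩ := mono_lift x y z hx hz (y1 * i) y1 z1 huf hy1 hz1
  refine ⟨x', y', z', h1, h2, h3, ?_⟩
  rw [ev_bind']
  obtain ⟨j, hjf, hjj⟩ := dinv y1 (by rw [hy1]; simp [hx, hy, hz])
  have hyz : y' * z' = w := by
    linear_combination (-(y' * z')) * hii + (4 * w * i * (-(y' * z'))) * hjj + (w * j) * h5 + w * hjj
  have e1 : ev (X 1 ^ 2 * X 2 ^ 2) x' y' z' = x1 := by
    have : ev (X 1 ^ 2 * X 2 ^ 2) x' y' z' = (y' * z') ^ 2 := by simp [ev]; ring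
    rw [this, hyz, hw2]
  have e2 : 4 * x' ^ 2 * y' * z' = y1 := by rw [h4, ← h5]; linear_combination (4 * y' * z' * i) * (h5.trans rfl) 
  have e3 : 4 * x' ^ 2 * z' ^ 2 = z1 := by rw [h4, ← h6]
  rw [e1, e2, e3]
  exact hne

theorem ND3_iv (Q : MvPolynomial (Fin 3) ℂ) (h : ND3 Q)
    (h2 : ∀ y z : ℂ, y ≠ 0 → z ≠ 0 → ev Q 0 y z ≠ 0 ∧ ev Q (-y) y z ≠ 0) :
    ND3 (bind₁ ![(X 0 ^ 2 - X 1 * X 2) ^ 2, C 4 * X 0 ^ 2 * X 1 * X 2, C 4 * X 0 ^ 2 * X 2 ^ 2] Q) := by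
  intro x y z hx hy hz
  by_cases hm : x ^ 2 - y * z = 0
  · refine ⟨inl x, inl y, inl z, by simp, by simp, by simp, ev_inl_ne _ _ _ _ ?_⟩
    rw [ev_bind']
    have e1 : ev ((X 0 ^ 2 - X 1 * X 2) ^ 2) x y z = 0 := by simp [ev, hm]
    rw [e1]
    exact (h2 _ _ (by simp [hx, hy, hz]) (by simp [hx, hz])).1
  by_cases hp : x ^ 2 + y * z = 0
  · refine ⟨inl x, inl y, inl z, by simp, by simp, by simp, ev_inl_ne _ _ _ _ ?_⟩
    rw [ev_bind']
    have e1 : ev ((X 0 ^ 2 - X 1 * X 2) ^ 2) x y z = -(4 * x ^ 2 * y * z) := by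
      simp [ev]
      linear_combination (x ^ 2 + y * z) * hp
    rw [e1]
    exact (h2 _ _ (by simp [hx, hy, hz]) (by simp [hx, hz])).2
  obtain ⟨x1, y1, z1, hx1, hy1, hz1, hne⟩ := h ((x ^ 2 - y * z) ^ 2) (4 * x ^ 2 * y * z)
    (4 * x ^ 2 * z ^ 2) (by simp [hm]) (by simp [hx, hy, hz]) (by simp [hx, hz])
  obtain ⟨a, haf, ha2⟩ := dsqrt x1 (x ^ 2 - y * z) hm hx1
  obtain ⟨b, hbf, hb2⟩ := dsqrt (x1 + y1) (x ^ 2 + y * z) hp (by rw [fst_add, hx1, hy1]; ring)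
  obtain ⟨h2, h2f, h2i⟩ := dinv (2 : DD) (by rw [fst_two]; norm_num)
  have huf : ((a + b) * h2).fst = x ^ 2 := by
    rw [fst_mul, fst_add, haf, hbf, h2f, fst_two]; ring
  obtain ⟨x', y', z', h1', h2', h3, h4, h5, h6⟩ := mono_lift x y z hx hz ((a + b) * h2) y1 z1 huf hy1 hz1
  refine ⟨x', y', z', h1', h2', h3, ?_⟩
  rw [ev_bind']
  have hu0 : ((a + b) * h2).fst ≠ 0 := by rw [huf]; simp [hx]
  obtain ⟨j, hjf, hjj⟩ := dinv ((a + b) * h2) hu0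
  have hyz : y' * z' = (b - a) * h2 := by
    have k1 : 4 * ((a + b) * h2) * ((b - a) * h2) = y1 := by
      linear_combination (2 * h2 + 1) * (b ^ 2 - a ^ 2) * h2i + hb2 - ha2
    have k2 : 4 * ((a + b) * h2) * (y' * z' - (b - a) * h2) = 0 := by linear_combination h5 - k1
    have k3 : (2 * h2) ^ 2 * ((a + b) * h2 * j) * (y' * z' - (b - a) * h2) = 0 := by
      linear_combination (h2 ^ 2 * j) * k2
    rw [h2i, hjj] at k3
    linear_combination k3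
  have e1 : ev ((X 0 ^ 2 - X 1 * X 2) ^ 2) x' y' z' = x1 := by
    have : ev ((X 0 ^ 2 - X 1 * X 2) ^ 2) x' y' z' = (x' ^ 2 - y' * z') ^ 2 := by simp [ev]
    rw [this, hyz, h4, ← ha2]
    have : (a + b) * h2 - (b - a) * h2 = a := by linear_combination a * h2i
    rw [this]
  have e2 : 4 * x' ^ 2 * y' * z' = y1 := by rw [h4, ← h5]; ring
  have e3 : 4 * x' ^ 2 * z' ^ 2 = z1 := by rw [h4, ← h6]
  rw [e1, e2, e3]
  exact hne

theorem ND3_eq (k : ℕ) : ND3 (bind₁ ![X 1 ^ 2 * X 2 ^ 2, X 1 ^ 2 * X 2 ^ 2,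
    (C 2 * X 0 + X 1) ^ 2 * X 2 ^ 2] (FF k)) := by
  intro x y z hx hy hz
  have hev : ∀ (R : Type) [CommRing R] [Algebra ℂ R] (x y z : R),
      ev (bind₁ ![X 1 ^ 2 * X 2 ^ 2, X 1 ^ 2 * X 2 ^ 2, (C 2 * X 0 + X 1) ^ 2 * X 2 ^ 2] (FF k)) x y z
        = ev (FF k) (y ^ 2 * z ^ 2) (y ^ 2 * z ^ 2) ((2 * x + y) ^ 2 * z ^ 2) := by
    intro R _ _ x y z
    rw [ev_bind]
    have h5 : ev (X 1 ^ 2 * X 2 ^ 2) x y z = y ^ 2 * z ^ 2 := by
      simp [ev]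
    have h6 : ev ((C 2 * X 0 + X 1) ^ 2 * X 2 ^ 2) x y z = (2 * x + y) ^ 2 * z ^ 2 := by
      simp [ev, map_ofNat]
    rw [h5, h6]
  by_cases h0 : 2 * x + y = 0
  · refine ⟨inl x, inl y, inl z, by simp, by simp, by simp, ev_inl_ne _ _ _ _ ?_⟩
    rw [hev, h0]
    have := ev_FF_r0 k (y ^ 2 * z ^ 2) (y ^ 2 * z ^ 2) (by simp [hy, hz]) (by simp [hy, hz])
    simpa using this
  · obtain ⟨s1, t1, hs1, ht1, hne⟩ := FF_E k ((y * z) ^ 2) (((2 * x + y) * z) ^ 2)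
      (by simp [hy, hz]) (by simp [h0, hz])
    obtain ⟨s, hsf, hs2⟩ := dsqrt s1 (y * z) (by simp [hy, hz]) hs1
    obtain ⟨u, huf, hu2⟩ := dsqrt t1 ((2 * x + y) * z) (by simp [h0, hz]) ht1
    obtain ⟨h2, h2f, h2i⟩ := dinv (2 : DD) (by rw [fst_two]; norm_num)
    obtain ⟨i, hif, hii⟩ := dinv (inl z : DD) (by simpa using hz)
    rw [fst_inl] at hif
    rw [fst_two] at h2f
    refine ⟨(u * i - s * i) * h2, s * i, inl z, ?_, ?_, by simp, ?_⟩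
    · rw [fst_mul, fst_sub, fst_mul, fst_mul, huf, hsf, hif, h2f]
      field_simp
      ring
    · rw [fst_mul, hsf, hif]; field_simp
    · rw [hev]
      have e1 : (s * i) ^ 2 * (inl z) ^ 2 = s1 := by
        rw [← hs2]; linear_combination (s ^ 2 * (inl z * i + 1)) * hii
      have e2 : (2 * ((u * i - s * i) * h2) + s * i) ^ 2 * (inl z) ^ 2 = t1 := by
        have : 2 * ((u * i - s * i) * h2) + s * i = u * i := by
          linear_combination (u * i - s * i) * h2i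
        rw [this, ← hu2]; linear_combination (u ^ 2 * (inl z * i + 1)) * hii
      rw [e1, e2]
      exact hne

theorem FF_lead (k : ℕ) : ∀ A B : ℕ, 1 ≤ A → 1 ≤ B → ∃ Q : MvPolynomial (Fin 3) ℂ,
    HasLead (FF k) A B (HH (RR k) A B) Q ∧ ND3 Q ∧
    (A = B → ∀ y z : ℂ, y ≠ 0 → z ≠ 0 → ev Q 0 y z ≠ 0 ∧ ev Q (-y) y z ≠ 0) := by
  have e12 : ∀ x y z : ℂ, ev (X 1 ^ 2 * X 2 ^ 2) x y z = y ^ 2 * z ^ 2 := by
    intro x y z; simp [ev]
  induction k with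
  | zero =>
    intro A B hA hB
    rw [HH_RR_zero]
    rcases lt_or_ge B A with h | h
    · refine ⟨X 1 ^ 2 * X 2 ^ 2, ?_, ?_, ?_⟩
      · rw [min_eq_right (by omega)]
        exact lead_zero_gt A B h
      · exact ND3_of_ne _ (fun x y z hx hy hz => by rw [e12]; simp [hy, hz])
      · intro; omega
    · obtain ⟨D, rfl⟩ := Nat.exists_eq_add_of_le h
      rcases lt_trichotomy (2 * D) A with h1 | h1 | h1
      · refine ⟨X 1 ^ 2 * X 2 ^ 2, ?_, ?_, ?_⟩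
        · rw [min_eq_right (by omega)]
          exact lead_zero_le1 A D h1
        · exact ND3_of_ne _ (fun x y z hx hy hz => by rw [e12]; simp [hy, hz])
        · intro _ y z hy hz
          rw [e12, e12]
          simp [hy, hz]
      · refine ⟨X 1 ^ 2 * X 2 ^ 2 + C (-4) * X 0 ^ 3 * X 2, ?_, ?_, ?_⟩
        · rw [min_eq_left (by omega)]
          exact lead_zero_le3 A D (by omega) h1.symm
        · intro x y z hx hy hz
          refine ⟨inl x, inl y + inr 1, inl z, by simp, by simp, by simp, ?_⟩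
          intro h0
          have h' := congrArg TrivSqZeroExt.snd h0
          have h2s : ((algebraMap ℂ DD) 4).snd = 0 := rfl
          simp [ev, pow_succ] at h'
          rw [h2s] at h'
          have h3 : 2 * y * z ^ 2 = 0 := by linear_combination h'
          simp [hy, hz] at h3
        · intro; omega
      · refine ⟨C (-4) * X 0 ^ 3 * X 2, ?_, ?_, ?_⟩
        · rw [min_eq_left (by omega)]
          exact lead_zero_le2 A D hA (by omega) h1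
        · refine ND3_of_ne _ (fun x y z hx hy hz => ?_)
          simp [ev, hx, hz]
        · intro; omega
  | succ k ih =>
    intro A B hA hB
    rcases lt_trichotomy A B with h | rfl | h
    · rw [HH_RR_le k A B h.le]
      rcases lt_trichotomy (2 * A) B with h1 | h1 | h1
      · rw [if_pos h1.le]
        obtain ⟨Q, hQ, hnd, -⟩ := ih (2 * A) B (by omega) hB
        refine ⟨_, lead_step k A B (2 * A) _ h hA Q (X 0 ^ 4) hQ ?_, ND3_iii Q hnd, by omega⟩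
        intro R _ _ t x y z
        obtain ⟨A1, rfl⟩ : ∃ A1, A = A1 + 1 := ⟨A - 1, by omega⟩
        obtain ⟨E, rfl⟩ : ∃ E, B = 2 * (A1 + 1) + 1 + E := ⟨B - 2 * (A1 + 1) - 1, by omega⟩
        have e : ev (X 0 ^ 4) x y z = x ^ 4 := by simp [ev]
        rw [e]
        refine ⟨2 * x ^ 2 * (x * y * t ^ (A1 + 1 + E) - y * z * t ^ E) +
          t * (x * y * t ^ (A1 + 1 + E) - y * z * t ^ E) ^ 2, ?_⟩
        simp only [al]
        ring
      · rw [if_pos h1.le]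
        obtain ⟨Q, hQ, hnd, h3⟩ := ih (2 * A) B (by omega) hB
        refine ⟨_, lead_step k A B (2 * A) _ h hA Q ((X 0 ^ 2 - X 1 * X 2) ^ 2) hQ ?_,
          ND3_iv Q hnd (h3 h1), by omega⟩
        intro R _ _ t x y z
        obtain ⟨A1, rfl⟩ : ∃ A1, A = A1 + 1 := ⟨A - 1, by omega⟩
        subst h1
        have e : ev ((X 0 ^ 2 - X 1 * X 2) ^ 2) x y z = (x ^ 2 - y * z) ^ 2 := by simp [ev]
        rw [e]
        refine ⟨x * y * t ^ A1 * (2 * (x ^ 2 - y * z) + t * (x * y * t ^ A1)), ?_⟩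
        simp only [al]
        ring
      · rw [if_neg (by omega)]
        obtain ⟨F, rfl⟩ : ∃ F, B = A + F := ⟨B - A, by omega⟩
        obtain ⟨E, rfl⟩ : ∃ E, A = F + 1 + E := ⟨A - F - 1, by omega⟩
        have e2F : 2 * (F + 1 + E + F) - 2 * (F + 1 + E) = 2 * F := by omega
        rw [e2F]
        obtain ⟨Q, hQ, hnd, -⟩ := ih (2 * F) (F + 1 + E + F) (by omega) hB
        refine ⟨_, lead_step k _ _ (2 * F) _ h hA Q (X 1 ^ 2 * X 2 ^ 2) hQ ?_, ND3_v Q hnd, by omega⟩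
        intro R _ _ t x y z
        have e : ev (X 1 ^ 2 * X 2 ^ 2) x y z = y ^ 2 * z ^ 2 := by simp [ev]
        rw [e]
        refine ⟨(x ^ 2 * t ^ E + x * y * t ^ (F + E)) * (-2 * (y * z) +
          t * (x ^ 2 * t ^ E + x * y * t ^ (F + E))), ?_⟩
        simp only [al]
        ring
    · rw [HH_RR_le k A A le_rfl, if_neg (by omega)]
      have e0 : HH (RR k) (2 * A - 2 * A) A = 0 := by simp [HH]
      rw [e0, add_zero]
      refine ⟨_, lead_eq k A hA, ND3_eq k, ?_⟩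
      intro _ y z hy hz
      rw [ev_bind, ev_bind]
      have h5 : ∀ x : ℂ, ev (X 1 ^ 2 * X 2 ^ 2) x y z = y ^ 2 * z ^ 2 := by
        intro x; simp [ev]
      have h6 : ∀ x : ℂ, ev ((C 2 * X 0 + X 1) ^ 2 * X 2 ^ 2) x y z = (2 * x + y) ^ 2 * z ^ 2 := by
        intro x; simp [ev]
      rw [h5, h5, h6, h6]
      have e1 : (2 * 0 + y) ^ 2 * z ^ 2 = y ^ 2 * z ^ 2 := by ring
      have e2 : (2 * -y + y) ^ 2 * z ^ 2 = y ^ 2 * z ^ 2 := by ring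
      rw [e1, e2]
      have := ev_FF_diag_ne k (y ^ 2 * z ^ 2) (by simp [hy, hz])
      exact ⟨this, this⟩
    · rw [HH_RR_gt (k + 1) A B h]
      refine ⟨_, lead_gt k A B h hB, ?_, by omega⟩
      refine ND3_of_ne _ (fun x y z hx hy hz => ?_)
      rw [ev_bind, e12]
      exact ev_FF_diag_ne k _ (by simp [hy, hz])

end

end Pool.Agent.H878.HC
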