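import Mathlib
import Pool.Agent.H878.HCConv
import Pool.Agent.H878.HCLead2

set_option autoImplicit false

open TrivSqZeroExt MvPolynomial

namespace Pool.Agent.H878.HC

noncomputable section

/-- abstract version of the leading-form evaluation -/
theorem lead_abs {d : ℕ} {F Q : MvPolynomial (Fin 3) ℂ} (hF : F.IsHomogeneous d) {A B H : ℕ}
    (hQ : HasLead F A B H Q) (D : Type) [CommRing D] [Algebra ℂ D] (x y : D) :
    (Polynomial.X : Polynomial D) ^ H ∣
      aeval ![Polynomial.C x * Polynomial.X ^ A, Polynomial.C y * Polynomial.X ^ B]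
        (bind₁ ![X 0, X 0 + X 1, 1] F) ∧
    (∀ x' y' z' i : D, z' * i = 1 → x = x' * i → y = y' * i → ev Q x' y' z' ≠ 0 →
      ¬ (Polynomial.X : Polynomial D) ^ (H + 1) ∣
      aeval ![Polynomial.C x * Polynomial.X ^ A, Polynomial.C y * Polynomial.X ^ B]
        (bind₁ ![X 0, X 0 + X 1, 1] F)) := by
  have hE : ∀ x y : D, aeval ![Polynomial.C x * Polynomial.X ^ A, Polynomial.C y * Polynomial.X ^ B]
        (bind₁ ![X 0, X 0 + X 1, 1] F) = ev F (Polynomial.C x * Polynomial.X ^ A)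
        (Polynomial.C x * Polynomial.X ^ A + Polynomial.C y * Polynomial.X ^ B) 1 := by
    intro x y
    rw [bind_eq_ev, ev_hom]
    simp
  constructor
  · rw [hE]
    obtain ⟨g, hg⟩ := hQ (Polynomial D) Polynomial.X (Polynomial.C x) (Polynomial.C y) 1
    rw [hg]
    exact dvd_mul_right _ _
  · intro x' y' z' i hzi hx hy hne hdiv
    rw [hE] at hdiv
    have h1 : (Polynomial.X : Polynomial D) ^ (H + 1) ∣ ev F (Polynomial.C x' * Polynomial.X ^ A)
        (Polynomial.C x' * Polynomial.X ^ A + Polynomial.C y' * Polynomial.X ^ B) (Polynomial.C z') := by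
      have h2 := ev_smul hF (Polynomial.C z') (Polynomial.C x * Polynomial.X ^ A)
        (Polynomial.C x * Polynomial.X ^ A + Polynomial.C y * Polynomial.X ^ B) 1
      have e1 : Polynomial.C z' * (Polynomial.C x * Polynomial.X ^ A) = Polynomial.C x' * Polynomial.X ^ A := by
        rw [← mul_assoc, ← Polynomial.C_mul, hx]
        congr 2
        linear_combination x' * hzi
      have e2 : Polynomial.C z' * (Polynomial.C y * Polynomial.X ^ B) = Polynomial.C y' * Polynomial.X ^ B := by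
        rw [← mul_assoc, ← Polynomial.C_mul, hy]
        congr 2
        linear_combination y' * hzi
      rw [mul_add, e1, e2, mul_one] at h2
      rw [h2]
      exact Dvd.dvd.mul_left hdiv _
    obtain ⟨g, hg⟩ := hQ (Polynomial D) Polynomial.X (Polynomial.C x') (Polynomial.C y') (Polynomial.C z')
    rw [hg, Polynomial.X_pow_dvd_iff] at h1
    have h3 := h1 H (Nat.lt_succ_self H)
    have h4 : (Polynomial.X ^ H * (ev Q (Polynomial.C x') (Polynomial.C y') (Polynomial.C z') +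
        Polynomial.X * g)).coeff H = (ev Q (Polynomial.C x') (Polynomial.C y') (Polynomial.C z') +
        Polynomial.X * g).coeff 0 := by
      have := Polynomial.coeff_X_pow_mul (ev Q (Polynomial.C x') (Polynomial.C y') (Polynomial.C z') +
        Polynomial.X * g) H 0
      simpa using this
    rw [h4] at h3
    have h5 := ev_hom (Polynomial.CAlgHom (R := ℂ) (A := D)) Q x' y' z'
    have h6 : ev Q (Polynomial.C x') (Polynomial.C y') (Polynomial.C z') = Polynomial.C (ev Q x' y' z') := h5.symm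
    rw [h6] at h3
    simp at h3
    exact hne h3

theorem Typ_of_lead {d : ℕ} {F : MvPolynomial (Fin 3) ℂ} (hF : F.IsHomogeneous d) (R : List (ℕ × ℕ))
    (h : ∀ A B : ℕ, 1 ≤ A → 1 ≤ B → ∃ Q : MvPolynomial (Fin 3) ℂ, HasLead F A B (HH R A B) Q ∧ ND3 Q) :
    Typ (bind₁ ![X 0, X 0 + X 1, 1] F) R := by
  intro A B hA hB
  obtain ⟨Q, hQ, hnd⟩ := h A B hA hB
  refine ⟨fun x y _ _ => (lead_abs hF hQ DD x y).1, fun x y hx hy => ?_⟩
  obtain ⟨x', y', z', hx', hy', hz', hne⟩ := hnd x y 1 hx hy one_ne_zero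
  obtain ⟨i, hif, hii⟩ := dinv z' (by rw [hz']; exact one_ne_zero)
  refine ⟨x' * i, y' * i, ?_, ?_, ?_⟩
  · rw [fst_mul, hx', hif, hz']; simp
  · rw [fst_mul, hy', hif, hz']; simp
  · exact (lead_abs hF hQ DD (x' * i) (y' * i)).2 x' y' z' i hii rfl rfl hne

theorem FF_Typ (k : ℕ) : Typ (bind₁ ![X 0, X 0 + X 1, 1] (FF k)) (RR k) := by
  refine Typ_of_lead (FF_homog k) _ (fun A B hA hB => ?_)
  obtain ⟨Q, h1, h2, _⟩ := FF_lead k A B hA hB
  exact ⟨Q, h1, h2⟩

theorem FF_Typ1 (k : ℕ) : Typ (bind₁ (![1, X 0, X 0 + X 1] : Ch) (FF k)) (RR k) := by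
  have : bind₁ (![1, X 0, X 0 + X 1] : Ch) (FF k) = bind₁ (![X 0, X 0 + X 1, 1] : Ch) (FF k) := by
    rw [bind_eq_ev, bind_eq_ev]
    simp only [Matrix.cons_val_zero, Matrix.cons_val_one, Matrix.cons_val]
    exact (ev_FF_cyc k _ _ _).symm
  rw [this]
  exact FF_Typ k

theorem FF_Typ2 (k : ℕ) : Typ (bind₁ (![X 0 + X 1, 1, X 0] : Ch) (FF k)) (RR k) := by
  have : bind₁ (![X 0 + X 1, 1, X 0] : Ch) (FF k) = bind₁ (![1, X 0, X 0 + X 1] : Ch) (FF k) := by
    rw [bind_eq_ev, bind_eq_ev]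
    simp only [Matrix.cons_val_zero, Matrix.cons_val_one, Matrix.cons_val]
    exact (ev_FF_cyc k _ _ _).symm
  rw [this]
  exact FF_Typ1 k

theorem FF_cov (k : ℕ) (x : Pt) (hs : Sing (FF k) x) :
    ∃ c : ℂ, x = c • ![1, 0, 0] ∨ x = c • ![0, 1, 0] ∨ x = c • ![0, 0, 1] := by
  have hv := hs.value
  by_cases h0 : x 0 = 0
  · by_cases h1 : x 1 = 0
    · refine ⟨x 2, Or.inr (Or.inr ?_)⟩
      funext i; fin_cases i <;> simp [h0, h1]
    by_cases h2 : x 2 = 0
    · refine ⟨x 1, Or.inr (Or.inl ?_)⟩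
      funext i; fin_cases i <;> simp [h0, h2]
    rw [h0] at hv
    exact absurd hv (ev_FF_p0 k _ _ h1 h2)
  by_cases h1 : x 1 = 0
  · by_cases h2 : x 2 = 0
    · refine ⟨x 0, Or.inl ?_⟩
      funext i; fin_cases i <;> simp [h1, h2]
    rw [h1] at hv
    exact absurd hv (ev_FF_q0 k _ _ h0 h2)
  by_cases h2 : x 2 = 0
  · rw [h2] at hv
    exact absurd hv (ev_FF_r0 k _ _ h0 h1)
  exfalso
  obtain ⟨p', q', r', hp, hq, hr, hne⟩ := FF_NS k (x 0) (x 1) (x 2) h0 h1 h2
  apply hne
  have := hs ![p', q', r'] (by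
    intro i
    fin_cases i
    · exact hp
    · exact hq
    · exact hr)
  rw [aeval_eq_ev] at this
  exact this

theorem initConf (k : ℕ) : Conf [RR k, RR k, RR k] 0 (-(16 ^ (k + 1) : ℤ)) := by
  refine ⟨4 ^ (k + 1), FF k, [], [(![X 0, X 0 + X 1, 1], RR k), (![1, X 0, X 0 + X 1], RR k),
    (![X 0 + X 1, 1, X 0], RR k)], ?_, rfl, rfl, ?_⟩
  · have z3 : c0 ![X 0, X 0 + X 1, 1] = ![0, 0, 1] := by
      funext i; fin_cases i <;> simp [c0]
    have z1 : c0 ![1, X 0, X 0 + X 1] = ![1, 0, 0] := by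
      funext i; fin_cases i <;> simp [c0]
    have z2 : c0 ![X 0 + X 1, 1, X 0] = ![0, 1, 0] := by
      funext i; fin_cases i <;> simp [c0]
    constructor
    · exact FF_homog k
    · intro h0
      have := ev_FF_one k
      rw [h0] at this
      simp [ev] at this
    · intro s hs
      simp at hs
    · intro c hc
      simp only [List.mem_cons, List.not_mem_nil, or_false] at hc
      rcases hc with rfl | rfl | rfl
      · refine ⟨?_, FF_Typ k⟩
        simp only
        rw [z3]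
        simp [dt, du, dv, pderiv_X]
      · refine ⟨?_, FF_Typ1 k⟩
        simp only
        rw [z1]
        simp [dt, du, dv, pderiv_X]
      · refine ⟨?_, FF_Typ2 k⟩
        simp only
        rw [z2]
        simp [dt, du, dv, pderiv_X]
    · have : pts [] [((![X 0, X 0 + X 1, 1] : Ch), RR k), (![1, X 0, X 0 + X 1], RR k),
        (![X 0 + X 1, 1, X 0], RR k)] = [![0, 0, 1], ![1, 0, 0], ![0, 1, 0]] := by
        simp only [pts, List.map_nil, List.nil_append, List.map_cons, z1, z2, z3]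
      rw [this]
      simp only [List.pairwise_cons, List.mem_cons, List.not_mem_nil, or_false, forall_eq_or_imp,
        forall_eq, List.Pairwise.nil, and_true, IsEmpty.forall_iff, implies_true]
      refine ⟨⟨NP02 (by simp), NP12 (by simp)⟩, NP01 (by simp)⟩
    · intro x hx hs
      obtain ⟨c, hc⟩ := FF_cov k x hs
      have : pts [] [((![X 0, X 0 + X 1, 1] : Ch), RR k), (![1, X 0, X 0 + X 1], RR k),
        (![X 0 + X 1, 1, X 0], RR k)] = [![0, 0, 1], ![1, 0, 0], ![0, 1, 0]] := by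
        simp only [pts, List.map_nil, List.nil_append, List.map_cons, z1, z2, z3]
      rw [this]
      rcases hc with hc | hc | hc
      · exact ⟨![1, 0, 0], by simp, c, hc⟩
      · exact ⟨![0, 1, 0], by simp, c, hc⟩
      · exact ⟨![0, 0, 1], by simp, c, hc⟩
  · simp only [List.map_nil, List.sum_nil, zero_sub, Nat.cast_pow, Nat.cast_ofNat]
    rw [← pow_mul, mul_comm (k + 1) 2, pow_mul]
    norm_num

theorem finalConf (k : ℕ) : ∃ n : ℕ, Conf [] (9 * Nn n (RR k)) (2 * 4 ^ k) := by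
  refine ⟨6 * 2 ^ k, ?_⟩
  have hF : Fuel (6 * 2 ^ k) (RR k) := by
    intro r hr
    have := RR_mem k r hr
    right; right
    omega
  have h1 := Conf.conv _ _ hF _ _ _ (initConf k)
  have h2 := Conf.conv _ _ hF _ _ _ h1
  have h3 := Conf.conv _ _ hF _ _ _ h2
  have e1 : 0 + 3 * Nn (6 * 2 ^ k) (RR k) + 3 * Nn (6 * 2 ^ k) (RR k) + 3 * Nn (6 * 2 ^ k) (RR k)
    = 9 * Nn (6 * 2 ^ k) (RR k) := by ring
  have e2 : -(16 ^ (k + 1) : ℤ) + (SS (RR k) : ℤ) + (SS (RR k) : ℤ) + (SS (RR k) : ℤ) = 2 * 4 ^ k := by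
    have := SS_RR k
    have h' : (3 * SS (RR k) : ℤ) = 16 ^ (k + 1) + 2 * 4 ^ k := by exact_mod_cast this
    linarith
  rw [e1, e2] at h3
  exact h3

end

end Pool.Agent.H878.HC
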