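import Mathlib
import Pool.Agent.H878.HCInit
import Pool.Agent.H878.HCCount

set_option autoImplicit false

open TrivSqZeroExt MvPolynomial

namespace Pool.Agent.H878.HC

noncomputable section

theorem exists_NP {y : Pt} (hy : y ≠ 0) : ∃ w, NP y w := by
  by_cases h0 : y 0 = 0
  · by_cases h1 : y 1 = 0
    · have h2 : y 2 ≠ 0 := by
        intro h2
        apply hy
        funext i; fin_cases i <;> simp [h0, h1, h2]
      exact ⟨![1, 0, 0], NP02 (by simp [h2])⟩
    · exact ⟨![1, 0, 0], NP01 (by simp [h1])⟩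
  · exact ⟨![0, 1, 0], NP01 (by simp [h0])⟩

theorem sqfree_of_cov {F : MvPolynomial (Fin 3) ℂ} (hF : F ≠ 0) (T : List Pt)
    (hT : ∀ y ∈ T, y ≠ 0) (hcov : ∀ x : Pt, x ≠ 0 → Sing F x → ∃ y ∈ T, ∃ c : ℂ, x = c • y) :
    Squarefree F := by
  intro G hG
  obtain ⟨H, hH⟩ := hG
  have hG0 : G ≠ 0 := by
    rintro rfl
    apply hF
    rw [hH]; ring
  have hsing : ∀ z : Pt, eval z G = 0 → Sing F z := by
    intro z hz w hw
    rw [hH, map_mul, map_mul]
    have h1 : (aeval w G).fst = 0 := by
      have := comp_aeval_apply (fstHom ℂ ℂ ℂ) (f := w) G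
      have e : (fun i => (fstHom ℂ ℂ ℂ) (w i)) = z := funext hw
      rw [e, aeval_eval, hz] at this
      simpa using this
    have h2 : aeval w G * aeval w G = 0 := by
      ext
      · simp [h1]
      · simp [h1]
    rw [h2, zero_mul]
  set T' : List Pt := ![1, 0, 0] :: T with hT'
  have hT'0 : ∀ y ∈ T', y ≠ 0 := by
    intro y hy
    rcases List.mem_cons.1 hy with rfl | hy
    · intro h0
      have := congrFun h0 0
      simp at this
    · exact hT y hy
  choose! w hw using fun (y : Pt) (hy : y ≠ 0) => exists_NP hy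
  obtain ⟨a, -, ha⟩ := exists_good (T'.map (fun y => (y, w y))) 1 one_ne_zero (by
    intro t ht
    obtain ⟨y, hy, rfl⟩ := List.mem_map.1 ht
    exact hw y (hT'0 y hy))
  have ha' : ∀ y ∈ T', NP a y := by
    intro y hy
    have := ha (y, w y) (List.mem_map_of_mem hy)
    refine ⟨w y, fun h0 => this ?_⟩
    simp only [dt] at *
    linear_combination h0
  by_cases hconst : G - C (eval a G) = 0
  · have hGc : G = C (eval a G) := sub_eq_zero.1 hconst
    rw [hGc]
    apply IsUnit.map
    rw [isUnit_iff_ne_zero]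
    intro h0
    rw [h0, C_0] at hGc
    exact hG0 hGc
  exfalso
  obtain ⟨b, hb, hb2⟩ := exists_good (T'.map (fun y => (a, y))) _ hconst (by
    intro t ht
    obtain ⟨y, hy, rfl⟩ := List.mem_map.1 ht
    exact ha' y hy)
  have hb2' : ∀ y ∈ T', dt a y b ≠ 0 := fun y hy => hb2 (a, y) (List.mem_map_of_mem hy)
  simp only [map_sub, eval_C] at hb
  set g : Polynomial ℂ := aeval (fun i => Polynomial.C (a i) + Polynomial.X * Polynomial.C (b i - a i)) G with hg
  have hgev : ∀ t : ℂ, g.eval t = eval (fun i => a i + t * (b i - a i)) G := by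
    intro t
    have := comp_aeval_apply (Polynomial.aeval (R := ℂ) t)
      (f := (fun i => Polynomial.C (a i) + Polynomial.X * Polynomial.C (b i - a i) : Fin 3 → Polynomial ℂ)) G
    rw [← hg] at this
    rw [← Polynomial.coe_aeval_eq_eval, ← aeval_eval]
    refine this.trans ?_
    congr 2
    funext i
    simp
  have hdeg : g.degree ≠ 0 := by
    intro h0
    have h1 := Polynomial.eq_C_of_degree_eq_zero h0
    have h2 := hgev 0
    have h3 := hgev 1
    rw [h1] at h2 h3
    simp only [Polynomial.eval_C] at h2 h3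
    apply hb
    have e0 : (fun i => a i + 0 * (b i - a i)) = a := by funext i; ring
    have e1 : (fun i => a i + 1 * (b i - a i)) = b := by funext i; ring
    rw [e0] at h2
    rw [e1] at h3
    rw [← h3, ← h2, sub_self]
  obtain ⟨t, ht⟩ := IsAlgClosed.exists_root g hdeg
  have ht' : eval (fun i => a i + t * (b i - a i)) G = 0 := by rw [← hgev]; exact ht
  set z : Pt := fun i => a i + t * (b i - a i) with hz
  have hzne : z ≠ 0 := by
    intro h0
    have hd := hb2' ![1, 0, 0] (by simp [hT'])
    have e0 : a 0 + t * (b 0 - a 0) = 0 := congrFun h0 0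
    have e1 : a 1 + t * (b 1 - a 1) = 0 := congrFun h0 1
    have e2 : a 2 + t * (b 2 - a 2) = 0 := congrFun h0 2
    by_cases ht0 : t = 0
    · subst ht0
      apply hd
      simp only [zero_mul, add_zero] at e0 e1 e2
      simp [dt, e0, e1, e2]
    · apply hd
      have k : t * dt a ![1, 0, 0] b = 0 := by
        simp only [dt, Matrix.cons_val_zero, Matrix.cons_val_one, Matrix.cons_val]
        linear_combination (-a 1) * e2 + (a 2) * e1
      rcases mul_eq_zero.1 k with h | h
      · exact absurd h ht0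
      · exact h
  obtain ⟨y, hy, c, hc⟩ := hcov z hzne (hsing z ht')
  have hd := hb2' y (List.mem_cons_of_mem _ hy)
  have e0 : a 0 + t * (b 0 - a 0) = c * y 0 := congrFun hc 0
  have e1 : a 1 + t * (b 1 - a 1) = c * y 1 := congrFun hc 1
  have e2 : a 2 + t * (b 2 - a 2) = c * y 2 := congrFun hc 2
  have hc0 : c ≠ 0 := by
    rintro rfl
    apply hzne
    rw [hc, zero_smul]
  apply hd
  have k : c * dt a y b = 0 := by
    have : c * dt a y b = a 0 * ((c * y 1) * b 2 - (c * y 2) * b 1) - a 1 * ((c * y 0) * b 2 - (c * y 2) * b 0)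
      + a 2 * ((c * y 0) * b 1 - (c * y 1) * b 0) := by
      simp only [dt]; ring
    rw [this, ← e0, ← e1, ← e2]
    ring
  rcases mul_eq_zero.1 k with h | h
  · exact absurd h hc0
  · exact h

/-- first-order expansion over the dual numbers -/
theorem aeval_dual (F : MvPolynomial (Fin 3) ℂ) (x v : Pt) :
    aeval (fun i => (inl (x i) + inr (v i) : DD)) F =
      inl (eval x F) + inr (∑ i, v i * eval x (pderiv i F)) := by
  induction F using MvPolynomial.induction_on with
  | C a => simp [TrivSqZeroExt.algebraMap_eq_inl]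
  | add p q hp hq =>
    rw [map_add, hp, hq]
    simp only [map_add, mul_add, Finset.sum_add_distrib, inl_add, inr_add]
    abel
  | mul_X p j hp =>
    rw [map_mul, hp, aeval_X]
    ext
    · simp
    · simp only [fst_add, snd_add, snd_mul, fst_inl, snd_inl, fst_inr, snd_inr, fst_mul, map_mul,
        Derivation.leibniz, pderiv_X, map_add, smul_eq_mul, eval_X, zero_add, add_zero,
        MulOpposite.smul_eq_mul_unop, MulOpposite.unop_op, op_smul_eq_smul]
      simp only [mul_add, Finset.sum_add_distrib]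
      have e1 : ∑ i, v i * (eval x p * eval x
          ((Pi.single i (1 : MvPolynomial (Fin 3) ℂ) : Fin 3 → MvPolynomial (Fin 3) ℂ) j)) = eval x p * v j := by
        rw [Finset.sum_eq_single j]
        · simp; ring
        · intro b _ hb
          simp [Pi.single_apply, hb.symm]
        · simp
      rw [e1, Finset.sum_mul]
      congr 1
      apply Finset.sum_congr rfl
      intro i _
      ring

theorem Sing_iff (F : MvPolynomial (Fin 3) ℂ) (x : Pt) :
    Sing F x ↔ eval x F = 0 ∧ ∀ i, eval x (pderiv i F) = 0 := by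
  constructor
  · intro h
    have h1 : ∀ v : Pt, inl (eval x F) + inr (∑ i, v i * eval x (pderiv i F)) = (0 : DD) := by
      intro v
      rw [← aeval_dual]
      exact h _ (fun i => by simp)
    constructor
    · have := congrArg TrivSqZeroExt.fst (h1 0)
      simpa using this
    · intro i
      have := congrArg TrivSqZeroExt.snd (h1 (Pi.single i 1))
      simpa [Pi.single_apply] using this
  · rintro ⟨h1, h2⟩ z hz
    have : z = fun i => (inl (x i) + inr ((z i).snd) : DD) := by
      funext i
      ext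
      · simp [hz]
      · simp
    rw [this, aeval_dual, h1]
    simp [h2]

theorem Sing_of_MultGE {F : MvPolynomial (Fin 3) ℂ} {x : Pt} {n : ℕ} (hn : 2 ≤ n)
    (h : MultGE F x n) : Sing F x := by
  intro z hz
  have h1 := h DD 1 (inr 1) (fun i => inl ((z i).snd))
  have h2 : (inr 1 : DD) ^ n = 0 := by
    obtain ⟨e, rfl⟩ := Nat.exists_eq_add_of_le hn
    rw [pow_add, sq, inr_mul_inr, zero_mul]
  rw [h2, zero_dvd_iff] at h1
  have : z = fun i => (1 * algebraMap ℂ DD (x i) + inr 1 * inl ((z i).snd) : DD) := by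
    funext i
    ext
    · simp [hz, TrivSqZeroExt.algebraMap_eq_inl]
    · simp [TrivSqZeroExt.algebraMap_eq_inl]
  rw [this]
  exact h1

theorem MultGE.smul {F : MvPolynomial (Fin 3) ℂ} {x : Pt} {n : ℕ} (h : MultGE F x n) (c : ℂ) :
    MultGE F (c • x) n := by
  intro R _ _ a t y
  have := h R (a * algebraMap ℂ R c) t y
  convert this using 3
  funext i
  simp
  ring

/-- the multiplicity of the problem statement -/
def Mlt (F : MvPolynomial (Fin 3) ℂ) (x : Pt) : ℕ :=
  sInf {k : ℕ | ∃ s ∈ (aeval (fun i : Fin 3 => (C (x i) + X i : MvPolynomial (Fin 3) ℂ)) F).support,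
    ∑ j : Fin 3, s j = k}

theorem le_Mlt {F : MvPolynomial (Fin 3) ℂ} (hF : F ≠ 0) {x : Pt} {n : ℕ} (h : MultGE F x n) :
    n ≤ Mlt F x := by
  set P := aeval (fun i : Fin 3 => (C (x i) + X i : MvPolynomial (Fin 3) ℂ)) F with hP
  have hP0 : P ≠ 0 := by
    intro h0
    apply hF
    have := congrArg (aeval (fun i : Fin 3 => (X i - C (x i) : MvPolynomial (Fin 3) ℂ))) h0
    rw [hP, comp_aeval_apply, map_zero] at this
    have e : (fun i : Fin 3 => aeval (fun i : Fin 3 => (X i - C (x i) : MvPolynomial (Fin 3) ℂ))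
        (C (x i) + X i : MvPolynomial (Fin 3) ℂ)) = X := by
      funext i
      simp [algebraMap_eq]
    rw [e, aeval_X_left_apply] at this
    exact this
  have hne : {k : ℕ | ∃ s ∈ P.support, ∑ j : Fin 3, s j = k}.Nonempty := by
    obtain ⟨s, hs⟩ := support_nonempty.2 hP0
    exact ⟨_, s, hs, rfl⟩
  apply le_csInf hne
  rintro k ⟨s, hs, rfl⟩
  by_contra hlt
  push Not at hlt
  -- consider P(tX) in ℂ[X][t]
  have h1 := h (Polynomial (MvPolynomial (Fin 3) ℂ)) 1 Polynomial.X (fun i => Polynomial.C (X i))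
  have h2 : aeval (fun i => 1 * algebraMap ℂ (Polynomial (MvPolynomial (Fin 3) ℂ)) (x i) +
      Polynomial.X * Polynomial.C (X i)) F =
      aeval (fun i => (Polynomial.X * Polynomial.C (X i) : Polynomial (MvPolynomial (Fin 3) ℂ))) P := by
    rw [hP, comp_aeval_apply]
    congr 2
    funext i
    simp [Polynomial.algebraMap_apply, algebraMap_eq]
  rw [h2] at h1
  rw [Polynomial.X_pow_dvd_iff] at h1
  have h3 := h1 _ hlt
  have h4 : ∀ m : ℕ, (aeval (fun i => (Polynomial.X * Polynomial.C (X i) :
      Polynomial (MvPolynomial (Fin 3) ℂ))) P).coeff m = homogeneousComponent m P := by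
    intro m
    rw [homogeneousComponent_apply, aeval_def, eval₂_eq]
    rw [Polynomial.finsetSum_coeff, Finset.sum_filter]
    apply Finset.sum_congr rfl
    intro u _
    have e1 : ∏ i ∈ u.support, (Polynomial.X * Polynomial.C (X i : MvPolynomial (Fin 3) ℂ)) ^ u i =
        Polynomial.X ^ u.degree * Polynomial.C (∏ i ∈ u.support, X i ^ u i) := by
      simp only [mul_pow, Finset.prod_mul_distrib, Finset.prod_pow_eq_pow_sum]
      rw [map_prod]
      simp only [map_pow]
      rfl
    rw [e1, Polynomial.algebraMap_apply, ← mul_assoc, mul_comm (Polynomial.C _), mul_assoc, ← Polynomial.C_mul,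
      Polynomial.coeff_X_pow_mul']
    rcases lt_trichotomy u.degree m with h | h | h
    · rw [if_pos h.le, if_neg (by omega), Polynomial.coeff_C_of_ne_zero (by omega)]
    · rw [if_pos h.le, if_pos h, h, Nat.sub_self, Polynomial.coeff_C_zero]
      rw [monomial_eq, algebraMap_eq]
      rfl
    · rw [if_neg (by omega), if_neg (by omega)]
  rw [h4] at h3
  have h5 := coeff_homogeneousComponent (∑ j, s j) P s
  rw [h3] at h5
  have h6 : s.degree = ∑ j : Fin 3, s j := by
    rw [Finsupp.degree_eq_sum]
  rw [if_pos h6] at h5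
  rw [mem_support_iff] at hs
  exact hs (by rw [← h5]; simp)

end

end Pool.Agent.H878.HC
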