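import Mathlib
import Pool.Agent.H878.HCFinal

set_option autoImplicit false

open TrivSqZeroExt MvPolynomial

namespace Pool.Agent.H878.HC

noncomputable section

def ZZ (F : MvPolynomial (Fin 3) ℂ) : Set (Projectivization ℂ (Fin 3 → ℂ)) :=
  {p | eval p.rep F = 0 ∧ ∀ i : Fin 3, eval p.rep (pderiv i F) = 0}

theorem e0_ne : (![1, 0, 0] : Pt) ≠ 0 := by
  intro h
  have := congrFun h 0
  simp at this

open Classical in
def mkp (v : Pt) : Projectivization ℂ (Fin 3 → ℂ) :=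
  if h : v ≠ 0 then Projectivization.mk ℂ v h else Projectivization.mk ℂ ![1, 0, 0] e0_ne

theorem mkp_rep {v : Pt} (hv : v ≠ 0) : ∃ c : ℂ, (mkp v).rep = c • v := by
  unfold mkp
  rw [dif_pos hv]
  obtain ⟨a, ha⟩ := Projectivization.exists_smul_eq_mk_rep ℂ v hv
  exact ⟨a, ha.symm⟩

theorem mkp_inj {v w : Pt} (hv : v ≠ 0) (hw : w ≠ 0) (h : NP v w) : mkp v ≠ mkp w := by
  intro he
  unfold mkp at he
  rw [dif_pos hv, dif_pos hw, Projectivization.mk_eq_mk_iff'] at he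
  obtain ⟨a, ha⟩ := he
  obtain ⟨z, hz⟩ := h
  apply hz
  rw [← ha]
  simp only [dt, Pi.smul_apply, smul_eq_mul]
  ring

theorem mkp_of_rep {p : Projectivization ℂ (Fin 3 → ℂ)} {v : Pt} (hv : v ≠ 0) {c : ℂ}
    (h : p.rep = c • v) : mkp v = p := by
  unfold mkp
  rw [dif_pos hv]
  conv_rhs => rw [← p.mk_rep]
  rw [Projectivization.mk_eq_mk_iff']
  have hc : c ≠ 0 := by
    rintro rfl
    apply p.rep_nonzero
    rw [h, zero_smul]
  exact ⟨c⁻¹, by rw [h, smul_smul, inv_mul_cancel₀ hc, one_smul]⟩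

theorem ratio_of_conf {K : ℕ} {A : ℤ} (h : Conf [] K A) (hKA : (K : ℤ) < A) :
    ∃ (d : ℕ) (F : MvPolynomial (Fin 3) ℂ), F.IsHomogeneous d ∧ Squarefree F ∧ (ZZ F).Nonempty ∧
      (((d : ℝ) ^ 2 - ∑ᶠ p ∈ ZZ F, ((Mlt F p.rep : ℕ) : ℝ) ^ 2) / ((ZZ F).ncard : ℝ)) ≤
        ((K : ℝ) - A) / K := by
  classical
  obtain ⟨d, F, S, L, hSt, hK, hL, hA⟩ := h
  have hL' : L = [] := by simpa using hL
  subst hL'
  have hpts : pts S [] = S.map Prod.fst := by simp [pts]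
  have hcov := hSt.cov
  have hpw := hSt.pw
  rw [hpts] at hcov hpw
  have hsq : Squarefree F := by
    refine sqfree_of_cov hSt.ne (S.map Prod.fst) ?_ hcov
    intro y hy
    obtain ⟨s, hs, rfl⟩ := List.mem_map.1 hy
    exact (hSt.mult s hs).1
  set P : List (Projectivization ℂ (Fin 3 → ℂ)) := S.map (fun s => mkp s.1) with hP
  have hnodup : P.Nodup := by
    rw [List.pairwise_map] at hpw
    rw [hP, List.Nodup, List.pairwise_map]
    refine hpw.imp_of_mem ?_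
    intro a b ha hb hab
    exact mkp_inj (hSt.mult a ha).1 (hSt.mult b hb).1 hab
  have hPmult : ∀ s ∈ S, MultGE F (mkp s.1).rep s.2 := by
    intro s hs
    obtain ⟨h1, h2⟩ := hSt.mult s hs
    obtain ⟨c, hc⟩ := mkp_rep h1
    rw [hc]
    exact h2.smul c
  have hZP : ∀ p ∈ ZZ F, p ∈ P := by
    intro p hp
    have hs : Sing F p.rep := (Sing_iff F p.rep).2 hp
    obtain ⟨y, hy, c, hc⟩ := hcov p.rep p.rep_nonzero hs
    obtain ⟨s, hs', rfl⟩ := List.mem_map.1 hy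
    rw [hP, List.mem_map]
    exact ⟨s, hs', mkp_of_rep (hSt.mult s hs').1 hc⟩
  set ZF : Finset (Projectivization ℂ (Fin 3 → ℂ)) := P.toFinset.filter (fun p => p ∈ ZZ F) with hZF
  have hZeq : (ZF : Set (Projectivization ℂ (Fin 3 → ℂ))) = ZZ F := by
    ext p
    simp only [hZF, Finset.coe_filter, List.mem_toFinset, Set.mem_setOf_eq]
    exact ⟨fun h => h.2, fun h => ⟨hZP p h, h⟩⟩
  have hcard : (ZZ F).ncard = ZF.card := by
    rw [← hZeq, Set.ncard_coe_finset]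
  have hcardle : ZF.card ≤ K := by
    have h1 : ZF.card ≤ P.toFinset.card := Finset.card_filter_le _ _
    have h2 : P.toFinset.card ≤ P.length := List.toFinset_card_le P
    have h3 : P.length = K := by rw [hP, List.length_map, hK]
    omega
  have hfin : ∑ᶠ p ∈ ZZ F, ((Mlt F p.rep : ℕ) : ℝ) ^ 2 = ∑ p ∈ ZF, ((Mlt F p.rep : ℕ) : ℝ) ^ 2 := by
    rw [← hZeq]
    exact finsum_mem_coe_finset _ _
  -- the key inequality
  have hsum : ((S.map Prod.snd).map (fun n : ℕ => (n : ℝ) ^ 2)).sum ≤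
      ∑ p ∈ ZF, ((Mlt F p.rep : ℕ) : ℝ) ^ 2 + K := by
    set f : Projectivization ℂ (Fin 3 → ℂ) → ℝ := fun p => if p ∈ ZZ F then ((Mlt F p.rep : ℕ) : ℝ) ^ 2 else 0 with hf
    have h1 : ((S.map Prod.snd).map (fun n : ℕ => (n : ℝ) ^ 2)).sum ≤
        (S.map (fun s => f (mkp s.1) + 1)).sum := by
      rw [List.map_map]
      apply List.sum_le_sum
      intro s hs
      simp only [Function.comp]
      have hm := hPmult s hs
      have hle := le_Mlt hSt.ne hm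
      by_cases hz : mkp s.1 ∈ ZZ F
      · rw [hf]
        simp only [if_pos hz]
        have : (s.2 : ℝ) ≤ (Mlt F (mkp s.1).rep : ℝ) := by exact_mod_cast hle
        nlinarith [Nat.cast_nonneg (α := ℝ) s.2]
      · rw [hf]
        simp only [if_neg hz]
        have hs2 : s.2 ≤ 1 := by
          by_contra hc
          push Not at hc
          exact hz ((Sing_iff F _).1 (Sing_of_MultGE hc hm))
        have : (s.2 : ℝ) ≤ 1 := by exact_mod_cast hs2
        nlinarith [Nat.cast_nonneg (α := ℝ) s.2]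
    have h2 : (S.map (fun s => f (mkp s.1) + 1)).sum = (P.map f).sum + K := by
      rw [List.sum_map_add, hP, List.map_map]
      simp [Function.comp_def, hK]
    have h3 : (P.map f).sum = ∑ p ∈ ZF, ((Mlt F p.rep : ℕ) : ℝ) ^ 2 := by
      rw [← List.sum_toFinset f hnodup, hZF, Finset.sum_filter]
    rw [h2, h3] at h1
    exact h1
  have hA' : ((S.map Prod.snd).map (fun n : ℕ => (n : ℝ) ^ 2)).sum - (d : ℝ) ^ 2 = A := by
    rw [← hA]
    push_cast
    rw [List.map_map]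
    simp [Function.comp_def]
  have hnum : (d : ℝ) ^ 2 - ∑ p ∈ ZF, ((Mlt F p.rep : ℕ) : ℝ) ^ 2 ≤ K - A := by linarith
  have hKA' : (K : ℝ) < A := by exact_mod_cast hKA
  have hZFne : 0 < ZF.card := by
    rw [Nat.pos_iff_ne_zero]
    intro h0
    have h1 : ZF = ∅ := Finset.card_eq_zero.1 h0
    rw [h1, Finset.sum_empty] at hnum
    nlinarith [sq_nonneg (d : ℝ)]
  refine ⟨d, F, hSt.hom, hsq, ?_, ?_⟩
  · rw [← hZeq]
    exact_mod_cast Finset.card_pos.1 hZFne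
  · rw [hfin, hcard]
    have hc1 : (0 : ℝ) < ZF.card := by exact_mod_cast hZFne
    have hc2 : (ZF.card : ℝ) ≤ K := by exact_mod_cast hcardle
    have hK0 : (0 : ℝ) < K := lt_of_lt_of_le hc1 hc2
    calc ((d : ℝ) ^ 2 - ∑ p ∈ ZF, ((Mlt F p.rep : ℕ) : ℝ) ^ 2) / (ZF.card : ℝ)
        ≤ (K - A) / (ZF.card : ℝ) := by
          apply div_le_div_of_nonneg_right hnum hc1.le
      _ ≤ (K - A) / K := by
          rw [div_le_div_iff₀ hc1 hK0]
          nlinarith

/-- The H-constants of reduced plane curves are unbounded below. -/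
theorem main (c : ℝ) : ∃ (d : ℕ) (F : MvPolynomial (Fin 3) ℂ), F.IsHomogeneous d ∧ Squarefree F ∧
    (ZZ F).Nonempty ∧
      (((d : ℝ) ^ 2 - ∑ᶠ p ∈ ZZ F, ((Mlt F p.rep : ℕ) : ℝ) ^ 2) / ((ZZ F).ncard : ℝ)) < c := by
  -- choose T with T > 18 (|c| + 2)
  obtain ⟨T, hT⟩ := exists_nat_gt (72 * (|c| + 2))
  have hc0 : 0 ≤ |c| := abs_nonneg c
  have hT0 : (0 : ℝ) < T := by linarith
  -- choose k
  obtain ⟨k, hk⟩ : ∃ k : ℕ, (2 : ℝ) ^ k > T * (9 * (2 + 4 ^ T * 4) * (|c| + 2)) := by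
    obtain ⟨k, hk⟩ := pow_unbounded_of_one_lt (T * (9 * (2 + 4 ^ T * 4) * (|c| + 2)) : ℝ) (one_lt_two)
    exact ⟨k, hk⟩
  obtain ⟨n, hconf⟩ := finalConf k
  have hN := Nn_RR T k n
  set N := Nn n (RR k) with hNdef
  have hNR : (T : ℝ) * N ≤ 2 * T + 4 ^ (k + 1) + T * (4 ^ T * (3 * 2 ^ k + 1)) := by exact_mod_cast hN
  have h2k : (1 : ℝ) ≤ 2 ^ k := one_le_pow₀ (by norm_num)
  have h4k : (4 : ℝ) ^ k = 2 ^ k * 2 ^ k := by
    rw [← mul_pow]; norm_num
  have h4T : (0 : ℝ) < 4 ^ T := by positivity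
  -- bound 9 N (|c| + 2) < 2 * 4 ^ k
  have key : (9 * N : ℝ) * (|c| + 2) < 2 * 4 ^ k := by
    have h1 : (T : ℝ) * (9 * N * (|c| + 2)) ≤
        9 * (|c| + 2) * (4 * 4 ^ k) + T * (9 * (2 + 4 ^ T * 4) * (|c| + 2)) * 2 ^ k := by
      have e1 : (T : ℝ) * (9 * N * (|c| + 2)) = 9 * (|c| + 2) * (T * N) := by ring
      rw [e1]
      have h2 : (T : ℝ) * N ≤ 4 * 4 ^ k + T * (2 + 4 ^ T * 4) * 2 ^ k := by
        have e2 : (4 : ℝ) ^ (k + 1) = 4 * 4 ^ k := by ring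
        rw [e2] at hNR
        have h3 : 2 * (T : ℝ) + T * (4 ^ T * (3 * 2 ^ k + 1)) ≤ T * (2 + 4 ^ T * 4) * 2 ^ k := by
          have h5 : (T : ℝ) * 4 ^ T * 1 ≤ T * 4 ^ T * 2 ^ k :=
            mul_le_mul_of_nonneg_left h2k (by positivity)
          have h6 : (T : ℝ) * 1 ≤ T * 2 ^ k := mul_le_mul_of_nonneg_left h2k hT0.le
          nlinarith
        linarith
      have h7 : (0 : ℝ) ≤ 9 * (|c| + 2) := by positivity
      have h8 := mul_le_mul_of_nonneg_left h2 h7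
      calc 9 * (|c| + 2) * (T * N) ≤ 9 * (|c| + 2) * (4 * 4 ^ k + T * (2 + 4 ^ T * 4) * 2 ^ k) := h8
        _ = _ := by ring
    have h9 : T * (9 * (2 + 4 ^ T * 4) * (|c| + 2)) * 2 ^ k < 2 ^ k * (2 : ℝ) ^ k :=
      mul_lt_mul_of_pos_right hk (by positivity)
    rw [← h4k] at h9
    have h10 : (T : ℝ) * (9 * N * (|c| + 2)) < (36 * (|c| + 2) + 1) * 4 ^ k := by nlinarith
    have h11 : (36 * (|c| + 2) + 1) * (4 : ℝ) ^ k ≤ T * (2 * 4 ^ k) := by
      have : (0 : ℝ) < 4 ^ k := by positivity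
      nlinarith
    have h12 : (T : ℝ) * (9 * N * (|c| + 2)) < T * (2 * 4 ^ k) := lt_of_lt_of_le h10 h11
    exact lt_of_mul_lt_mul_left h12 hT0.le
  have hKA : ((9 * N : ℕ) : ℤ) < 2 * 4 ^ k := by
    have : (9 * N : ℝ) < 2 * 4 ^ k := by
      have : (0 : ℝ) ≤ 9 * N := by positivity
      nlinarith
    exact_mod_cast this
  obtain ⟨d, F, h1, h2, h3, h4⟩ := ratio_of_conf hconf hKA
  refine ⟨d, F, h1, h2, h3, lt_of_le_of_lt h4 ?_⟩
  push_cast
  have hNpos : (0 : ℝ) < 9 * N := by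
    rcases Nat.eq_zero_or_pos N with h0 | h0
    · exfalso
      obtain ⟨d', F', S', L', hSt, hK, hL, hA⟩ := hconf
      rw [h0] at hK
      have hS : S' = [] := by
        apply List.length_eq_zero_iff.1
        simpa using hK
      rw [hS] at hA
      simp only [List.map_nil, List.sum_nil, zero_sub] at hA
      have : (0 : ℤ) < 2 * 4 ^ k := by positivity
      nlinarith [sq_nonneg (d' : ℤ)]
    · positivity
  rw [div_lt_iff₀ hNpos]
  have h5 : -c ≤ |c| := neg_le_abs c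
  nlinarith

end

end Pool.Agent.H878.HC
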